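import Pool.Agent.R385.TL.EQQ

/-!
# Class functions on compact groups and continuous functions
-/

set_option autoImplicit false

namespace Pool.Agent.R385.TL

open MeasureTheory Filter Topology

/-- The continuous class functions on the group `G`. -/
def ClassFunctions (G : Type) [Group G] [TopologicalSpace G] : Set (G → ℝ) :=
  {f | Continuous f ∧ ∀ g h : G, f (h * g * h⁻¹) = f g}

variable {G : Type} [Group G] [TopologicalSpace G] [CompactSpace G] [MeasurableSpace G]
  [BorelSpace G]

lemma bdd_of_continuous {f : G → ℝ} (hf : Continuous f) : ∃ C : ℝ, ∀ y, |f y| ≤ C := by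
  obtain ⟨C, hC⟩ := isCompact_univ.exists_bound_of_continuousOn hf.continuousOn
  exact ⟨C, fun y => hC y (Set.mem_univ y)⟩

lemma integrable_of_continuous (μ : Measure G) [IsProbabilityMeasure μ] {f : G → ℝ}
    (hf : Continuous f) : Integrable f μ := by
  obtain ⟨C, hC⟩ := bdd_of_continuous hf
  exact ⟨hf.measurable.aestronglyMeasurable, HasFiniteIntegral.of_bounded (C := C)
    (Eventually.of_forall hC)⟩

lemma class_add {f : G → ℝ} (hf : f ∈ ClassFunctions G) (c : ℝ) :
    (fun y => f y + c) ∈ ClassFunctions G :=
  ⟨hf.1.add_const c, fun g h => by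
    show f (h * g * h⁻¹) + c = f g + c
    rw [hf.2 g h]⟩

lemma integral_add_const' (μ : Measure G) [IsProbabilityMeasure μ] {f : G → ℝ}
    (hf : f ∈ ClassFunctions G) (c : ℝ) : ∫ y, (f y + c) ∂μ = (∫ y, f y ∂μ) + c := by
  rw [integral_add (integrable_of_continuous μ hf.1) (integrable_const c), integral_const]
  simp

end Pool.Agent.R385.TL
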