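import Pool.Agent.R385.TL.QQ

/-!
# Tail exponents and mean values; equidistribution
-/

set_option autoImplicit false

namespace Pool.Agent.R385.TL

open MeasureTheory Filter Topology NumberField IsDedekindDomain
open Pool.Agent.R385.FG

lemma LL_lower : ∃ K : ℝ, 0 ≤ K ∧ ∀ x : ℕ, 3 ≤ x → -K ≤ Real.log (Real.log x) :=
  ⟨|Real.log (Real.log 3)|, abs_nonneg _, fun x hx => by
    have hx3 : (3 : ℝ) ≤ x := by exact_mod_cast hx
    have h7 : Real.log (Real.log 3) ≤ Real.log (Real.log x) :=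
      Real.log_le_log (Real.log_pos (by norm_num)) (Real.log_le_log (by norm_num) hx3)
    exact (neg_abs_le _).trans h7⟩

/-- **The tail exponent and the logarithmic mean.** -/
theorem tail_abs {U : ℝ → ℝ} {Z : ℕ → ℝ} {β : ℝ}
    (h : ∀ r : ℝ, 0 < β + r →
      (RareF (β + r) U ↔ ∃ C : ℝ, ∀ x : ℕ, 3 ≤ x → Z x ≤ r * Real.log (Real.log x) + C) ∧
      (FreqF (β + r) U ↔ ∃ C : ℝ, ∀ x : ℕ, 3 ≤ x → r * Real.log (Real.log x) - C ≤ Z x))
    (hZ : ∃ C : ℝ, ∀ x : ℕ, 3 ≤ x → -β * Real.log (Real.log x) - C ≤ Z x)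
    {r : ℝ} (hr : -β ≤ r) :
    TailExponent (β + r) U ↔
      Tendsto (fun x : ℕ => Z x / Real.log (Real.log x)) atTop (𝓝 r) := by
  have hLL := tendsto_LL
  constructor
  · rintro ⟨h1, h2⟩
    rw [tendsto_order]
    constructor
    · intro r' hr'
      set r2 : ℝ := (r' + r) / 2 with hr2
      have hr2l : r' < r2 := by rw [hr2]; linarith
      have hr2u : r2 < r := by rw [hr2]; linarith
      obtain ⟨C, hC⟩ : ∃ C : ℝ, ∀ x : ℕ, 3 ≤ x → r2 * Real.log (Real.log x) - C ≤ Z x := by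
        by_cases h3 : 0 < β + r2
        · exact (h r2 h3).2.1 (h2 (β + r2) h3 (by linarith))
        · obtain ⟨C, hC⟩ := hZ
          obtain ⟨K, hK0, hK⟩ := LL_lower
          refine ⟨C + K * (-β - r2), fun x hx => ?_⟩
          push Not at h3
          have h4 := hC x hx
          have h5 := hK x hx
          nlinarith
      filter_upwards [hLL.eventually_gt_atTop 0, hLL.eventually_gt_atTop (C / (r2 - r')),
        eventually_ge_atTop 3] with x hx1 hx2 hx3
      rw [lt_div_iff₀ hx1]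
      have h3 := hC x hx3
      rw [div_lt_iff₀ (by linarith)] at hx2
      nlinarith
    · intro r' hr'
      set r2 : ℝ := (r' + r) / 2 with hr2
      have hr2l : r2 < r' := by rw [hr2]; linarith
      have hr2u : r < r2 := by rw [hr2]; linarith
      obtain ⟨C, hC⟩ := (h r2 (by linarith)).1.1 (h1 (β + r2) (by linarith))
      filter_upwards [hLL.eventually_gt_atTop 0, hLL.eventually_gt_atTop (C / (r' - r2)),
        eventually_ge_atTop 3] with x hx1 hx2 hx3
      rw [div_lt_iff₀ hx1]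
      have h3 := hC x hx3
      rw [div_lt_iff₀ (by linarith)] at hx2
      nlinarith
  · intro hlim
    constructor
    · intro κ' hκ'
      have h1 : κ' = β + (κ' - β) := by ring
      rw [h1]
      refine (h (κ' - β) (by linarith)).1.2 ?_
      obtain ⟨C, hC⟩ := ev_bound (f := fun x : ℕ => Z x -
        (κ' - β) * Real.log (Real.log x)) (by
        filter_upwards [(tendsto_order.1 hlim).2 (κ' - β) (by linarith),
          hLL.eventually_gt_atTop 0] with x hx1 hx2
        rw [div_lt_iff₀ hx2] at hx1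
        linarith)
      exact ⟨C, fun x _ => by linarith [hC x]⟩
    · intro κ' hκ0 hκ'
      have h1 : κ' = β + (κ' - β) := by ring
      rw [h1]
      refine (h (κ' - β) (by linarith)).2.2 ?_
      obtain ⟨C, hC⟩ := ev_bound (f := fun x : ℕ =>
        (κ' - β) * Real.log (Real.log x) - Z x) (by
        filter_upwards [(tendsto_order.1 hlim).1 (κ' - β) (by linarith),
          hLL.eventually_gt_atTop 0] with x hx1 hx2
        rw [lt_div_iff₀ hx2] at hx1
        linarith)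
      exact ⟨C, fun x _ => by linarith [hC x]⟩

section field

variable {F : Type} [Field F] [NumberField F]
variable {R : Finset (HeightOneSpectrum (𝓞 F))} {b : HeightOneSpectrum (𝓞 F) → ℝ} {C β : ℝ}

/-- nonnegative coefficients over a number field -/
theorem tail_nonneg (hC : 0 ≤ C) (hb : ∀ v, v ∉ R → |b v| ≤ C) (hb0 : ∀ v, v ∉ R → 0 ≤ b v)
    {r : ℝ} (hr : 0 ≤ r) : TailExponent r (cosSeries R b) ↔
      Tendsto (fun x : ℕ => primeSum R b x / Real.log (Real.log x)) atTop (𝓝 r) := by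
  have h1 := tail_abs (U := cosSeries R b) (Z := primeSum R b) (β := 0) (r := r)
    (fun r hr => by
      rw [zero_add] at hr ⊢
      exact nonneg_iff hC hb hb0 hr)
    ⟨0, fun x hx => by
      rw [neg_zero, zero_mul, sub_zero]
      exact primeSum_nonneg hb0 x⟩ (by rw [neg_zero]; exact hr)
  rwa [zero_add] at h1

/-- The mean value of `b_v` over the primes `v ∉ R` with `q_v ≤ X`. -/
noncomputable def meanV (R : Finset (HeightOneSpectrum (𝓞 F))) (b : HeightOneSpectrum (𝓞 F) → ℝ)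
    (X : ℕ) : ℝ :=
  (∑ᶠ v ∈ {v : HeightOneSpectrum (𝓞 F) | v ∉ R ∧ Ideal.absNorm v.asIdeal ≤ X}, b v) /
    {v : HeightOneSpectrum (𝓞 F) | v ∉ R ∧ Ideal.absNorm v.asIdeal ≤ X}.ncard

open Classical in
lemma meanV_eq (X : ℕ) : meanV R b X =
    (∑ v ∈ Pool.Agent.H126U.ST.VS R X, b v) / (Pool.Agent.H126U.ST.VS R X).card := by
  have h1 : {v : HeightOneSpectrum (𝓞 F) | v ∉ R ∧ Ideal.absNorm v.asIdeal ≤ X} =
      ((Pool.Agent.H126U.ST.VS R X : Finset (HeightOneSpectrum (𝓞 F))) :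
        Set (HeightOneSpectrum (𝓞 F))) := by
    ext v
    rw [Set.mem_ofPred_eq, Finset.mem_coe]
    unfold Pool.Agent.H126U.ST.VS
    rw [Finset.mem_filter, Pool.Agent.H126U.mem_VX]
    exact ⟨fun h => ⟨h.2, h.1⟩, fun h => ⟨h.2, h.1⟩⟩
  unfold meanV
  rw [h1, finsum_mem_coe_finset, Set.ncard_coe_finset]

/-- natural means and logarithmic means -/
theorem mean_of_meanV (hC : 0 ≤ C) (hb : ∀ v, v ∉ R → |b v| ≤ C) {ρ : ℝ}
    (h : Tendsto (meanV R b) atTop (𝓝 ρ)) :
    Tendsto (fun x : ℕ => primeSum R b x / Real.log (Real.log x)) atTop (𝓝 ρ) := by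
  classical
  refine mean_of_residue hC hb (residue_of_average hC hb ?_)
  have h1 := (Pool.Agent.H126V.Taub.LA_mn R hC hb).add h
  rw [zero_add] at h1
  refine h1.congr fun X => ?_
  rw [Pool.Agent.W353.FB.average_eq, meanV_eq]
  unfold Pool.Agent.H126U.ST.mn
  ring

lemma primeSum_add_const (c : ℝ) (x : ℕ) : primeSum R (fun v => b v + c) x =
    primeSum R b x + c * primeSum R (fun _ => 1) x := by
  have h1 := primeSum_lin (R := R) (b := b) (β := c) x
  rw [add_comm, ← h1]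
  refine congrArg (fun f => primeSum R f x) (funext fun v => add_comm _ _)

lemma mean_one (R : Finset (HeightOneSpectrum (𝓞 F))) :
    Tendsto (fun x : ℕ => primeSum R (fun _ => 1) x / Real.log (Real.log x)) atTop (𝓝 1) := by
  obtain ⟨K, _, hK⟩ := mertens R
  exact mean_of_bounded (ρ := 1) (K := K) fun x hx => by
    rw [one_mul]
    exact hK x hx

/-- adding a constant -/
lemma mean_add_const {ρ : ℝ} (c : ℝ) :
    Tendsto (fun x : ℕ => primeSum R (fun v => b v + c) x / Real.log (Real.log x)) atTop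
      (𝓝 (ρ + c)) ↔
    Tendsto (fun x : ℕ => primeSum R b x / Real.log (Real.log x)) atTop (𝓝 ρ) := by
  have h1 : Tendsto (fun x : ℕ => c * (primeSum R (fun _ => 1) x / Real.log (Real.log x))) atTop
      (𝓝 c) := by
    have := (mean_one R).const_mul c
    rwa [mul_one] at this
  constructor
  · intro h
    have h2 := h.sub h1
    rw [add_sub_cancel_right] at h2
    refine h2.congr fun x => ?_
    rw [primeSum_add_const]
    ring
  · intro h
    refine (h.add h1).congr fun x => ?_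
    rw [primeSum_add_const]
    ring

/-- **Equidistribution over a number field.** -/
theorem equi {Y : Type} (x : HeightOneSpectrum (𝓞 F) → Y) (𝓕 : Set (Y → ℝ))
    (hbd : ∀ f ∈ 𝓕, ∃ C : ℝ, ∀ y, |f y| ≤ C)
    (hadd : ∀ f ∈ 𝓕, ∀ c : ℝ, (fun y => f y + c) ∈ 𝓕) (I : (Y → ℝ) → ℝ)
    (hI : ∀ f ∈ 𝓕, ∀ c : ℝ, I (fun y => f y + c) = I f + c)
    (hI0 : ∀ f ∈ 𝓕, (∀ y, 0 ≤ f y) → 0 ≤ I f) :
    ((∀ f ∈ 𝓕, Tendsto (fun X : ℕ => primeSum R (fun v => f (x v)) X / Real.log (Real.log X))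
        atTop (𝓝 (I f))) ↔
      ∀ f ∈ 𝓕, (∀ y, 0 ≤ f y) → TailExponent (I f) (cosSeries R fun v => f (x v))) ∧
    ((∀ f ∈ 𝓕, Tendsto (meanV R fun v => f (x v)) atTop (𝓝 (I f))) ↔
      (∀ f ∈ 𝓕, ∃ ρ : ℝ, Tendsto (meanV R fun v => f (x v)) atTop (𝓝 ρ)) ∧
      ∀ f ∈ 𝓕, (∀ y, 0 ≤ f y) → TailExponent (I f) (cosSeries R fun v => f (x v))) := by
  have hT : ∀ f ∈ 𝓕, (∀ y, 0 ≤ f y) → (TailExponent (I f) (cosSeries R fun v => f (x v)) ↔
      Tendsto (fun X : ℕ => primeSum R (fun v => f (x v)) X / Real.log (Real.log X))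
        atTop (𝓝 (I f))) := by
    intro f hf hf0
    obtain ⟨C, hC⟩ := hbd f hf
    exact tail_nonneg (abs_nonneg C) (fun v _ => (hC (x v)).trans (le_abs_self C))
      (fun v _ => hf0 (x v)) (hI0 f hf hf0)
  have key : (∀ f ∈ 𝓕, (∀ y, 0 ≤ f y) → TailExponent (I f) (cosSeries R fun v => f (x v))) →
      ∀ f ∈ 𝓕, Tendsto (fun X : ℕ => primeSum R (fun v => f (x v)) X / Real.log (Real.log X))
        atTop (𝓝 (I f)) := by
    intro h f hf
    obtain ⟨C, hC⟩ := hbd f hf
    have h0 : ∀ y, 0 ≤ f y + C := fun y => by linarith [(abs_le.1 (hC y)).1]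
    have h1 := (hT _ (hadd f hf C) h0).1 (h _ (hadd f hf C) h0)
    rw [hI f hf C] at h1
    exact (mean_add_const C).1 h1
  refine ⟨⟨fun h f hf hf0 => (hT f hf hf0).2 (h f hf), key⟩, fun h => ⟨fun f hf => ⟨_, h f hf⟩,
    fun f hf hf0 => (hT f hf hf0).2 ?_⟩, fun h f hf => ?_⟩
  · obtain ⟨C, hC⟩ := hbd f hf
    exact mean_of_meanV (abs_nonneg C) (fun v _ => (hC (x v)).trans (le_abs_self C)) (h f hf)
  · obtain ⟨ρ, hρ⟩ := h.1 f hf
    obtain ⟨C, hC⟩ := hbd f hf
    have h1 := mean_of_meanV (abs_nonneg C) (fun v _ => (hC (x v)).trans (le_abs_self C)) hρ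
    have h2 := tendsto_nhds_unique h1 (key h.2 f hf)
    rw [← h2]
    exact hρ

end field

end Pool.Agent.R385.TL
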