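import Pool.Agent.R385.TL.EQ

/-!
# Tail exponents and mean values over the rational primes
-/

set_option autoImplicit false

namespace Pool.Agent.R385.TL

open MeasureTheory Filter Topology

variable {S : Finset ℕ} {a : ℕ → ℝ} {C β : ℝ}

/-- nonnegative coefficients -/
theorem tail_nonnegQ (hC : 0 ≤ C) (ha : BdQ S a C) (ha0 : ∀ p : ℕ, p.Prime → p ∉ S → 0 ≤ a p)
    {r : ℝ} (hr : 0 ≤ r) : TailExponent r (cosSeriesQ S a) ↔
      Tendsto (fun x : ℕ => primeSumQ S a x / Real.log (Real.log x)) atTop (𝓝 r) := by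
  have h1 := tail_abs (U := cosSeriesQ S a) (Z := primeSumQ S a) (β := 0) (r := r)
    (fun r hr => by
      rw [zero_add] at hr ⊢
      exact nonneg_iffQ hC ha ha0 hr)
    ⟨0, fun x hx => by
      rw [neg_zero, zero_mul, sub_zero]
      exact primeSumQ_nonneg ha0 x⟩ (by rw [neg_zero]; exact hr)
  rwa [zero_add] at h1

/-- signed coefficients -/
theorem tail_signedQ (ha : BdQ S a β) (hβ : 0 ≤ β) {r : ℝ} (hr : -β ≤ r) :
    TailExponent (β + r) (cosSeriesQ S fun p => β + a p) ↔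
      Tendsto (fun x : ℕ => primeSumQ S a x / Real.log (Real.log x)) atTop (𝓝 r) := by
  refine tail_abs (fun r hr => signed_iffQ ha hβ hr) ?_ hr
  obtain ⟨K, hK0, hK⟩ := mertensQ S
  refine ⟨β * K, fun x hx => ?_⟩
  have h4 : 0 ≤ primeSumQ S (fun p => β + a p) x := primeSumQ_nonneg (fun p hp hS => by
    have h2 := abs_le.1 (ha p hp hS)
    linarith) x
  rw [primeSumQ_lin] at h4
  have h5 := (abs_le.1 (hK x hx)).2
  have h6 : β * primeSumQ S (fun _ => 1) x ≤ β * (Real.log (Real.log x) + K) :=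
    mul_le_mul_of_nonneg_left (by linarith) hβ
  linarith

/-- the summation by parts -/
lemma parts (f : ℕ → ℝ) (x : ℕ) (hx : 1 ≤ x) (h0 : f 0 = 0) :
    ∑ k ∈ Finset.range (x + 1), f k / k = (∑ k ∈ Finset.range (x + 1), f k) / x +
      ∑ k ∈ Finset.Ico 1 x, (∑ j ∈ Finset.range (k + 1), f j) * (1 / (k : ℝ) - 1 / (k + 1 : ℕ)) := by
  induction x, hx using Nat.le_induction with
  | base => simp [Finset.sum_range_succ, h0]
  | succ x hx ih =>
    rw [Finset.sum_range_succ, ih, Finset.sum_Ico_succ_top hx, Finset.sum_range_succ (n := x + 1)]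
    have hx0 : (x : ℝ) ≠ 0 := by
      have : x ≠ 0 := by omega
      exact_mod_cast this
    have hx1 : ((x + 1 : ℕ) : ℝ) ≠ 0 := by positivity
    field_simp
    ring

lemma sum_pb (g : ℕ → ℝ) (x : ℕ) : ∑ p ∈ primesBelow S x, g p =
    ∑ p ∈ Finset.range x, if p.Prime ∧ p ∉ S then g p else 0 := by
  unfold primesBelow
  rw [Finset.sum_filter]

/-- means and logarithmic means -/
lemma log_of_mean (ha : BdQ S a C) {m : ℝ} (h : Tendsto (averageQ S a) atTop (𝓝 m)) :
    Tendsto (fun x : ℕ => primeSumQ S a x / Real.log (Real.log x)) atTop (𝓝 m) := by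
  obtain ⟨K, hK0, hK⟩ := mertensQ S
  -- the sums of `a_p - m`
  set f : ℕ → ℝ := fun p => if p.Prime ∧ p ∉ S then a p - m else 0 with hf
  set e : ℕ → ℝ := fun p => if p.Prime ∧ p ∉ S then 1 else 0 with he
  have hf0 : f 0 = 0 := by simp [hf, Nat.not_prime_zero]
  have he0 : e 0 = 0 := by simp [he, Nat.not_prime_zero]
  set D : ℕ → ℝ := fun x => ∑ k ∈ Finset.range (x + 1), f k with hD
  set N : ℕ → ℝ := fun x => ∑ k ∈ Finset.range (x + 1), e k with hN
  have hNc : ∀ x, N x = (primesBelow S (x + 1)).card := fun x => by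
    simp only [hN, he]
    rw [← sum_pb (fun _ => 1), Finset.sum_const, nsmul_eq_mul, mul_one]
  have hN0 : ∀ x, 0 ≤ N x := fun x => by rw [hNc]; positivity
  have hDe : ∀ x, D x = (averageQ S a x - m) * N x := by
    intro x
    have h1 : D x = (∑ p ∈ primesBelow S (x + 1), a p) - m * N x := by
      simp only [hD, hf]
      rw [← sum_pb (fun p => a p - m), Finset.sum_sub_distrib, Finset.sum_const, nsmul_eq_mul, hNc]
      ring
    rw [h1, hNc]
    unfold averageQ
    by_cases h2 : (primesBelow S (x + 1)).card = 0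
    · rw [Finset.card_eq_zero.1 h2]
      simp
    · have h3 : ((primesBelow S (x + 1)).card : ℝ) ≠ 0 := by exact_mod_cast h2
      field_simp
  have hS1 : ∀ x : ℕ, ∑ k ∈ Finset.range (x + 1), f k / k =
      primeSumQ S a x - m * primeSumQ S (fun _ => 1) x := by
    intro x
    unfold primeSumQ
    rw [Finset.mul_sum, ← Finset.sum_sub_distrib, sum_pb]
    refine Finset.sum_congr rfl fun k _ => ?_
    simp only [hf]
    split_ifs
    · ring
    · simp
  have hS2 : ∀ x : ℕ, ∑ k ∈ Finset.range (x + 1), e k / k = primeSumQ S (fun _ => 1) x := by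
    intro x
    unfold primeSumQ
    rw [sum_pb]
    refine Finset.sum_congr rfl fun k _ => ?_
    simp only [he]
    split_ifs
    · rfl
    · simp
  have hkey : ∀ η : ℝ, 0 < η → ∃ B : ℝ, ∀ x : ℕ, 3 ≤ x →
      |primeSumQ S a x - m * primeSumQ S (fun _ => 1) x| ≤
        B + η * primeSumQ S (fun _ => 1) x := by
    intro η hη
    have h1 := (Metric.tendsto_nhds.1 h) η hη
    obtain ⟨B, hB⟩ := ev_bound (f := fun x : ℕ => |D x| - η * N x) (by
      filter_upwards [h1] with x hx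
      rw [Real.dist_eq] at hx
      rw [hDe, abs_mul, abs_of_nonneg (hN0 x)]
      nlinarith [hN0 x])
    refine ⟨2 * |B|, fun x hx => ?_⟩
    have hx0 : (3 : ℝ) ≤ x := by exact_mod_cast hx
    rw [← hS1, parts f x (by omega) hf0]
    have hw : ∀ k ∈ Finset.Ico 1 x, (0 : ℝ) ≤ 1 / (k : ℝ) - 1 / (k + 1 : ℕ) := by
      intro k hk
      have hk1 : (1 : ℝ) ≤ k := by exact_mod_cast (Finset.mem_Ico.1 hk).1
      rw [sub_nonneg]
      refine one_div_le_one_div_of_le (by linarith) ?_
      push_cast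
      linarith
    have hDb : ∀ k, |D k| ≤ |B| + η * N k := fun k => by
      have := hB k
      have := le_abs_self B
      linarith
    have htel : ∑ k ∈ Finset.Ico 1 x, (1 / (k : ℝ) - 1 / (k + 1 : ℕ)) ≤ 1 := by
      have h3 : ∀ y : ℕ, 1 ≤ y → ∑ k ∈ Finset.Ico 1 y, (1 / (k : ℝ) - 1 / (k + 1 : ℕ)) =
          1 - 1 / (y : ℝ) := by
        intro y hy
        induction y, hy using Nat.le_induction with
        | base => simp
        | succ y hy ih =>
          rw [Finset.sum_Ico_succ_top hy, ih]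
          ring
      rw [h3 x (by omega)]
      have : 0 ≤ 1 / (x : ℝ) := by positivity
      linarith
    have h3 : |(∑ k ∈ Finset.range (x + 1), f k) / (x : ℝ)| ≤ (|B| + η * N x) / x := by
      rw [abs_div, abs_of_nonneg (a := (x : ℝ)) (by linarith)]
      exact div_le_div_of_nonneg_right (hDb x) (by linarith)
    have h4 : |∑ k ∈ Finset.Ico 1 x, (∑ j ∈ Finset.range (k + 1), f j) *
        (1 / (k : ℝ) - 1 / (k + 1 : ℕ))| ≤
        ∑ k ∈ Finset.Ico 1 x, (|B| + η * N k) * (1 / (k : ℝ) - 1 / (k + 1 : ℕ)) := by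
      refine (Finset.abs_sum_le_sum_abs _ _).trans (Finset.sum_le_sum fun k hk => ?_)
      rw [abs_mul, abs_of_nonneg (hw k hk)]
      exact mul_le_mul_of_nonneg_right (hDb k) (hw k hk)
    have h5 : ∑ k ∈ Finset.Ico 1 x, (|B| + η * N k) * (1 / (k : ℝ) - 1 / (k + 1 : ℕ)) =
        |B| * ∑ k ∈ Finset.Ico 1 x, (1 / (k : ℝ) - 1 / (k + 1 : ℕ)) +
        η * ∑ k ∈ Finset.Ico 1 x, N k * (1 / (k : ℝ) - 1 / (k + 1 : ℕ)) := by
      rw [Finset.mul_sum, Finset.mul_sum, ← Finset.sum_add_distrib]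
      refine Finset.sum_congr rfl fun k _ => ?_
      ring
    have h6 := parts e x (by omega) he0
    rw [hS2] at h6
    have h7 : |B| / (x : ℝ) ≤ |B| := div_le_self (abs_nonneg _) (by linarith)
    have h8 : (|B| + η * N x) / x = |B| / x + η * (N x / x) := by ring
    have h9 : |B| * ∑ k ∈ Finset.Ico 1 x, (1 / (k : ℝ) - 1 / (k + 1 : ℕ)) ≤ |B| := by
      have := mul_le_mul_of_nonneg_left htel (abs_nonneg B)
      linarith
    refine (abs_add_le _ _).trans ?_
    have h10 : primeSumQ S (fun _ => 1) x = N x / x +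
        ∑ k ∈ Finset.Ico 1 x, N k * (1 / (k : ℝ) - 1 / (k + 1 : ℕ)) := h6
    rw [h10, mul_add]
    linarith
  have hLL := tendsto_LL
  have hone : Tendsto (fun x : ℕ => primeSumQ S (fun _ => 1) x / Real.log (Real.log x)) atTop
      (𝓝 1) := by
    have h1 : Tendsto (fun x : ℕ => K / Real.log (Real.log x)) atTop (𝓝 0) :=
      hLL.const_div_atTop K
    have h2 : Tendsto (fun x : ℕ => primeSumQ S (fun _ => 1) x / Real.log (Real.log x) - 1) atTop
        (𝓝 0) := by
      refine squeeze_zero_norm' ?_ h1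
      filter_upwards [hLL.eventually_gt_atTop 0, eventually_ge_atTop 3] with x hx hx3
      have e : primeSumQ S (fun _ => 1) x / Real.log (Real.log x) - 1 =
          (primeSumQ S (fun _ => 1) x - Real.log (Real.log x)) / Real.log (Real.log x) := by
        field_simp
      rw [e, norm_div, Real.norm_eq_abs, Real.norm_of_nonneg hx.le]
      exact div_le_div_of_nonneg_right (hK x hx3) hx.le
    have h3 := h2.add_const 1
    rw [zero_add] at h3
    exact h3.congr fun x => by ring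
  have hdiff : Tendsto (fun x : ℕ => (primeSumQ S a x - m * primeSumQ S (fun _ => 1) x) /
      Real.log (Real.log x)) atTop (𝓝 0) := by
    rw [Metric.tendsto_nhds]
    intro η hη
    obtain ⟨B, hB⟩ := hkey (η / 4) (by positivity)
    filter_upwards [hLL.eventually_gt_atTop 0, hLL.eventually_gt_atTop (|B| / (η / 4)),
      hLL.eventually_gt_atTop K, eventually_ge_atTop 3] with x hx1 hx2 hx3 hx4
    rw [div_lt_iff₀ (by positivity)] at hx2
    rw [Real.dist_eq, sub_zero, abs_div, abs_of_pos hx1, div_lt_iff₀ hx1]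
    have h1 := hB x hx4
    have h2 := (abs_le.1 (hK x hx4)).2
    have h3 := le_abs_self B
    nlinarith
  have h1 := hdiff.add (hone.const_mul m)
  rw [zero_add, mul_one] at h1
  refine h1.congr fun x => by ring

lemma primeSumQ_add_const (c : ℝ) (x : ℕ) : primeSumQ S (fun p => a p + c) x =
    primeSumQ S a x + c * primeSumQ S (fun _ => 1) x := by
  have h1 := primeSumQ_lin (S := S) (a := a) (β := c) x
  rw [add_comm, ← h1]
  refine congrArg (fun f => primeSumQ S f x) (funext fun v => add_comm _ _)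

lemma mean_oneQ (S : Finset ℕ) :
    Tendsto (fun x : ℕ => primeSumQ S (fun _ => 1) x / Real.log (Real.log x)) atTop (𝓝 1) := by
  obtain ⟨K, _, hK⟩ := mertensQ S
  have hLL := tendsto_LL
  have h1 : Tendsto (fun x : ℕ => K / Real.log (Real.log x)) atTop (𝓝 0) :=
    hLL.const_div_atTop K
  have h2 : Tendsto (fun x : ℕ => primeSumQ S (fun _ => 1) x / Real.log (Real.log x) - 1) atTop
      (𝓝 0) := by
    refine squeeze_zero_norm' ?_ h1
    filter_upwards [hLL.eventually_gt_atTop 0, eventually_ge_atTop 3] with x hx hx3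
    have e : primeSumQ S (fun _ => 1) x / Real.log (Real.log x) - 1 =
        (primeSumQ S (fun _ => 1) x - Real.log (Real.log x)) / Real.log (Real.log x) := by
      field_simp
    rw [e, norm_div, Real.norm_eq_abs, Real.norm_of_nonneg hx.le]
    exact div_le_div_of_nonneg_right (hK x hx3) hx.le
  have h3 := h2.add_const 1
  rw [zero_add] at h3
  exact h3.congr fun x => by ring

lemma mean_add_constQ {ρ : ℝ} (c : ℝ) :
    Tendsto (fun x : ℕ => primeSumQ S (fun p => a p + c) x / Real.log (Real.log x)) atTop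
      (𝓝 (ρ + c)) ↔
    Tendsto (fun x : ℕ => primeSumQ S a x / Real.log (Real.log x)) atTop (𝓝 ρ) := by
  have h1 : Tendsto (fun x : ℕ => c * (primeSumQ S (fun _ => 1) x / Real.log (Real.log x))) atTop
      (𝓝 c) := by
    have := (mean_oneQ S).const_mul c
    rwa [mul_one] at this
  constructor
  · intro h
    have h2 := h.sub h1
    rw [add_sub_cancel_right] at h2
    refine h2.congr fun x => ?_
    rw [primeSumQ_add_const]
    ring
  · intro h
    refine (h.add h1).congr fun x => ?_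
    rw [primeSumQ_add_const]
    ring

/-- **Equidistribution over the rational primes.** -/
theorem equiQ {Y : Type} (x : ℕ → Y) (𝓕 : Set (Y → ℝ))
    (hbd : ∀ f ∈ 𝓕, ∃ C : ℝ, ∀ y, |f y| ≤ C)
    (hadd : ∀ f ∈ 𝓕, ∀ c : ℝ, (fun y => f y + c) ∈ 𝓕) (I : (Y → ℝ) → ℝ)
    (hI : ∀ f ∈ 𝓕, ∀ c : ℝ, I (fun y => f y + c) = I f + c)
    (hI0 : ∀ f ∈ 𝓕, (∀ y, 0 ≤ f y) → 0 ≤ I f) :
    ((∀ f ∈ 𝓕, Tendsto (fun X : ℕ => primeSumQ S (fun p => f (x p)) X / Real.log (Real.log X))
        atTop (𝓝 (I f))) ↔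
      ∀ f ∈ 𝓕, (∀ y, 0 ≤ f y) → TailExponent (I f) (cosSeriesQ S fun p => f (x p))) ∧
    ((∀ f ∈ 𝓕, Tendsto (averageQ S fun p => f (x p)) atTop (𝓝 (I f))) ↔
      (∀ f ∈ 𝓕, ∃ ρ : ℝ, Tendsto (averageQ S fun p => f (x p)) atTop (𝓝 ρ)) ∧
      ∀ f ∈ 𝓕, (∀ y, 0 ≤ f y) → TailExponent (I f) (cosSeriesQ S fun p => f (x p))) := by
  have hT : ∀ f ∈ 𝓕, (∀ y, 0 ≤ f y) → (TailExponent (I f) (cosSeriesQ S fun p => f (x p)) ↔
      Tendsto (fun X : ℕ => primeSumQ S (fun p => f (x p)) X / Real.log (Real.log X))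
        atTop (𝓝 (I f))) := by
    intro f hf hf0
    obtain ⟨C, hC⟩ := hbd f hf
    exact tail_nonnegQ (abs_nonneg C) (fun p _ _ => (hC (x p)).trans (le_abs_self C))
      (fun p _ _ => hf0 (x p)) (hI0 f hf hf0)
  have key : (∀ f ∈ 𝓕, (∀ y, 0 ≤ f y) → TailExponent (I f) (cosSeriesQ S fun p => f (x p))) →
      ∀ f ∈ 𝓕, Tendsto (fun X : ℕ => primeSumQ S (fun p => f (x p)) X / Real.log (Real.log X))
        atTop (𝓝 (I f)) := by
    intro h f hf
    obtain ⟨C, hC⟩ := hbd f hf
    have h0 : ∀ y, 0 ≤ f y + C := fun y => by linarith [(abs_le.1 (hC y)).1]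
    have h1 := (hT _ (hadd f hf C) h0).1 (h _ (hadd f hf C) h0)
    rw [hI f hf C] at h1
    exact (mean_add_constQ C).1 h1
  refine ⟨⟨fun h f hf hf0 => (hT f hf hf0).2 (h f hf), key⟩, fun h => ⟨fun f hf => ⟨_, h f hf⟩,
    fun f hf hf0 => (hT f hf hf0).2 ?_⟩, fun h f hf => ?_⟩
  · obtain ⟨C, hC⟩ := hbd f hf
    exact log_of_mean (fun p _ _ => hC (x p)) (h f hf)
  · obtain ⟨ρ, hρ⟩ := h.1 f hf
    obtain ⟨C, hC⟩ := hbd f hf
    have h1 := log_of_mean (fun p _ _ => hC (x p)) hρ
    have h2 := tendsto_nhds_unique h1 (key h.2 f hf)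
    rw [← h2]
    exact hρ

end Pool.Agent.R385.TL
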