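import Pool.Agent.R385.TL.LowGen

/-!
# The lower bound
-/

set_option autoImplicit false

namespace Pool.Agent.R385.TL

open MeasureTheory Filter Topology
open Pool.Agent.TH339.MP
open Pool.Agent.R409.ED
open Pool.Agent.R385.JD
open HB (lin continuous_lin)
open scoped ENNReal

variable {b : PP → ℂ} {M : ℝ}

lemma circ (φ : UnitAddCircle) : ‖(fourier 1 φ : ℂ) - 1‖ ≤ 2 * Real.pi * ‖φ‖ := by
  induction φ using QuotientAddGroup.induction_on with
  | H x =>
    have h1 : (fourier 1 (x : UnitAddCircle) : ℂ) = Complex.exp (2 * Real.pi * Complex.I * x) := by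
      rw [fourier_coe_apply]
      congr 1
      push_cast
      ring
    have h2 : Complex.exp (2 * Real.pi * Complex.I * x) =
        Complex.exp (Complex.I * ((2 * Real.pi * (x - round x) : ℝ) : ℂ)) := by
      rw [Complex.exp_eq_exp_iff_exists_int]
      refine ⟨round x, ?_⟩
      push_cast
      ring
    have h3 : ‖(x : UnitAddCircle)‖ = |x - round x| := UnitAddCircle.norm_eq
    erw [h1, h3]
    rw [h2]
    refine (Real.norm_exp_I_mul_ofReal_sub_one_le).trans ?_
    rw [Real.norm_eq_abs, abs_mul, abs_of_pos (by positivity : 0 < 2 * Real.pi)]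

/-- the bump on the circle -/
noncomputable def gb (η : ℝ) (φ : UnitAddCircle) : ℝ := max 0 (1 - ‖φ‖ / η)

lemma continuous_gb (η : ℝ) : Continuous (gb η) := by
  unfold gb
  fun_prop

lemma gb_nonneg (η : ℝ) (φ : UnitAddCircle) : 0 ≤ gb η φ := le_max_left _ _

lemma gb_le {η : ℝ} (hη : 0 < η) (φ : UnitAddCircle) : gb η φ ≤ 1 :=
  max_le zero_le_one (by
    have : 0 ≤ ‖φ‖ / η := by positivity
    linarith)

lemma of_gb {η : ℝ} (hη : 0 < η) {φ : UnitAddCircle} (h : gb η φ ≠ 0) : ‖φ‖ ≤ η := by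
  by_contra hn
  push Not at hn
  refine h (max_eq_left ?_)
  have : 1 ≤ ‖φ‖ / η := (one_le_div hη).2 hn.le
  linarith

lemma gb_integral {η : ℝ} (hη : 0 < η) (hη1 : η ≤ 1) (α : UnitAddCircle) :
    η / 2 ≤ ∫ θ : UnitAddCircle, gb η (θ - α) := by
  set B : Set UnitAddCircle := Metric.closedBall α (η / 2) with hB
  have hBm : MeasurableSet B := Metric.isClosed_closedBall.measurableSet
  have h1 : ∀ θ, B.indicator (fun _ => (1 / 2 : ℝ)) θ ≤ gb η (θ - α) := by
    intro θ
    by_cases h : θ ∈ B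
    · rw [Set.indicator_of_mem h]
      refine le_trans ?_ (le_max_right _ _)
      have h2 : ‖θ - α‖ ≤ η / 2 := by
        rw [← dist_eq_norm]
        exact h
      have h3 : ‖θ - α‖ / η ≤ 1 / 2 := by
        rw [div_le_iff₀ hη]
        linarith
      linarith
    · rw [Set.indicator_of_notMem h]
      exact gb_nonneg _ _
  have hvol : (volume : Measure UnitAddCircle) B = ENNReal.ofReal η := by
    rw [hB, AddCircle.volume_closedBall]
    congr 1
    rw [show 2 * (η / 2) = η by ring, min_eq_right hη1]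
  calc η / 2 = ∫ θ, B.indicator (fun _ => (1 / 2 : ℝ)) θ := by
        rw [integral_indicator_const _ hBm]
        unfold Measure.real
        rw [hvol, ENNReal.toReal_ofReal hη.le, smul_eq_mul]
        ring
    _ ≤ _ := by
        refine integral_mono ?_ ?_ h1
        · exact (integrable_const _).indicator hBm
        · exact integrable_circle ((continuous_gb η).comp (continuous_id.sub continuous_const))

lemma card_PY (P : ℕ) : Fintype.card (PY P) ≤ P := by
  classical
  have h0 : Function.Injective fun p : PY P => ((p.1 : Nat.Primes) : ℕ) :=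
    fun a c h => Subtype.ext (Subtype.ext h)
  have h1 := Finset.card_image_of_injective (Finset.univ : Finset (PY P)) h0
  rw [← Finset.card_univ, ← h1]
  calc _ ≤ (Finset.Ioc 0 P).card := by
        refine Finset.card_le_card fun n hn => ?_
        obtain ⟨q, _, rfl⟩ := Finset.mem_image.1 hn
        exact Finset.mem_Ioc.2 ⟨q.1.2.pos, q.2⟩
    _ = P := by simp

lemma AS_le (hb : ∀ x, ‖b x‖ ≤ M / (x.2 + 1 : ℕ)) (P : ℕ) : AS b P ≤ M / 2 * P := by
  have hM := M_nonneg hb
  unfold AS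
  calc ∑ p : PY P, ‖b (p.1, 0)‖ / ((p.1 : ℕ) : ℝ) ≤ ∑ _p : PY P, M / 2 := by
        refine Finset.sum_le_sum fun p _ => ?_
        have h2 := two_le_prime p.1
        exact div_le_div₀ hM (norm_b_le hb _) (by norm_num) h2
    _ = Fintype.card (PY P) * (M / 2) := by
        rw [Finset.sum_const, Finset.card_univ, nsmul_eq_mul]
    _ ≤ P * (M / 2) := by
        gcongr
        exact card_PY P
    _ = _ := by ring

/-- the aligned angles -/
lemma exists_align (z : ℂ) : ∃ α : UnitAddCircle, (z * (fourier 1 α : ℂ)) = (‖z‖ : ℂ) := by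
  by_cases hz : z = 0
  · exact ⟨0, by simp [hz]⟩
  · have hn : (‖z‖ : ℂ) ≠ 0 := by
      simp [hz]
    obtain ⟨α, hα⟩ := exists_angle ((‖z‖ : ℂ) / z) (by
      rw [norm_div, Complex.norm_real, norm_norm]
      exact div_self (norm_ne_zero_iff.2 hz))
    exact ⟨α, by rw [hα]; field_simp⟩

lemma local_low (hb : ∀ x, ‖b x‖ ≤ M / (x.2 + 1 : ℕ)) {u : ℂ} (hu : ‖u‖ = 1) (p : Nat.Primes)
    {α θ : UnitAddCircle} (hα : (u * (b (p, 0) * (wt 1 (p, 0) : ℂ))) * (fourier 1 α : ℂ) =
      (‖u * (b (p, 0) * (wt 1 (p, 0) : ℂ))‖ : ℂ)) {η : ℝ} (hθ : ‖θ - α‖ ≤ η) :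
    ‖b (p, 0)‖ / (p : ℕ) - 2 * Real.pi * η * (‖b (p, 0)‖ / (p : ℕ)) -
      2 * M * ((p : ℕ) : ℝ) ^ (-2 : ℝ) ≤ (u * hl b p θ).re := by
  set z : ℂ := u * (b (p, 0) * (wt 1 (p, 0) : ℂ)) with hz
  have hzn : ‖z‖ = ‖b (p, 0)‖ / (p : ℕ) := by
    rw [hz, norm_mul, norm_mul, hu, one_mul, Complex.norm_real, Real.norm_of_nonneg (wt_nonneg 1 _),
      wt_zero, div_eq_mul_inv]
  have h1 := hl_first hb p θ
  have h2 : u * hl b p θ = (‖z‖ : ℂ) + z * (fourier 1 α : ℂ) * ((fourier 1 (θ - α) : ℂ) - 1) +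
      u * (hl b p θ - (fourier 1 θ : ℂ) * (b (p, 0) * (wt 1 (p, 0) : ℂ))) := by
    have h3 : (fourier 1 θ : ℂ) = (fourier 1 α : ℂ) * (fourier 1 (θ - α) : ℂ) := by
      have h4 := fourier_add' (T := 1) (m := 1) (n := 1) (x := θ)
      have h5 : (fourier 1 (α + (θ - α)) : ℂ) = (fourier 1 α : ℂ) * (fourier 1 (θ - α) : ℂ) := by
        simp only [fourier_one]
        rw [AddCircle.toCircle_add]
        push_cast
        rfl
      rwa [add_sub_cancel] at h5
    rw [mul_sub, h3, ← hα, hz]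
    ring
  rw [h2, Complex.add_re, Complex.add_re, Complex.ofReal_re]
  have hα1 : ‖(fourier 1 α : ℂ)‖ = 1 := by
    rw [fourier_apply]
    exact Circle.norm_coe _
  have h3 : -(2 * Real.pi * η * ‖z‖) ≤
      (z * (fourier 1 α : ℂ) * ((fourier 1 (θ - α) : ℂ) - 1)).re := by
    have h4 := Complex.abs_re_le_norm (z * (fourier 1 α : ℂ) * ((fourier 1 (θ - α) : ℂ) - 1))
    rw [norm_mul, norm_mul, hα1, mul_one] at h4
    have h5 : ‖(fourier 1 (θ - α) : ℂ) - 1‖ ≤ 2 * Real.pi * η :=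
      (circ _).trans (by gcongr)
    have h6 : ‖z‖ * ‖(fourier 1 (θ - α) : ℂ) - 1‖ ≤ ‖z‖ * (2 * Real.pi * η) := by gcongr
    have h7 := (abs_le.1 (h4.trans h6)).1
    linarith
  have h4 : -(2 * M * ((p : ℕ) : ℝ) ^ (-2 : ℝ)) ≤
      (u * (hl b p θ - (fourier 1 θ : ℂ) * (b (p, 0) * (wt 1 (p, 0) : ℂ)))).re := by
    have h5 := Complex.abs_re_le_norm
      (u * (hl b p θ - (fourier 1 θ : ℂ) * (b (p, 0) * (wt 1 (p, 0) : ℂ))))
    rw [norm_mul, hu, one_mul] at h5
    exact (abs_le.1 (h5.trans h1)).1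
  rw [hzn] at h3 ⊢
  linarith

/-- the window of the aligned angles -/
theorem align_window (hb : ∀ x, ‖b x‖ ≤ M / (x.2 + 1 : ℕ)) {u : ℂ} (hu : ‖u‖ = 1) {P : ℕ}
    (hP : 2 ≤ P) : ∃ G : UnitAddTorus (PY P) → ℝ, Continuous G ∧ (∀ θ, 0 ≤ G θ) ∧ (∀ θ, G θ ≤ 1) ∧
      (1 / (2 * (P : ℝ))) ^ P ≤ ∫ θ, G θ ∧
      ∀ θ, G θ ≠ 0 → AS b P - 4 * M - 2 * M * S2 ≤ (u * SY b P θ).re := by
  classical
  have hM := M_nonneg hb
  have hP0 : (2 : ℝ) ≤ P := by exact_mod_cast hP
  set η : ℝ := 1 / (P : ℝ) with hη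
  have hη0 : 0 < η := by positivity
  have hη1 : η ≤ 1 := by
    rw [hη, div_le_one (by linarith)]
    linarith
  choose α hα using fun p : PY P => exists_align (u * (b (p.1, 0) * (wt 1 (p.1, 0) : ℂ)))
  refine ⟨fun θ => ∏ p, gb η (θ p - α p), ?_, fun θ => Finset.prod_nonneg fun p _ => gb_nonneg _ _,
    fun θ => Finset.prod_le_one (fun p _ => gb_nonneg _ _) fun p _ => gb_le hη0 _, ?_, ?_⟩
  · exact continuous_finsetProd _ fun p _ =>
      (continuous_gb η).comp ((continuous_apply p).sub continuous_const)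
  · have h1 : ∫ θ : UnitAddTorus (PY P), ∏ p, gb η (θ p - α p) =
        ∏ p, ∫ θ : UnitAddCircle, gb η (θ - α p) :=
      integral_fintype_prod_volume_eq_prod (fun (p : PY P) (θ : UnitAddCircle) => gb η (θ - α p))
    rw [h1]
    have h2 : (1 / (2 * (P : ℝ))) = η / 2 := by
      rw [hη]
      field_simp
    rw [h2]
    calc (η / 2) ^ P ≤ (η / 2) ^ Fintype.card (PY P) :=
          pow_le_pow_of_le_one (by positivity) (by linarith) (card_PY P)
      _ = ∏ _p : PY P, η / 2 := by rw [Finset.prod_const, Finset.card_univ]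
      _ ≤ _ := Finset.prod_le_prod (fun _ _ => by positivity) fun p _ =>
          gb_integral hη0 hη1 (α p)
  · intro θ hθ
    have h1 : ∀ p : PY P, ‖θ p - α p‖ ≤ η := fun p =>
      of_gb hη0 fun h => hθ (Finset.prod_eq_zero (Finset.mem_univ p) h)
    unfold SY
    rw [Finset.mul_sum, Complex.re_sum]
    have h2 := Finset.sum_le_sum (s := Finset.univ) fun (p : PY P) _ =>
      local_low hb hu p.1 (hα p) (h1 p)
    refine le_trans ?_ h2
    rw [Finset.sum_sub_distrib, Finset.sum_sub_distrib, ← Finset.mul_sum, ← Finset.mul_sum]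
    have h3 : ∑ p : PY P, ((p.1 : ℕ) : ℝ) ^ (-2 : ℝ) ≤ S2 := by
      have h5 := Finset.sum_image (s := (Finset.univ : Finset (PY P)))
        (f := fun p : Nat.Primes => ((p : ℕ) : ℝ) ^ (-2 : ℝ)) (g := fun p : PY P => p.1)
        (fun a _ c _ h => Subtype.ext h)
      rw [← h5]
      exact summable_sq.sum_le_tsum _ fun _ _ => by positivity
    have h4 : 2 * Real.pi * η * AS b P ≤ 4 * M := by
      have h5 := AS_le hb P
      have h6 : η * AS b P ≤ M / 2 := by
        calc η * AS b P ≤ η * (M / 2 * P) := by gcongr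
          _ = M / 2 := by
              rw [hη]
              field_simp
      have h7 : 0 ≤ 2 * Real.pi := by positivity
      calc 2 * Real.pi * η * AS b P = 2 * Real.pi * (η * AS b P) := by ring
        _ ≤ 2 * Real.pi * (M / 2) := by gcongr
        _ ≤ 4 * M := by nlinarith [Real.pi_lt_four]
    have h5 : 2 * M * ∑ p : PY P, ((p.1 : ℕ) : ℝ) ^ (-2 : ℝ) ≤ 2 * M * S2 := by gcongr
    have h6 : AS b P = ∑ p : PY P, ‖b (p.1, 0)‖ / ((p.1 : ℕ) : ℝ) := rfl
    rw [← h6]
    linarith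

/-- **Large boundary values do occur, with doubly exponentially small frequency.** -/
theorem lower_tail (hb : ∀ x, ‖b x‖ ≤ M / (x.2 + 1 : ℕ)) {κ C1 : ℝ} (hκ : 0 < κ)
    (hA : ∀ P : ℕ, 3 ≤ P → κ * Real.log (Real.log P) - C1 ≤ AS b P) :
    ∃ c : ℝ, 0 < c ∧ ∃ V0 : ℝ, ∀ V : ℝ, V0 ≤ V → ∀ u : ℂ, ‖u‖ = 1 → ∃ T0 : ℝ, ∀ a T : ℝ, T0 ≤ T →
      ENNReal.ofReal (Real.exp (-Real.exp (c * Real.exp (V / κ))) * T) ≤
        volume {t ∈ Set.Icc a (a + T) | V ≤ (u * bl b t).re} := by
  have hM := M_nonneg hb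
  have hS := S2_nonneg
  set K : ℝ := |C1| + 4 * M + 2 * M * S2 + 1 with hK
  have hK0 : 0 ≤ K := by positivity
  set D : ℝ := 128 * (64800 * M ^ 2) + 1 with hD
  have hD1 : 1 ≤ D := by
    rw [hD]
    have : 0 ≤ 128 * (64800 * M ^ 2) := by positivity
    linarith
  refine ⟨10 * Real.exp (K / κ), by positivity, κ * Real.log D, fun V hV u hu => ?_⟩
  set y : ℝ := Real.exp ((V + K) / κ) with hy
  have hyD : D ≤ y := by
    rw [hy]
    calc D = Real.exp (Real.log D) := (Real.exp_log (by linarith)).symm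
      _ ≤ _ := by
          refine Real.exp_le_exp.2 ?_
          rw [le_div_iff₀ hκ]
          linarith
  have hy1 : 1 ≤ y := hD1.trans hyD
  have hlogy : κ * Real.log y = V + K := by
    rw [hy, Real.log_exp]
    field_simp
  set P : ℕ := ⌈Real.exp y⌉₊ + 1 with hP
  have hPl : Real.exp y ≤ P := by
    have h1 := Nat.le_ceil (Real.exp y)
    rw [hP]
    push_cast
    linarith
  have hPu : (P : ℝ) ≤ 3 * Real.exp y := by
    have h1 := (Nat.ceil_lt_add_one (Real.exp_pos y).le).le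
    have h2 : 1 ≤ Real.exp y := Real.one_le_exp (by linarith)
    rw [hP]
    push_cast
    linarith
  have hey : 2 < Real.exp y := by
    have h1 := Real.add_one_lt_exp (show y ≠ 0 by linarith)
    linarith
  have hP3 : 3 ≤ P := by
    have h1 : 2 < ⌈Real.exp y⌉₊ := Nat.lt_ceil.2 (by exact_mod_cast hey)
    omega
  have hP0 : (3 : ℝ) ≤ P := by exact_mod_cast hP3
  have hlP : y ≤ Real.log P := by
    have := Real.log_le_log (Real.exp_pos y) hPl
    rwa [Real.log_exp] at this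
  have hllP : Real.log y ≤ Real.log (Real.log P) := Real.log_le_log (by linarith) hlP
  have hAP := hA P hP3
  have hAV : V + 1 ≤ AS b P - 4 * M - 2 * M * S2 := by
    have h1 : κ * Real.log y ≤ κ * Real.log (Real.log P) := by gcongr
    rw [hlogy] at h1
    have h2 := le_abs_self C1
    have h3 : K = |C1| + 4 * M + 2 * M * S2 + 1 := hK
    linarith
  obtain ⟨G, hGc, hG0, hG1, hGm, hGs⟩ := align_window hb hu (show 2 ≤ P by omega)
  have hm0 : 0 < ∫ θ, G θ := lt_of_lt_of_le (by positivity) hGm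
  obtain ⟨T0, hT0⟩ := window hb (show 2 ≤ P by omega) (hyD.trans hlP) hGc hG0 hG1 rfl hm0
  refine ⟨max T0 0, fun a T hT => ?_⟩
  have hT' : 0 ≤ T := (le_max_right _ _).trans hT
  refine le_trans (ENNReal.ofReal_le_ofReal ?_) ((hT0 a T ((le_max_left _ _).trans hT)).trans
    (measure_mono fun t ht => ⟨ht.1, ?_⟩))
  · refine mul_le_mul_of_nonneg_right ?_ hT'
    have h1 : Real.exp (-((P : ℝ) * (2 * P))) ≤ (1 / (2 * (P : ℝ))) ^ P := by
      have h2 : Real.exp (-(2 * (P : ℝ))) ≤ 1 / (2 * (P : ℝ)) := by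
        rw [Real.exp_neg, one_div]
        refine inv_anti₀ (by positivity) ?_
        have := Real.add_one_le_exp (2 * (P : ℝ))
        linarith
      calc Real.exp (-((P : ℝ) * (2 * P))) = Real.exp (-(2 * (P : ℝ))) ^ P := by
            rw [← Real.exp_nat_mul]
            congr 1
            ring
        _ ≤ _ := by gcongr
    have h3 : Real.exp (-Real.exp (10 * Real.exp (K / κ) * Real.exp (V / κ))) ≤
        Real.exp (-((P : ℝ) * (2 * P)) - 3) := by
      refine Real.exp_le_exp.2 ?_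
      have h4 : 10 * Real.exp (K / κ) * Real.exp (V / κ) = 10 * y := by
        rw [hy, mul_assoc, ← Real.exp_add]
        congr 2
        ring
      rw [h4]
      have h5 : (P : ℝ) * (2 * P) + 3 ≤ Real.exp (10 * y) := by
        have h6 : (P : ℝ) * (2 * P) + 3 ≤ 21 * Real.exp y ^ 2 := by nlinarith
        have h7 : (21 : ℝ) ≤ Real.exp y ^ 8 := by
          calc (21 : ℝ) ≤ 2 ^ 8 := by norm_num
            _ ≤ _ := by gcongr
        have h8 : Real.exp (10 * y) = Real.exp y ^ 8 * Real.exp y ^ 2 := by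
          rw [← pow_add, ← Real.exp_nat_mul]
          norm_num
        rw [h8]
        refine h6.trans ?_
        gcongr
      linarith
    refine h3.trans ?_
    rw [sub_eq_add_neg, Real.exp_add]
    have h9 : Real.exp (-3) ≤ 1 / 8 := by
      rw [Real.exp_neg, one_div]
      refine inv_anti₀ (by norm_num) ?_
      have h10 : (2 : ℝ) ≤ Real.exp 1 := by
        have := Real.add_one_le_exp (1 : ℝ)
        linarith
      calc (8 : ℝ) = 2 ^ 3 := by norm_num
        _ ≤ Real.exp 1 ^ 3 := by gcongr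
        _ = Real.exp 3 := by
            rw [← Real.exp_nat_mul]
            norm_num
    calc _ ≤ (∫ θ, G θ) * (1 / 8) :=
          mul_le_mul (h1.trans hGm) h9 (Real.exp_pos _).le hm0.le
      _ = _ := by ring
  · have h1 := hGs _ ht.2.1
    rw [SY_lin hb] at h1
    have h2 : |(u * (bl b t - QY b P t)).re| ≤ 1 := by
      refine (Complex.abs_re_le_norm _).trans ?_
      rw [norm_mul, hu, one_mul]
      exact ht.2.2.le
    have h3 := (abs_le.1 h2).1
    rw [mul_sub, Complex.sub_re] at h3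
    linarith

end Pool.Agent.R385.TL
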