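import Pool.Agent.R385.TL.UpTail
import Pool.Agent.R385.TL.LoTail

/-!
# The frequency of large boundary values and the sums of the absolute values: equivalences
-/

set_option autoImplicit false

namespace Pool.Agent.R385.TL

open MeasureTheory Filter Topology
open Pool.Agent.TH339.MP
open Pool.Agent.R409.ED
open Pool.Agent.R385.JD
open HB (lin continuous_lin)
open scoped ENNReal

variable {b : PP → ℂ} {M : ℝ}

/-- In all long intervals the set where `f ≥ V` has a proportion at most `exp (-exp (c exp (V / κ)))`,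
for some `c > 0` and all large `V`. -/
def RareF (κ : ℝ) (f : ℝ → ℝ) : Prop :=
  ∃ c : ℝ, 0 < c ∧ ∃ V0 : ℝ, ∀ V : ℝ, V0 ≤ V → ∃ T0 : ℝ, ∀ a T : ℝ, T0 ≤ T →
    volume {t ∈ Set.Icc a (a + T) | V ≤ f t} ≤
      ENNReal.ofReal (Real.exp (-Real.exp (c * Real.exp (V / κ))) * T)

/-- In all long intervals the set where `f ≥ V` has a proportion at least
`exp (-exp (c exp (V / κ)))`, for some `c > 0` and all large `V`. -/
def FreqF (κ : ℝ) (f : ℝ → ℝ) : Prop :=
  ∃ c : ℝ, 0 < c ∧ ∃ V0 : ℝ, ∀ V : ℝ, V0 ≤ V → ∃ T0 : ℝ, ∀ a T : ℝ, T0 ≤ T →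
    ENNReal.ofReal (Real.exp (-Real.exp (c * Real.exp (V / κ))) * T) ≤
      volume {t ∈ Set.Icc a (a + T) | V ≤ f t}

/-- the lower bound at a given cut -/
theorem low_at (hb : ∀ x, ‖b x‖ ≤ M / (x.2 + 1 : ℕ)) {P : ℕ} (hP : 3 ≤ P)
    (hlP : 128 * (64800 * M ^ 2) + 1 ≤ Real.log P) {V : ℝ}
    (hAV : V + 1 ≤ AS b P - 4 * M - 2 * M * S2) {u : ℂ} (hu : ‖u‖ = 1) :
    ∃ T0 : ℝ, ∀ a T : ℝ, T0 ≤ T →
      ENNReal.ofReal (Real.exp (-(3 * (P : ℝ) ^ 2)) * T) ≤
        volume {t ∈ Set.Icc a (a + T) | V ≤ (u * bl b t).re} := by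
  have hP0 : (3 : ℝ) ≤ P := by exact_mod_cast hP
  obtain ⟨G, hGc, hG0, hG1, hGm, hGs⟩ := align_window hb hu (show 2 ≤ P by omega)
  have hm0 : 0 < ∫ θ, G θ := lt_of_lt_of_le (by positivity) hGm
  obtain ⟨T0, hT0⟩ := window hb (show 2 ≤ P by omega) hlP hGc hG0 hG1 rfl hm0
  refine ⟨max T0 0, fun a T hT => ?_⟩
  have hT' : 0 ≤ T := (le_max_right _ _).trans hT
  refine le_trans (ENNReal.ofReal_le_ofReal ?_) ((hT0 a T ((le_max_left _ _).trans hT)).trans
    (measure_mono fun t ht => ⟨ht.1, ?_⟩))
  · refine mul_le_mul_of_nonneg_right ?_ hT'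
    have h1 : Real.exp (-((P : ℝ) * (2 * P))) ≤ (1 / (2 * (P : ℝ))) ^ P := by
      have h2 : Real.exp (-(2 * (P : ℝ))) ≤ 1 / (2 * (P : ℝ)) := by
        rw [Real.exp_neg, one_div]
        refine inv_anti₀ (by positivity) ?_
        have := Real.add_one_le_exp (2 * (P : ℝ))
        linarith
      calc Real.exp (-((P : ℝ) * (2 * P))) = Real.exp (-(2 * (P : ℝ))) ^ P := by
            rw [← Real.exp_nat_mul]
            congr 1
            ring
        _ ≤ _ := by gcongr
    have h3 : Real.exp (-(3 * (P : ℝ) ^ 2)) ≤ Real.exp (-((P : ℝ) * (2 * P)) + -3) := by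
      refine Real.exp_le_exp.2 ?_
      nlinarith
    refine h3.trans ?_
    rw [Real.exp_add]
    have h9 : Real.exp (-3) ≤ 1 / 8 := by
      rw [Real.exp_neg, one_div]
      refine inv_anti₀ (by norm_num) ?_
      have h10 : (2 : ℝ) ≤ Real.exp 1 := by
        have := Real.add_one_le_exp (1 : ℝ)
        linarith
      calc (8 : ℝ) = 2 ^ 3 := by norm_num
        _ ≤ Real.exp 1 ^ 3 := by gcongr
        _ = Real.exp 3 := by
            rw [← Real.exp_nat_mul]
            norm_num
    calc _ ≤ (∫ θ, G θ) * (1 / 8) :=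
          mul_le_mul (h1.trans hGm) h9 (Real.exp_pos _).le hm0.le
      _ = _ := by ring
  · have h1 := hGs _ ht.2.1
    rw [SY_lin hb] at h1
    have h2 : |(u * (bl b t - QY b P t)).re| ≤ 1 := by
      refine (Complex.abs_re_le_norm _).trans ?_
      rw [norm_mul, hu, one_mul]
      exact ht.2.2.le
    have h3 := (abs_le.1 h2).1
    rw [mul_sub, Complex.sub_re] at h3
    linarith

/-- comparison of two bounds for the same sets -/
lemma compare {x y : ℝ} {A : ℝ → ℝ → Set ℝ} {T1 T2 : ℝ}
    (h1 : ∀ a T : ℝ, T1 ≤ T → ENNReal.ofReal (Real.exp x * T) ≤ volume (A a T))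
    (h2 : ∀ a T : ℝ, T2 ≤ T → volume (A a T) ≤ ENNReal.ofReal (y * T)) (hy : 0 ≤ y) :
    Real.exp x ≤ y := by
  set T := max 1 (max T1 T2) with hT
  have hT1 : 0 < T := lt_of_lt_of_le one_pos (le_max_left _ _)
  have h3 := (h1 0 T ((le_max_left _ _).trans (le_max_right _ _))).trans
    (h2 0 T ((le_max_right _ _).trans (le_max_right _ _)))
  rw [ENNReal.ofReal_le_ofReal_iff (by positivity)] at h3
  exact le_of_mul_le_mul_right h3 hT1

lemma one_lt_loglog {P : ℕ} (hP : 3 ≤ P) : 1 < Real.log P := by
  have hP3 : (3 : ℝ) ≤ P := by exact_mod_cast hP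
  have h3 : Real.exp 1 < P := lt_of_lt_of_le (by linarith [Real.exp_one_lt_d9]) hP3
  have := Real.log_lt_log (Real.exp_pos 1) h3
  rwa [Real.log_exp] at this

lemma AS_mono (b : PP → ℂ) {P Q : ℕ} (h : P ≤ Q) : AS b P ≤ AS b Q := by
  have h1 := sum_small (f := fun p : Nat.Primes => ‖b (p, 0)‖ / ((p : ℕ) : ℝ))
    (fun p => by positivity) Q P
  refine le_trans (le_of_eq ?_) h1
  unfold AS
  refine Finset.sum_congr rfl fun p _ => ?_
  rw [if_pos (p.2.trans h)]

/-- **Upper bounds.** -/
theorem rare_iff (hb : ∀ x, ‖b x‖ ≤ M / (x.2 + 1 : ℕ)) {κ : ℝ} (hκ : 0 < κ) {u : ℂ}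
    (hu : ‖u‖ = 1) : RareF κ (fun t => (u * bl b t).re) ↔
      ∃ C : ℝ, ∀ P : ℕ, 3 ≤ P → AS b P ≤ κ * Real.log (Real.log P) + C := by
  have hM := M_nonneg hb
  have hS := S2_nonneg
  constructor
  · rintro ⟨c, hc, V0, h⟩
    obtain ⟨P0, hP0⟩ := eventually_atTop.1 ((Real.tendsto_log_atTop.comp
      tendsto_natCast_atTop_atTop).eventually_ge_atTop (128 * (64800 * M ^ 2) + 1))
    set K : ℝ := 4 * M + 2 * M * S2 + 1 with hK
    set Q : ℕ := max P0 3 with hQ
    refine ⟨max (AS b Q + κ * |Real.log (Real.log 3)|)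
      (max (V0 + K + κ * |Real.log (Real.log 3)|) (κ * Real.log (9 / c) + K)), fun P hP => ?_⟩
    have hlP1 := one_lt_loglog hP
    have hP3 : (3 : ℝ) ≤ P := by exact_mod_cast hP
    have hll : -|Real.log (Real.log 3)| ≤ Real.log (Real.log P) := by
      have h1 : Real.log (Real.log 3) ≤ Real.log (Real.log P) := by
        refine Real.log_le_log (Real.log_pos (by norm_num)) (Real.log_le_log (by norm_num) hP3)
      exact (neg_abs_le _).trans h1
    have hκl : -(κ * |Real.log (Real.log 3)|) ≤ κ * Real.log (Real.log P) := by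
      have := mul_le_mul_of_nonneg_left hll hκ.le
      linarith
    rcases le_total P Q with hPQ | hPQ
    · have h1 := AS_mono b hPQ
      have h2 := le_max_left (AS b Q + κ * |Real.log (Real.log 3)|)
        (max (V0 + K + κ * |Real.log (Real.log 3)|) (κ * Real.log (9 / c) + K))
      linarith
    · have hlog : 128 * (64800 * M ^ 2) + 1 ≤ Real.log P := hP0 P ((le_max_left _ _).trans hPQ)
      set V : ℝ := AS b P - K with hV
      have hm1 := (le_max_left (V0 + K + κ * |Real.log (Real.log 3)|)
        (κ * Real.log (9 / c) + K)).trans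
        (le_max_right (AS b Q + κ * |Real.log (Real.log 3)|) _)
      have hm2 := (le_max_right (V0 + K + κ * |Real.log (Real.log 3)|)
        (κ * Real.log (9 / c) + K)).trans
        (le_max_right (AS b Q + κ * |Real.log (Real.log 3)|) _)
      rcases le_total V0 V with hV0 | hV0
      · obtain ⟨T1, hT1⟩ := low_at hb hP hlog (V := V) (by rw [hV, hK]; linarith) hu
        obtain ⟨T2, hT2⟩ := h V hV0
        have h3 := compare hT1 hT2 (Real.exp_pos _).le
        rw [Real.exp_le_exp] at h3
        have h4 : Real.exp (c * Real.exp (V / κ)) ≤ Real.exp (Real.log 3 + 2 * Real.log P) := by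
          have e : Real.exp (Real.log 3 + 2 * Real.log P) = 3 * (P : ℝ) ^ 2 := by
            rw [Real.exp_add, Real.exp_log (by norm_num), two_mul, Real.exp_add,
              Real.exp_log (by linarith)]
            ring
          rw [e]
          linarith
        rw [Real.exp_le_exp] at h4
        have h5 : Real.exp (V / κ) ≤ 9 / c * Real.log P := by
          rw [div_mul_eq_mul_div, le_div_iff₀ hc]
          have : Real.log 3 ≤ 2 := by
            have := Real.log_le_sub_one_of_pos (show (0 : ℝ) < 3 by norm_num)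
            linarith
          nlinarith
        have h6 : V / κ ≤ Real.log (9 / c) + Real.log (Real.log P) := by
          have h7 := Real.log_le_log (Real.exp_pos _) h5
          rwa [Real.log_exp, Real.log_mul (by positivity) (by linarith)] at h7
        rw [div_le_iff₀ hκ] at h6
        have h8 : AS b P = V + K := by rw [hV]; ring
        rw [h8]
        nlinarith
      · have h8 : AS b P = V + K := by rw [hV]; ring
        linarith
  · rintro ⟨C, hC⟩
    obtain ⟨c, hc, V0, h⟩ := upper_tail hb hκ hC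
    exact ⟨c, hc, V0, fun V hV => h V hV u hu⟩

/-- **Lower bounds.** -/
theorem freq_iff (hb : ∀ x, ‖b x‖ ≤ M / (x.2 + 1 : ℕ)) {κ : ℝ} (hκ : 0 < κ) {u : ℂ}
    (hu : ‖u‖ = 1) : FreqF κ (fun t => (u * bl b t).re) ↔
      ∃ C : ℝ, ∀ P : ℕ, 3 ≤ P → κ * Real.log (Real.log P) - C ≤ AS b P := by
  have hM := M_nonneg hb
  have hS := S2_nonneg
  constructor
  · rintro ⟨c, hc, V0, h⟩
    set K : ℝ := 2 * M * S2 + 2 * M + 3 with hK
    set D : ℝ := 2 * (M + 1) with hD
    have hD2 : 2 ≤ D := by linarith
    have hA0 : ∀ P, 0 ≤ AS b P := fun P => Finset.sum_nonneg fun _ _ => by positivity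
    -- the cuts from `D ^ 2 + 3` on
    set Q : ℝ := D ^ 2 + 3 with hQ
    refine ⟨max (κ * Real.log (Real.log Q)) (|V0| + K + κ * Real.log (2 * c)),
      fun P hP => ?_⟩
    have hlP1 := one_lt_loglog hP
    have hP3 : (3 : ℝ) ≤ P := by exact_mod_cast hP
    rcases le_total (P : ℝ) Q with hPQ | hPQ
    · have h1 : Real.log (Real.log P) ≤ Real.log (Real.log Q) :=
        Real.log_le_log (by linarith) (Real.log_le_log (by linarith) hPQ)
      have h2 : κ * Real.log (Real.log P) ≤ κ * Real.log (Real.log Q) := by gcongr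
      have h3 := le_max_left (κ * Real.log (Real.log Q)) (|V0| + K + κ * Real.log (2 * c))
      have h4 := hA0 P
      linarith
    · set q : ℝ := P / D with hq
      have hq2 : 2 ≤ q := by
        rw [hq, le_div_iff₀ (by linarith)]
        nlinarith
      have hPq : 2 * M * q ≤ P := by
        rw [hq, ← mul_div_assoc, div_le_iff₀ (by linarith)]
        nlinarith
      obtain ⟨T1, hT1⟩ := chernoff hb hu (show 0 ≤ q by linarith) (show 1 ≤ P by omega) hPq
        (AS b P + 2 * M * S2 + 2 * M + 2)
      set V : ℝ := max V0 (AS b P + K) with hV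
      obtain ⟨T2, hT2⟩ := h V (le_max_left _ _)
      have hsub : ∀ a T : ℝ, {t ∈ Set.Icc a (a + T) | V ≤ (u * bl b t).re} ⊆
          {t ∈ Set.Icc a (a + T) | AS b P + 2 * M * S2 + 2 * M + 2 + 1 ≤ (u * bl b t).re} := by
        intro a T t ht
        refine ⟨ht.1, ?_⟩
        have h4 : AS b P + K ≤ V := le_max_right _ _
        have h5 := ht.2
        rw [hK] at h4
        linarith
      have h3 := compare (A := fun a T => {t ∈ Set.Icc a (a + T) | V ≤ (u * bl b t).re})
        (x := -Real.exp (c * Real.exp (V / κ))) (y := 3 * Real.exp (q *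
          (AS b P + 2 * M * S2 + 2 * M - (AS b P + 2 * M * S2 + 2 * M + 2))))
        hT2 (fun a T hT => (measure_mono (hsub a T)).trans (hT1 a T hT)) (by positivity)
      have h4 : 3 * Real.exp (q * (AS b P + 2 * M * S2 + 2 * M -
          (AS b P + 2 * M * S2 + 2 * M + 2))) ≤ Real.exp (-q) := by
        have h5 : q * (AS b P + 2 * M * S2 + 2 * M - (AS b P + 2 * M * S2 + 2 * M + 2)) =
            -q + -q := by ring
        rw [h5, Real.exp_add]
        have h6 : 3 * Real.exp (-q) ≤ 1 := by
          have h7 : 3 ≤ Real.exp q := by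
            have := Real.add_one_le_exp q
            linarith
          rw [Real.exp_neg]
          rw [← div_eq_mul_inv, div_le_one (Real.exp_pos _)]
          exact h7
        have := Real.exp_pos (-q)
        nlinarith
      have h5 := h3.trans h4
      rw [Real.exp_le_exp, neg_le_neg_iff] at h5
      have h6 : Real.log q ≤ c * Real.exp (V / κ) := by
        have := Real.log_le_log (by linarith) h5
        rwa [Real.log_exp] at this
      have h7 : Real.log P / 2 ≤ Real.log q := by
        rw [hq, Real.log_div (by linarith) (by linarith)]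
        have h8 : Real.log D ≤ Real.log P / 2 := by
          have h9 : 2 * Real.log D ≤ Real.log P := by
            rw [← Real.log_rpow (by linarith)]
            refine Real.log_le_log (by positivity) ?_
            norm_num
            linarith
          linarith
        linarith
      have h8 : Real.log P ≤ 2 * c * Real.exp (V / κ) := by linarith
      have h9 : Real.log (Real.log P) ≤ Real.log (2 * c) + V / κ := by
        have h10 := Real.log_le_log (by linarith) h8
        rwa [Real.log_mul (by positivity) (Real.exp_pos _).ne', Real.log_exp] at h10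
      have h10 : κ * Real.log (Real.log P) ≤ κ * Real.log (2 * c) + V := by
        have h11 := mul_le_mul_of_nonneg_left h9 hκ.le
        rw [mul_add, mul_div_cancel₀ _ hκ.ne'] at h11
        exact h11
      have h11 : V ≤ |V0| + (AS b P + K) := by
        refine max_le ?_ ?_
        · have := hA0 P
          have := le_abs_self V0
          have : 0 ≤ K := by positivity
          linarith
        · have := abs_nonneg V0
          linarith
      have h12 := le_max_right (κ * Real.log (Real.log Q)) (|V0| + K + κ * Real.log (2 * c))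
      linarith
  · rintro ⟨C, hC⟩
    obtain ⟨c, hc, V0, h⟩ := lower_tail hb hκ hC
    exact ⟨c, hc, V0, fun V hV => h V hV u hu⟩

end Pool.Agent.R385.TL
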