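import Pool.Agent.R385.TL.RS

/-!
# Tail laws
-/

set_option autoImplicit false

namespace Pool.Agent.R385.TL

open MeasureTheory Filter Topology NumberField IsDedekindDomain
open Pool.Agent.R385.FG
open Pool.Agent.W353.FB (residue)

variable {F : Type} [Field F] [NumberField F]
variable {R : Finset (HeightOneSpectrum (𝓞 F))} {b : HeightOneSpectrum (𝓞 F) → ℝ} {β : ℝ}

/-- `P_r` is a property of the numbers `b_v` with at most one `r`.  The tail exponent `β + r` of the
function `U` decides about `r`. -/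
def Decides (β : ℝ) (U : ℝ → ℝ) (P : ℝ → Prop) : Prop :=
  ∀ r : ℝ, -β ≤ r → (P r ↔ (∃ ρ : ℝ, P ρ) ∧ TailExponent (β + r) U)

/-- Let `U_β(t) = ∑ (β + b_v) cos(t log q_v) / q_v`, over the primes `v ∉ R` of the number field.
* The series converges for almost all `t`.
* `∑ b_v / q_v ≤ r log log x + O(1)`, for the sum over the `v ∉ R` for which `q_v` is a prime `≤ x`, if
  and only if `U_β ≥ V` has a frequency at most `exp(-exp(c exp(V / (β + r))))`.
* The same with `≥`.
* The quotient of the sum and `log log x` tends to `r` if and only if `β + r` is the tail exponent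
  of `U_β`. -/
def TailLaws (R : Finset (HeightOneSpectrum (𝓞 F))) (b : HeightOneSpectrum (𝓞 F) → ℝ) (β : ℝ) :
    Prop :=
  (∀ᵐ t : ℝ, Tendsto (fun x : ℕ => cosSum R (fun v => β + b v) x t) atTop
    (𝓝 (cosSeries R (fun v => β + b v) t))) ∧
  (∀ r : ℝ, 0 < β + r →
    (RareF (β + r) (cosSeries R fun v => β + b v) ↔
      ∃ C : ℝ, ∀ x : ℕ, 3 ≤ x → primeSum R b x ≤ r * Real.log (Real.log x) + C) ∧
    (FreqF (β + r) (cosSeries R fun v => β + b v) ↔
      ∃ C : ℝ, ∀ x : ℕ, 3 ≤ x → r * Real.log (Real.log x) - C ≤ primeSum R b x)) ∧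
  ∀ r : ℝ, -β ≤ r → (TailExponent (β + r) (cosSeries R fun v => β + b v) ↔
    Tendsto (fun x : ℕ => primeSum R b x / Real.log (Real.log x)) atTop (𝓝 r))

theorem tailLaws (hb : ∀ v, v ∉ R → |b v| ≤ β) (hβ : 0 ≤ β) : TailLaws R b β := by
  refine ⟨?_, fun r hr => signed_iff hb hβ hr, fun r hr => tailExponent_iff hb hβ hr⟩
  have h1 : ∀ v, v ∉ R → |β + b v| ≤ 2 * β := fun v hv => by
    have h2 := abs_le.1 (hb v hv)
    rw [abs_le]
    constructor <;> linarith
  filter_upwards [cosSeries_ae (R := R) (b := fun v => β + b v) (C := 2 * β) (by linarith) h1]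
    with t ht using ht.2

/-- the logarithmic means are at least `-β` -/
lemma mean_ge (hb : ∀ v, v ∉ R → |b v| ≤ β) (hβ : 0 ≤ β) {ρ : ℝ}
    (h : Tendsto (fun x : ℕ => primeSum R b x / Real.log (Real.log x)) atTop (𝓝 ρ)) : -β ≤ ρ := by
  obtain ⟨K, hK0, hK⟩ := mertens R
  by_contra hcon
  push Not at hcon
  set r' : ℝ := (-β + ρ) / 2 with hr'
  have h1 : ρ < r' := by rw [hr']; linarith
  have h1' : r' < -β := by rw [hr']; linarith
  obtain ⟨x, hx⟩ := (((tendsto_order.1 h).2 r' h1).and ((tendsto_LL.eventually_gt_atTop 0).and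
    ((tendsto_LL.eventually_gt_atTop (β * K / (-β - r'))).and (eventually_ge_atTop 3)))).exists
  obtain ⟨h2, h3, h4, h5⟩ := hx
  have h6 : 0 ≤ primeSum R (fun v => β + b v) x := primeSum_nonneg (fun v hv => by
    have h2 := abs_le.1 (hb v hv)
    linarith) x
  rw [primeSum_lin] at h6
  have h7 := (abs_le.1 (hK x h5)).2
  have h8 : β * primeSum R (fun _ => 1) x ≤ β * (Real.log (Real.log x) + K) :=
    mul_le_mul_of_nonneg_left (by linarith) hβ
  rw [div_lt_iff₀ h3] at h2
  rw [div_lt_iff₀ (by linarith)] at h4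
  nlinarith

/-- a property which determines the logarithmic mean -/
theorem decides_of (hb : ∀ v, v ∉ R → |b v| ≤ β) (hβ : 0 ≤ β) {P : ℝ → Prop}
    (hP : ∀ ρ : ℝ, P ρ →
      Tendsto (fun x : ℕ => primeSum R b x / Real.log (Real.log x)) atTop (𝓝 ρ)) :
    Decides β (cosSeries R fun v => β + b v) P := by
  intro r hr
  constructor
  · intro h
    exact ⟨⟨r, h⟩, (tailExponent_iff hb hβ hr).2 (hP r h)⟩
  · rintro ⟨⟨ρ, hρ⟩, h⟩
    have h1 := (tailExponent_iff hb hβ hr).1 h
    have h2 := tendsto_nhds_unique h1 (hP ρ hρ)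
    rw [h2]
    exact hρ

theorem decides_residue (hb : ∀ v, v ∉ R → |b v| ≤ β) (hβ : 0 ≤ β) :
    Decides β (cosSeries R fun v => β + b v) fun r => Tendsto (residue R b) (𝓝[>] 1) (𝓝 r) :=
  decides_of hb hβ fun _ h => mean_of_residue hβ hb h

theorem decides_average (hb : ∀ v, v ∉ R → |b v| ≤ β) (hβ : 0 ≤ β) :
    Decides β (cosSeries R fun v => β + b v) fun r =>
      Tendsto (Pool.Agent.W353.FB.average R b) atTop (𝓝 r) :=
  decides_of hb hβ fun _ h => mean_of_residue hβ hb (residue_of_average hβ hb h)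

lemma mean_of_bounded {ρ K : ℝ}
    (h : ∀ x : ℕ, 3 ≤ x → |primeSum R b x - ρ * Real.log (Real.log x)| ≤ K) :
    Tendsto (fun x : ℕ => primeSum R b x / Real.log (Real.log x)) atTop (𝓝 ρ) := by
  have h1 : Tendsto (fun x : ℕ => K / Real.log (Real.log x)) atTop (𝓝 0) :=
    tendsto_LL.const_div_atTop K
  have h2 : Tendsto (fun x : ℕ => primeSum R b x / Real.log (Real.log x) - ρ) atTop (𝓝 0) := by
    refine squeeze_zero_norm' ?_ h1
    filter_upwards [tendsto_LL.eventually_gt_atTop 0, eventually_ge_atTop 3] with x hx hx3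
    have e : primeSum R b x / Real.log (Real.log x) - ρ =
        (primeSum R b x - ρ * Real.log (Real.log x)) / Real.log (Real.log x) := by
      field_simp
    rw [e, norm_div, Real.norm_eq_abs, Real.norm_of_nonneg hx.le]
    exact div_le_div_of_nonneg_right (h x hx3) hx.le
  have h3 := h2.add_const ρ
  rw [zero_add] at h3
  refine h3.congr fun x => by ring

theorem decides_hasResidue (hb : ∀ v, v ∉ R → |b v| ≤ β) (hβ : 0 ≤ β) :
    Decides β (cosSeries R fun v => β + b v) fun r => HasResidue (logSeries R b) 1 r :=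
  decides_of hb hβ fun _ h => by
    obtain ⟨K, hK⟩ := bounded_of_hasResidue hβ hb h
    exact mean_of_bounded hK

/-- a pole determines the frequency up to the constant `c` -/
theorem both_of_hasResidue (hb : ∀ v, v ∉ R → |b v| ≤ β) (hβ : 0 ≤ β) {r : ℝ} (hr : 0 < β + r)
    (h : HasResidue (logSeries R b) 1 r) :
    RareF (β + r) (cosSeries R fun v => β + b v) ∧
      FreqF (β + r) (cosSeries R fun v => β + b v) := by
  obtain ⟨K, hK⟩ := bounded_of_hasResidue hβ hb h
  have h1 := signed_iff hb hβ hr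
  exact ⟨h1.1.2 ⟨K, fun x hx => by linarith [(abs_le.1 (hK x hx)).2]⟩,
    h1.2.2 ⟨K, fun x hx => by linarith [(abs_le.1 (hK x hx)).1]⟩⟩

end Pool.Agent.R385.TL
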