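import Pool.Agent.R409.ED.Ui
import Pool.Agent.R385.JD.Attain

/-!
# Exponential moments of the local functions
-/

set_option autoImplicit false

namespace Pool.Agent.R385.TL

open MeasureTheory Filter Topology
open Pool.Agent.TH339.MP
open Pool.Agent.R409.ED
open Pool.Agent.R385.JD
open HB (lin continuous_lin)

variable {b : PP → ℂ} {M : ℝ}

lemma hl_mean (hb : ∀ x, ‖b x‖ ≤ M / (x.2 + 1 : ℕ)) (p : Nat.Primes) :
    ∫ θ : UnitAddCircle, hl b p θ = 0 := by
  have h1 : HasSum (fun k : ℕ => ∫ θ : UnitAddCircle,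
      (b (p, k) * (wt 1 (p, k) : ℂ)) * (fourier ((k : ℤ) + 1) θ : ℂ))
      (∫ θ : UnitAddCircle, ∑' k : ℕ, (b (p, k) * (wt 1 (p, k) : ℂ)) * (fourier ((k : ℤ) + 1) θ : ℂ)) := by
    refine hasSum_integral_of_dominated_convergence (fun k _ => M * (1 / 2 : ℝ) ^ k) (fun k => ?_)
      (fun k => Eventually.of_forall fun θ => hl_term hb p k θ)
      (Eventually.of_forall fun _ => half_summable M) (integrable_const _)
      (Eventually.of_forall fun θ => ?_)
    · exact (continuous_const.mul (map_continuous _)).aestronglyMeasurable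
    · exact (Summable.of_norm_bounded (half_summable M) fun k => hl_term hb p k θ).hasSum
  have h2 : ∀ k : ℕ, ∫ θ : UnitAddCircle,
      (b (p, k) * (wt 1 (p, k) : ℂ)) * (fourier ((k : ℤ) + 1) θ : ℂ) = 0 := by
    intro k
    rw [integral_const_mul, HB.integral_fourier', if_neg (by omega), mul_zero]
  simp_rw [h2] at h1
  exact (h1.unique hasSum_zero)

lemma norm_hl_le (hb : ∀ x, ‖b x‖ ≤ M / (x.2 + 1 : ℕ)) (p : Nat.Primes) (θ : UnitAddCircle) :
    ‖hl b p θ‖ ≤ ‖b (p, 0)‖ / (p : ℕ) + 2 * M * ((p : ℕ) : ℝ) ^ (-2 : ℝ) := by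
  have h1 := hl_first hb p θ
  have h2 : ‖(fourier 1 θ : ℂ) * (b (p, 0) * (wt 1 (p, 0) : ℂ))‖ = ‖b (p, 0)‖ / (p : ℕ) := by
    rw [norm_mul, norm_mul, Complex.norm_real, Real.norm_of_nonneg (wt_nonneg 1 _), wt_zero]
    have : ‖(fourier 1 θ : ℂ)‖ = 1 := by
      rw [fourier_apply]
      exact Circle.norm_coe _
    rw [this, one_mul, div_eq_mul_inv]
  calc ‖hl b p θ‖ = ‖(fourier 1 θ : ℂ) * (b (p, 0) * (wt 1 (p, 0) : ℂ)) +
        (hl b p θ - (fourier 1 θ : ℂ) * (b (p, 0) * (wt 1 (p, 0) : ℂ)))‖ := by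
        congr 1; ring
    _ ≤ _ := (norm_add_le _ _).trans (by rw [h2]; linarith)

lemma norm_hl_le' (hb : ∀ x, ‖b x‖ ≤ M / (x.2 + 1 : ℕ)) (p : Nat.Primes) (θ : UnitAddCircle) :
    ‖hl b p θ‖ ≤ 2 * M / (p : ℕ) := by
  have hM := M_nonneg hb
  have h1 := norm_hl_le hb p θ
  have hp := two_le_prime p
  have hp0 := prime_pos p
  have h2 : ‖b (p, 0)‖ ≤ M := norm_b_le hb _
  have h3 : ((p : ℕ) : ℝ) ^ (-2 : ℝ) = (((p : ℕ) : ℝ)⁻¹) ^ 2 := by
    rw [inv_pow, ← Real.rpow_natCast, Real.rpow_neg hp0.le]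
    norm_num
  rw [h3] at h1
  have h4 : (((p : ℕ) : ℝ)⁻¹) ≤ 1 / 2 := by
    rw [one_div]; exact inv_anti₀ (by norm_num) hp
  have h5 : 0 < (((p : ℕ) : ℝ)⁻¹) := by positivity
  rw [div_eq_mul_inv] at h1 ⊢
  nlinarith [mul_le_mul_of_nonneg_right h2 h5.le, mul_nonneg hM h5.le]

/-- the real exponential mean of the local function -/
noncomputable def gm (b : PP → ℂ) (u : ℂ) (q : ℝ) (p : Nat.Primes) : ℝ :=
  ∫ θ : UnitAddCircle, Real.exp (q * (u * hl b p θ).re)

lemma continuous_g (hb : ∀ x, ‖b x‖ ≤ M / (x.2 + 1 : ℕ)) (u : ℂ) (q : ℝ) (p : Nat.Primes) :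
    Continuous fun θ : UnitAddCircle => Real.exp (q * (u * hl b p θ).re) := by
  have := continuous_hl hb p
  fun_prop

lemma gm_nonneg (b : PP → ℂ) (u : ℂ) (q : ℝ) (p : Nat.Primes) : 0 ≤ gm b u q p :=
  integral_nonneg fun _ => (Real.exp_pos _).le

lemma integrable_circle {f : UnitAddCircle → ℝ} (hf : Continuous f) : Integrable f volume :=
  hf.integrable_of_hasCompactSupport (HasCompactSupport.of_compactSpace _)

lemma circle_prob : (volume : Measure UnitAddCircle).real Set.univ = 1 := by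
  simp

/-- small primes -/
lemma gm_small (hb : ∀ x, ‖b x‖ ≤ M / (x.2 + 1 : ℕ)) {u : ℂ} (hu : ‖u‖ = 1) {q : ℝ} (hq : 0 ≤ q)
    (p : Nat.Primes) :
    gm b u q p ≤ Real.exp (q * (‖b (p, 0)‖ / (p : ℕ) + 2 * M * ((p : ℕ) : ℝ) ^ (-2 : ℝ))) := by
  have h1 : ∀ θ : UnitAddCircle, Real.exp (q * (u * hl b p θ).re) ≤
      Real.exp (q * (‖b (p, 0)‖ / (p : ℕ) + 2 * M * ((p : ℕ) : ℝ) ^ (-2 : ℝ))) := by
    intro θ
    refine Real.exp_le_exp.2 (mul_le_mul_of_nonneg_left ?_ hq)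
    refine (Complex.re_le_norm _).trans ?_
    rw [norm_mul, hu, one_mul]
    exact norm_hl_le hb p θ
  unfold gm
  calc _ ≤ ∫ _θ : UnitAddCircle,
        Real.exp (q * (‖b (p, 0)‖ / (p : ℕ) + 2 * M * ((p : ℕ) : ℝ) ^ (-2 : ℝ))) :=
        integral_mono (integrable_circle (continuous_g hb u q p)) (integrable_const _) h1
    _ = _ := by rw [integral_const, circle_prob, one_smul]

/-- large primes -/
lemma gm_large (hb : ∀ x, ‖b x‖ ≤ M / (x.2 + 1 : ℕ)) {u : ℂ} (hu : ‖u‖ = 1) {q : ℝ} (hq : 0 ≤ q)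
    {p : Nat.Primes} (hp : 2 * M * q ≤ (p : ℕ)) :
    gm b u q p ≤ Real.exp ((2 * M * q / (p : ℕ)) ^ 2) := by
  have hp0 := prime_pos p
  have hM := M_nonneg hb
  set g : UnitAddCircle → ℝ := fun θ => q * (u * hl b p θ).re with hg
  have hgc : Continuous g := by
    have := continuous_hl hb p
    fun_prop
  have hgb : ∀ θ, |g θ| ≤ 2 * M * q / (p : ℕ) := by
    intro θ
    simp only [hg]
    rw [abs_mul, abs_of_nonneg hq]
    have h1 : |(u * hl b p θ).re| ≤ 2 * M / (p : ℕ) := by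
      refine (Complex.abs_re_le_norm _).trans ?_
      rw [norm_mul, hu, one_mul]
      exact norm_hl_le' hb p θ
    calc q * |(u * hl b p θ).re| ≤ q * (2 * M / (p : ℕ)) := by gcongr
      _ = _ := by ring
  have hg1 : ∀ θ, |g θ| ≤ 1 := fun θ => (hgb θ).trans ((div_le_one hp0).2 hp)
  have hmean : ∫ θ, g θ = 0 := by
    have h1 : ∫ θ : UnitAddCircle, u * hl b p θ = 0 := by
      rw [integral_const_mul, hl_mean hb p, mul_zero]
    have hi : Integrable (fun θ : UnitAddCircle => u * hl b p θ) volume :=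
      (continuous_const.mul (continuous_hl hb p)).integrable_of_hasCompactSupport
        (HasCompactSupport.of_compactSpace _)
    have h2 : ∫ θ : UnitAddCircle, (u * hl b p θ).re = (∫ θ : UnitAddCircle, u * hl b p θ).re :=
      integral_re hi
    simp only [hg]
    rw [integral_const_mul, h2, h1]
    simp
  have hpt : ∀ θ, Real.exp (g θ) ≤ 1 + g θ + (2 * M * q / (p : ℕ)) ^ 2 := by
    intro θ
    have h1 := (abs_le.1 (Real.abs_exp_sub_one_sub_id_le (hg1 θ))).2
    have h2 : g θ ^ 2 ≤ (2 * M * q / (p : ℕ)) ^ 2 := by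
      rw [← sq_abs (g θ)]
      exact pow_le_pow_left₀ (abs_nonneg _) (hgb θ) 2
    linarith
  have hint : ∫ θ : UnitAddCircle, Real.exp (g θ) ≤ 1 + (2 * M * q / (p : ℕ)) ^ 2 := by
    set D : ℝ := (2 * M * q / (p : ℕ)) ^ 2 with hD
    have hpt' : ∀ θ, Real.exp (g θ) ≤ (1 + D) + g θ := fun θ => (hpt θ).trans (by linarith)
    calc ∫ θ : UnitAddCircle, Real.exp (g θ) ≤ ∫ θ, ((1 + D) + g θ) :=
          integral_mono (integrable_circle (continuous_g hb u q p))
            (integrable_circle (continuous_const.add hgc)) hpt'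
      _ = _ := by
          have h5 := integral_add (μ := (volume : Measure UnitAddCircle))
            (f := fun _ : UnitAddCircle => 1 + D) (g := g) (integrable_const _) (integrable_circle hgc)
          rw [h5, hmean, integral_const, circle_prob]
          simp
  have h3 := Real.add_one_le_exp ((2 * M * q / (p : ℕ)) ^ 2)
  unfold gm
  linarith

/-- the exponential moments of the truncated products -/
theorem exp_prod (b : PP → ℂ) (u : ℂ) (q : ℝ) (Y : ℕ) :
    ∫ θ : UnitAddTorus (PY Y), Real.exp (q * (u * SY b Y θ).re) = ∏ p : PY Y, gm b u q p.1 := by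
  have h1 : ∀ θ : UnitAddTorus (PY Y), Real.exp (q * (u * SY b Y θ).re) =
      ∏ p : PY Y, Real.exp (q * (u * hl b p.1 (θ p)).re) := by
    intro θ
    rw [← Real.exp_sum]
    congr 1
    unfold SY
    rw [Finset.mul_sum, Complex.re_sum, Finset.mul_sum]
  simp_rw [h1]
  unfold gm
  exact integral_fintype_prod_volume_eq_prod (fun (p : PY Y) (θ : UnitAddCircle) =>
    Real.exp (q * (u * hl b p.1 θ).re))

end Pool.Agent.R385.TL
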