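import Pool.Agent.R385.TL.Upper

/-!
# Lower bounds for the frequency of windows
-/

set_option autoImplicit false

namespace Pool.Agent.R385.TL

open MeasureTheory Filter Topology
open Pool.Agent.TH339.MP
open Pool.Agent.R409.ED
open Pool.Agent.R385.JD
open HB (lin continuous_lin)
open scoped ENNReal

variable {b : PP → ℂ} {M : ℝ}

/-- a window on the torus of the primes at most `Y1` and a small remainder occur together -/
theorem window (hb : ∀ x, ‖b x‖ ≤ M / (x.2 + 1 : ℕ)) {Y1 : ℕ} (hY12 : 2 ≤ Y1)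
    (hlY1 : 128 * (64800 * M ^ 2) + 1 ≤ Real.log Y1)
    {G : UnitAddTorus (PY Y1) → ℝ} (hGc : Continuous G) (hG0 : ∀ θ, 0 ≤ G θ) (hG1 : ∀ θ, G θ ≤ 1)
    {m : ℝ} (hm : ∫ θ, G θ = m) (hm0 : 0 < m) :
    ∃ T0 : ℝ, ∀ a T : ℝ, T0 ≤ T → ENNReal.ofReal (m / 8 * T) ≤
      volume {t ∈ Set.Icc a (a + T) | G (lin (lY Y1) t) ≠ 0 ∧ ‖bl b t - QY b Y1 t‖ < 1} := by
  classical
  have hlog : Tendsto (fun Y : ℕ => Real.log Y) atTop atTop :=
    Real.tendsto_log_atTop.comp tendsto_natCast_atTop_atTop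
  have hm1 : Tendsto (rav fun t => G (lin (lY Y1) t)) WF (𝓝 m) := hm ▸ kwR Y1 hGc
  obtain ⟨Y2, hY2⟩ := eventually_atTop.1 (hlog.eventually_ge_atTop (64 * (64800 * M ^ 2) / m + 1))
  set Y : ℕ := max Y1 Y2 with hY
  have h1Y : Y1 ≤ Y := le_max_left _ _
  have hlY : 64 * (64800 * M ^ 2) / m + 1 ≤ Real.log Y := hY2 Y (le_max_right _ _)
  have hmY : ∫ θ : UnitAddTorus (PY Y), G (rs h1Y θ) = m := by
    have h2 := kwR Y (G := fun θ => G (rs h1Y θ)) (hGc.comp (continuous_rs h1Y))
    exact tendsto_nhds_unique (h2.congr fun x => rfl) hm1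
  clear_value Y
  set H : (Fin 1 → ℂ) → ℝ := fun w => 4 * ‖w 0‖ ^ 2 with hH
  have hHc : Continuous H := by
    rw [hH]
    fun_prop
  have hprod := indep (b := fun _ : Fin 1 => b) (fun _ => hb) h1Y hGc hHc
  rw [hmY] at hprod
  have hHint : ∫ θ : UnitAddTorus (PY Y), H (fun _ => RY b Y1 Y θ) ≤ 1 / 4 := by
    simp only [hH]
    rw [integral_const_mul]
    have h3 := RY_sq hb hY12 h1Y
    have h4 : 4 * (8 * (64800 * M ^ 2 / Real.log Y1)) ≤ 1 / 4 := by
      have h5 : 0 ≤ 128 * (64800 * M ^ 2) := by positivity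
      have : 0 < Real.log Y1 := by linarith
      rw [← mul_assoc, ← mul_div_assoc, div_le_iff₀ this]
      linarith
    linarith
  have h2 := kwR Y (G := fun θ => G (rs h1Y θ) * H (fun _ => RY b Y1 Y θ))
    ((hGc.comp (continuous_rs h1Y)).mul
      (hHc.comp (continuous_pi fun j => continuous_RY hb Y1 Y)))
  rw [hprod] at h2
  have h2' : m * ∫ θ : UnitAddTorus (PY Y), H (fun _ => RY b Y1 Y θ) < m / 2 := by
    nlinarith
  obtain ⟨Ta, hTa⟩ := of_ev (hm1.eventually (lt_mem_nhds (show 7 * m / 8 < m by linarith)))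
  obtain ⟨Tb, hTb⟩ := of_ev (h2.eventually (gt_mem_nhds h2'))
  refine ⟨max 1 (max Ta Tb), fun a T hT => ?_⟩
  have hT1 : 1 ≤ T := (le_max_left _ _).trans hT
  have hT0 : 0 < T := by linarith
  have ga := hTa a T (((le_max_left _ _).trans (le_max_right _ _)).trans hT)
  have gb := hTb a T (((le_max_right _ _).trans (le_max_right _ _)).trans hT)
  unfold rav at ga gb
  simp only at ga gb
  rw [lt_inv_mul_iff₀ hT0] at ga
  rw [inv_mul_lt_iff₀ hT0] at gb
  rw [intervalIntegral.integral_of_le (by linarith), ← integral_Icc_eq_integral_Ioc] at ga gb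
  set W := Set.Icc a (a + T) with hW
  set f1 : ℝ → ℝ := fun t => G (lin (lY Y1) t) with hf1
  set f2 : ℝ → ℝ := fun t => G (lin (lY Y1) t) * H (fun _ => RY b Y1 Y (lin (lY Y) t)) with hf2
  set f3 : ℝ → ℝ := fun t => 4 * ‖bl b t - QY b Y t‖ ^ 2 with hf3
  have hH0 : ∀ w : Fin 1 → ℂ, 0 ≤ H w := fun w => by simp only [hH]; positivity
  have hf1c : Continuous f1 := hGc.comp (continuous_lin _)
  have hf2c : Continuous f2 := hf1c.mul (hHc.comp (continuous_pi fun j =>
    (continuous_RY hb Y1 Y).comp (continuous_lin _)))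
  have hf1n : ∀ t, 0 ≤ f1 t := fun t => hG0 _
  have hf2n : ∀ t, 0 ≤ f2 t := fun t =>
    mul_nonneg (hG0 _) (hH0 (fun _ => RY b Y1 Y (lin (lY Y) t)))
  have hf3n : ∀ t, 0 ≤ f3 t := fun t => by simp only [hf3]; positivity
  set B : Set ℝ := {t | G (lin (lY Y1) t) ≠ 0 ∧ ‖bl b t - QY b Y1 t‖ < 1} with hB
  have hBm : NullMeasurableSet B volume := by
    refine NullMeasurableSet.inter (t := {t | ‖bl b t - QY b Y1 t‖ < 1}) ?_ ?_
    · exact (isOpen_ne.preimage hf1c).measurableSet.nullMeasurableSet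
    · exact nullMeasurableSet_lt ((boundary hb).1.sub
        (continuous_QY hb Y1).measurable.aemeasurable).norm aemeasurable_const
  -- the pointwise inequality
  have hpt : ∀ t, f1 t ≤ B.indicator (fun _ => (1 : ℝ)) t + f2 t + f3 t := by
    intro t
    by_cases htB : t ∈ B
    · rw [Set.indicator_of_mem htB]
      have := hG1 (lin (lY Y1) t)
      have e : f1 t = G (lin (lY Y1) t) := rfl
      linarith [hf2n t, hf3n t]
    · rw [Set.indicator_of_notMem htB, zero_add]
      by_cases h0 : G (lin (lY Y1) t) = 0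
      · have e : f1 t = 0 := h0
        linarith [hf2n t, hf3n t]
      · have hj : 1 ≤ ‖bl b t - QY b Y1 t‖ := by
          by_contra hcon
          push Not at hcon
          exact htB ⟨h0, hcon⟩
        have h6 : bl b t - QY b Y1 t = (bl b t - QY b Y t) + (QY b Y t - QY b Y1 t) := by ring
        have h7 : 1 / 2 ≤ ‖bl b t - QY b Y t‖ ∨ 1 / 2 ≤ ‖QY b Y t - QY b Y1 t‖ := by
          by_contra hcon
          push Not at hcon
          rw [h6] at hj
          have := norm_add_le (bl b t - QY b Y t) (QY b Y t - QY b Y1 t)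
          linarith [hcon.1, hcon.2]
        have key : ∀ r : ℝ, 1 / 2 ≤ r → 1 ≤ 4 * r ^ 2 := by
          intro r hr
          nlinarith
        have hle1 := hG1 (lin (lY Y1) t)
        have e1 : f1 t = G (lin (lY Y1) t) := rfl
        rcases h7 with h7 | h7
        · have h8 : 1 ≤ f3 t := key _ h7
          linarith [hf2n t]
        · have h8 : 1 ≤ H (fun _ => RY b Y1 Y (lin (lY Y) t)) := by
            simp only [hH]
            rw [RY_lin hb h1Y]
            exact key _ h7
          have h9 : f1 t ≤ f2 t := by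
            simp only [hf1, hf2]
            exact le_mul_of_one_le_right (hG0 _) h8
          linarith [hf3n t]
  -- integrate
  have i1 : ENNReal.ofReal (T * (7 * m / 8)) ≤ ∫⁻ t in W, ENNReal.ofReal (f1 t) := by
    rw [← ofReal_integral_eq_lintegral_ofReal
      (hf1c.continuousOn.integrableOn_compact isCompact_Icc) (Eventually.of_forall hf1n)]
    exact ENNReal.ofReal_le_ofReal ga.le
  have i2 : ∫⁻ t in W, ENNReal.ofReal (f2 t) ≤ ENNReal.ofReal (T * (m / 2)) := by
    rw [← ofReal_integral_eq_lintegral_ofReal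
      (hf2c.continuousOn.integrableOn_compact isCompact_Icc) (Eventually.of_forall hf2n)]
    exact ENNReal.ofReal_le_ofReal gb.le
  have hmj : AEMeasurable (fun t => ENNReal.ofReal (‖bl b t - QY b Y t‖ ^ 2))
      (volume.restrict W) :=
    ((((boundary hb).1.sub (continuous_QY hb Y).measurable.aemeasurable).norm.pow_const 2
      ).ennreal_ofReal).restrict
  have hY2' : 2 ≤ Y := hY12.trans h1Y
  have i3 : ∫⁻ t in W, ENNReal.ofReal (f3 t) ≤ ENNReal.ofReal (T * (m / 8)) := by
    have e1 : ∀ t, ENNReal.ofReal (f3 t) = ENNReal.ofReal 4 *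
        ENNReal.ofReal (‖bl b t - QY b Y t‖ ^ 2) := by
      intro t
      simp only [hf3]
      rw [ENNReal.ofReal_mul (by norm_num)]
    simp_rw [e1]
    rw [lintegral_const_mul'' _ hmj]
    refine (mul_le_mul_right (dist_win hb hY2' hT1) _).trans ?_
    rw [← ENNReal.ofReal_mul (by norm_num)]
    refine ENNReal.ofReal_le_ofReal ?_
    have hL : 0 < Real.log Y := by
      have : 0 ≤ 64 * (64800 * M ^ 2) / m := by positivity
      linarith
    have e3 : 4 * (2 * (64800 * M ^ 2 / Real.log Y) * T) =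
        T * (8 * (64800 * M ^ 2) / Real.log Y) := by
      ring
    rw [e3]
    refine mul_le_mul_of_nonneg_left ?_ hT0.le
    rw [div_le_iff₀ hL]
    have h10 : 64 * (64800 * M ^ 2) / m ≤ Real.log Y := by linarith
    rw [div_le_iff₀ hm0] at h10
    nlinarith
  have i4 : ∫⁻ t in W, ENNReal.ofReal (f1 t) ≤
      volume (B ∩ W) + (∫⁻ t in W, ENNReal.ofReal (f2 t)) + ∫⁻ t in W, ENNReal.ofReal (f3 t) := by
    have e1 : ∀ t, ENNReal.ofReal (f1 t) ≤ B.indicator (fun _ => (1 : ℝ≥0∞)) t +
        ENNReal.ofReal (f2 t) + ENNReal.ofReal (f3 t) := by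
      intro t
      refine (ENNReal.ofReal_le_ofReal (hpt t)).trans ?_
      rw [ENNReal.ofReal_add (add_nonneg (Set.indicator_nonneg (fun _ _ => zero_le_one) _) (hf2n t))
        (hf3n t), ENNReal.ofReal_add (Set.indicator_nonneg (fun _ _ => zero_le_one) _) (hf2n t)]
      gcongr
      by_cases htB : t ∈ B
      · simp [htB]
      · simp [htB]
    refine (lintegral_mono e1).trans (le_of_eq ?_)
    have m2 : AEMeasurable (fun t => ENNReal.ofReal (f2 t)) (volume.restrict W) :=
      (hf2c.measurable.ennreal_ofReal).aemeasurable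
    have m3 : AEMeasurable (fun t => ENNReal.ofReal (f3 t)) (volume.restrict W) := by
      refine AEMeasurable.ennreal_ofReal ?_
      refine AEMeasurable.const_mul ?_ _
      exact (((boundary hb).1.sub (continuous_QY hb Y).measurable.aemeasurable).norm.pow_const 2
          ).restrict
    rw [lintegral_add_right' _ m3, lintegral_add_right' _ m2,
      lintegral_indicator_const₀ (hBm.mono Measure.restrict_le_self) 1, one_mul,
      Measure.restrict_apply₀' (measurableSet_Icc.nullMeasurableSet)]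
  have hfin : ∀ r : ℝ, ENNReal.ofReal r ≠ ⊤ := fun r => ENNReal.ofReal_ne_top
  have i5 : ENNReal.ofReal (T * (7 * m / 8)) ≤
      volume (B ∩ W) + ENNReal.ofReal (T * (m / 2)) + ENNReal.ofReal (T * (m / 8)) :=
    i1.trans (i4.trans (by gcongr))
  rw [add_assoc, ← ENNReal.ofReal_add (by positivity) (by positivity)] at i5
  have i6 := tsub_le_iff_right.2 i5
  rw [← ENNReal.ofReal_sub _ (by positivity)] at i6
  have e5 : {t ∈ W | G (lin (lY Y1) t) ≠ 0 ∧ ‖bl b t - QY b Y1 t‖ < 1} = B ∩ W := by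
    ext t
    simp only [hB, Set.mem_ofPred_eq, Set.mem_inter_iff]
    tauto
  rw [e5]
  refine le_trans (ENNReal.ofReal_le_ofReal ?_) i6
  nlinarith

end Pool.Agent.R385.TL
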