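import Pool.Agent.R385.TL.Upper
import Pool.Agent.R385.TA.Taub
import Pool.Agent.R385.JD.Dich
import Pool.Agent.Erdos456.Mertens

/-!
# The sums of the absolute values of the coefficients
-/

set_option autoImplicit false

namespace Pool.Agent.R385.TL

open MeasureTheory Filter Topology
open Pool.Agent.TH339.MP
open Pool.Agent.R409.ED
open Pool.Agent.R385.JD
open Pool.Agent.R385.MC (cf)
open Pool.Agent.R385.TA (PS PS_sub_le)

variable {b : PP → ℂ} {M : ℝ}

lemma sum_PY (f : ℕ → ℝ) (N : ℕ) :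
    ∑ p : PY N, f ((p.1 : Nat.Primes) : ℕ) = ∑ p ∈ (Finset.Icc 1 N).filter Nat.Prime, f p := by
  classical
  have h0 := Finset.sum_image (s := (Finset.univ : Finset (PY N))) (f := f)
    (g := fun p : PY N => ((p.1 : Nat.Primes) : ℕ))
    (fun a _ c _ h => Subtype.ext (Subtype.ext h))
  rw [← h0]
  congr 1
  ext n
  rw [Finset.mem_image, Finset.mem_filter, Finset.mem_Icc]
  constructor
  · rintro ⟨q, _, rfl⟩
    exact ⟨⟨q.1.2.one_lt.le, q.2⟩, q.1.2⟩
  · rintro ⟨⟨_, h2⟩, h3⟩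
    exact ⟨⟨⟨n, h3⟩, h2⟩, Finset.mem_univ _, rfl⟩

lemma AS_nonneg (b : PP → ℂ) (P : ℕ) : 0 ≤ AS b P :=
  Finset.sum_nonneg fun _ _ => by positivity

/-- the trivial bound -/
theorem AS_mertens : ∃ C : ℝ, 0 ≤ C ∧ ∀ (b : PP → ℂ) (M : ℝ),
    (∀ x, ‖b x‖ ≤ M / (x.2 + 1 : ℕ)) →
    ∀ P : ℕ, 3 ≤ P → AS b P ≤ M * Real.log (Real.log P) + M * C := by
  obtain ⟨C, hC⟩ := Erdos456.Mert.mertens_inv
  refine ⟨|C|, abs_nonneg _, fun b M hb P hP => ?_⟩
  have hM := M_nonneg hb
  have h1 := (abs_le.1 (hC P hP)).2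
  have h2 : AS b P ≤ M * ∑ p ∈ (Finset.Icc 1 P).filter Nat.Prime, (1 : ℝ) / p := by
    rw [← sum_PY (fun n => (1 : ℝ) / n) P, Finset.mul_sum]
    unfold AS
    refine Finset.sum_le_sum fun p _ => ?_
    rw [mul_one_div]
    exact div_le_div_of_nonneg_right (norm_b_le hb _) (Nat.cast_nonneg _)
  have h3 := le_abs_self C
  nlinarith

/-- the boundary of the sums -/
noncomputable def Kh (M : ℝ) : ℝ := ∑' x : PP, M * wt 1 (sh x)

lemma first_PS (b : PP → ℂ) {ε : ℝ} :
    ∑' p : Nat.Primes, tm b (1 + (ε : ℂ)) (p, 0) = PS (ap b) (fun u => u) ε := by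
  unfold Pool.Agent.R385.TA.PS
  have h1 : Function.Injective (fun p : Nat.Primes => (p : ℕ)) := Subtype.val_injective
  have h2 : Function.support (fun n : ℕ => cf (ap b) n *
      ((Real.exp (-ε * Real.log n) : ℝ) : ℂ)) ⊆ Set.range (fun p : Nat.Primes => (p : ℕ)) := by
    intro n hn
    by_contra hcon
    have h3 : ¬ n.Prime := fun h => hcon ⟨⟨n, h⟩, rfl⟩
    refine hn ?_
    simp only [cf, if_neg h3, zero_mul]
  rw [← h1.tsum_eq h2]
  refine tsum_congr fun p => ?_
  have hp0 := prime_pos p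
  have hpc : ((p : ℕ) : ℂ) ≠ 0 := by exact_mod_cast p.2.ne_zero
  unfold tm cf ap
  rw [if_pos p.2, dif_pos p.2]
  simp only [zero_add, pow_one]
  have h4 : ((p : ℕ) : ℂ) ^ (-(1 + (ε : ℂ))) = ((p : ℕ) : ℂ)⁻¹ *
      ((Real.exp (-ε * Real.log (p : ℕ)) : ℝ) : ℂ) := by
    rw [neg_add, Complex.cpow_add _ _ hpc, Complex.cpow_neg_one]
    congr 1
    rw [Complex.cpow_def_of_ne_zero hpc, Complex.ofReal_exp]
    congr 1
    have h5 : ((Real.log ((p : ℕ) : ℝ) : ℝ) : ℂ) = Complex.log ((p : ℕ) : ℂ) :=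
      Complex.natCast_log
    rw [← h5]
    push_cast
    ring
  rw [h4]
  show b (p, 0) * _ = b (p, 0) / _ * _
  rw [div_eq_mul_inv]
  ring

/-- the sum up to `P` and the series at `1 + 1 / log P` -/
theorem FF_le_AS : ∃ C : ℝ, ∀ (b : PP → ℂ) (M : ℝ), (∀ x, ‖b x‖ ≤ M / (x.2 + 1 : ℕ)) →
    ∀ P : ℕ, 3 ≤ P → ‖FF b (1 + ((1 / Real.log P : ℝ) : ℂ))‖ ≤ AS b P + C * M + Kh M := by
  classical
  refine ⟨3 * (8 * Pool.Agent.W350.Edge.CC + 1), fun b M hb P hP => ?_⟩
  have hM := M_nonneg hb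
  have hP0 : (0 : ℝ) < P := by exact_mod_cast (by omega : 0 < P)
  have hP3 : (3 : ℝ) ≤ P := by exact_mod_cast hP
  have hlP1 : 1 < Real.log P := by
    have h3 : Real.exp 1 < P := lt_of_lt_of_le (by linarith [Real.exp_one_lt_d9]) hP3
    have := Real.log_lt_log (Real.exp_pos 1) h3
    rwa [Real.log_exp] at this
  set ε : ℝ := 1 / Real.log P with hε
  have hε0 : 0 < ε := by positivity
  have hε1 : ε ≤ 1 := by
    rw [hε, div_le_one (by linarith)]
    exact hlP1.le
  set e1 : ℝ := Real.exp (-1) with he1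
  have he1l : 1 / 3 < e1 := by
    rw [he1, Real.exp_neg, one_div]
    exact inv_strictAnti₀ (Real.exp_pos _) (by linarith [Real.exp_one_lt_d9])
  have he1u : e1 ≤ 1 / 2 := by
    rw [he1, Real.exp_neg, one_div]
    refine inv_anti₀ (by norm_num) ?_
    have := Real.add_one_le_exp (1 : ℝ)
    linarith
  set g2 : ℝ → ℝ := fun u => if e1 ≤ u then 1 else 0 with hg2
  have hg1b : ∀ u ∈ Set.Icc (0 : ℝ) 1, |(fun u : ℝ => u) u| ≤ 1 * u := fun u hu => by
    simp only [one_mul]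
    rw [abs_of_nonneg hu.1]
  have hg2b : ∀ u ∈ Set.Icc (0 : ℝ) 1, |g2 u| ≤ 3 * u := fun u hu => by
    simp only [hg2]
    split_ifs with h
    · rw [abs_one]
      linarith
    · rw [abs_zero]
      linarith [hu.1]
  have hd : ∀ u ∈ Set.Icc (0 : ℝ) 1, |(fun u : ℝ => u) u - g2 u| ≤ 3 * (u * (1 - u)) := by
    intro u hu
    simp only [hg2]
    split_ifs with h
    · rw [abs_of_nonpos (by linarith [hu.2])]
      nlinarith [hu.2]
    · rw [sub_zero, abs_of_nonneg hu.1]
      push Not at h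
      nlinarith [hu.1]
  have h1 := PS_sub_le hM (norm_ap hb) hg1b hg2b hd hε0 hε1 (by norm_num)
  have h2 : ‖PS (ap b) g2 ε‖ ≤ AS b P := by
    unfold Pool.Agent.R385.TA.PS
    set F : ℕ → ℂ := fun n => cf (ap b) n * ((g2 (Real.exp (-ε * Real.log n)) : ℝ) : ℂ) with hF
    set g : PY P → ℕ := fun p => ((p.1 : Nat.Primes) : ℕ) with hg
    have hgi : Function.Injective g := fun a c h => Subtype.ext (Subtype.ext h)
    have hsup : Function.support F ⊆ Set.range g := by
      intro n hn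
      have h3 : n.Prime := by
        by_contra h
        refine hn ?_
        simp only [hF, cf, if_neg h, zero_mul]
      have h4 : n ≤ P := by
        by_contra h
        push Not at h
        refine hn ?_
        have h5 : ¬ e1 ≤ Real.exp (-ε * Real.log n) := by
          rw [he1, Real.exp_le_exp]
          push Not
          have h6 : Real.log P < Real.log n := Real.log_lt_log hP0 (by exact_mod_cast h)
          have h7 : 1 < ε * Real.log n := by
            rw [hε, one_div, ← div_eq_inv_mul, one_lt_div (by linarith)]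
            exact h6
          linarith
        simp only [hF, hg2, if_neg h5, Complex.ofReal_zero, mul_zero]
      exact ⟨⟨⟨n, h3⟩, h4⟩, rfl⟩
    rw [← hgi.tsum_eq hsup, tsum_fintype]
    unfold AS
    refine norm_sum_le_of_le _ fun p _ => ?_
    simp only [hF, hg]
    unfold cf ap
    rw [if_pos p.1.2, dif_pos p.1.2, norm_mul, Complex.norm_real, norm_div, Complex.norm_natCast]
    have h5 : ‖g2 (Real.exp (-ε * Real.log ((p.1 : Nat.Primes) : ℕ)))‖ ≤ 1 := by
      simp only [hg2]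
      split_ifs <;> simp
    calc _ ≤ ‖b (p.1, 0)‖ / (((p.1 : Nat.Primes) : ℕ) : ℝ) * 1 :=
          mul_le_mul le_rfl h5 (norm_nonneg _) (by positivity)
      _ = _ := mul_one _
  have hs : 1 < (1 + (ε : ℂ)).re := by
    simp [hε0]
  rw [FF_split hb hs, first_PS]
  have h3 : ‖hpart b (1 + (ε : ℂ))‖ ≤ Kh M :=
    tsum_of_norm_bounded (wt_sh_summable.mul_left M).hasSum fun p => norm_tm_sh hb hs.le p
  have h4 : ‖PS (ap b) (fun u => u) ε‖ ≤ AS b P + 3 * (8 * Pool.Agent.W350.Edge.CC + 1) * M := by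
    have h5 := norm_sub_norm_le (PS (ap b) (fun u => u) ε) (PS (ap b) g2 ε)
    have h6 : M * 3 * (8 * Pool.Agent.W350.Edge.CC + 1) =
      3 * (8 * Pool.Agent.W350.Edge.CC + 1) * M := by ring
    linarith
  exact (norm_add_le _ _).trans (by linarith)

end Pool.Agent.R385.TL
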