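import Pool.Agent.R385.TL.Iff
import Pool.Agent.R385.TL.Num
import Pool.Agent.R385.FG.Num
import Pool.Agent.H474R2.GE.HomsUpper

/-!
# The primes of a number field
-/

set_option autoImplicit false

namespace Pool.Agent.R385.TL

open MeasureTheory Filter Topology NumberField IsDedekindDomain
open Pool.Agent.TH339.MP
open Pool.Agent.R409.ED
open Pool.Agent.R385.JD
open Pool.Agent.R385.FG
open Pool.Agent.H126R3 (Qc Qc_pos)

variable {F : Type} [Field F] [NumberField F]
variable {R : Finset (HeightOneSpectrum (𝓞 F))} {b : HeightOneSpectrum (𝓞 F) → ℝ} {C : ℝ}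

lemma cR_zero {x : PP} (h : Module.finrank ℚ F < x.2 + 1) : cR R b x = 0 := by
  classical
  unfold cR
  refine Finset.sum_eq_zero fun v hv => ?_
  rw [if_neg]
  rintro ⟨h1, _⟩
  have h2 : dg v - 1 = x.2 := congrArg Prod.snd h1
  have h3 := Finset.single_le_sum (f := fun v : HeightOneSpectrum (𝓞 F) => dg v)
    (fun _ _ => Nat.zero_le _) hv
  have h4 := sum_dg_le (K := F) x.1
  have h5 := dg_pos v
  omega

/-- the constant -/
noncomputable def MF (F : Type) [Field F] [NumberField F] (C : ℝ) : ℝ :=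
  (Module.finrank ℚ F : ℝ) ^ 2 * C

lemma cR_bound (hC : 0 ≤ C) (hb : ∀ v, v ∉ R → |b v| ≤ C) (x : PP) :
    ‖cR R b x‖ ≤ MF F C / (x.2 + 1 : ℕ) := by
  have hx : (0 : ℝ) < (x.2 + 1 : ℕ) := by positivity
  by_cases h : Module.finrank ℚ F < x.2 + 1
  · rw [cR_zero h, norm_zero]
    unfold MF
    positivity
  · push Not at h
    rw [le_div_iff₀ hx]
    have h1 := norm_cR hC hb x
    have h2 : ((x.2 + 1 : ℕ) : ℝ) ≤ Module.finrank ℚ F := by exact_mod_cast h
    calc ‖cR R b x‖ * ((x.2 + 1 : ℕ) : ℝ) ≤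
          (Module.finrank ℚ F * C) * Module.finrank ℚ F := by gcongr
      _ = MF F C := by unfold MF; ring

lemma cpow_pow (n : ℕ) (k : ℕ) (z : ℂ) : ((n ^ k : ℕ) : ℂ) ^ z = ((n : ℂ) ^ z) ^ k := by
  induction k with
  | zero => simp
  | succ k ih =>
    rw [pow_succ, Nat.cast_mul, Complex.natCast_mul_natCast_cpow, ih, pow_succ]

lemma FF_cR (c : PP → ℂ) (s : ℂ) : FF c s = ∑' x, c x * ((Qc x : ℕ) : ℂ) ^ (-s) := by
  unfold FF tm
  refine tsum_congr fun x => ?_
  unfold Qc
  rw [cpow_pow]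

/-- the boundary function -/
theorem re_bl (hC : 0 ≤ C) (hb : ∀ v, v ∉ R → |b v| ≤ C) :
    ∀ᵐ t : ℝ, cosSeries R b t = (bl (cR R b) t).re := by
  have hc : ∀ x, ‖cR R b x‖ ≤ Module.finrank ℚ F * C * (Qc x : ℝ) ^ 0 := fun x => by
    rw [pow_zero, mul_one]
    exact norm_cR hC hb x
  filter_upwards [cosSeries_ae hC hb, lam_radial (by positivity) hc, ae_notMem (cR_bound hC hb)]
    with t h1 h2 h3
  rw [h1.1]
  have h4 := rad (cR_bound hC hb) h3
  have h5 : Tendsto (fun ε : ℝ => Real.exp (FF (cR R b) (1 + t * Complex.I + ε)).re) (𝓝[>] 0)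
      (𝓝 (Real.exp (bl (cR R b) t).re)) :=
    ((Real.continuous_exp.comp Complex.continuous_re).tendsto _).comp h4
  have h6 : Real.exp (bl (cR R b) t).re = lam (cR R b) 0 t := by
    refine tendsto_nhds_unique h5 (h2.congr fun ε => ?_)
    unfold Lf
    rw [Complex.norm_exp, FF_cR]
    push_cast
    rw [zero_add]
  have h7 : lam (cR R b) 0 t = Real.exp (Ub (cR R b) 0 t) := by
    unfold lam Ub
    rw [Complex.norm_exp, ← Real.exp_add, Complex.add_re]
  rw [h7, Real.exp_eq_exp] at h6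
  exact h6.symm

/-- The sum of `b_v / q_v` over the primes `v ∉ R` for which `q_v` is a prime number at most `x`. -/
noncomputable def primeSum (R : Finset (HeightOneSpectrum (𝓞 F)))
    (b : HeightOneSpectrum (𝓞 F) → ℝ) (x : ℕ) : ℝ :=
  ∑ᶠ v ∈ {v : HeightOneSpectrum (𝓞 F) | v ∉ R ∧ (Ideal.absNorm v.asIdeal).Prime ∧
    Ideal.absNorm v.asIdeal ≤ x}, b v / Ideal.absNorm v.asIdeal

lemma primeSum_eq (hC : 0 ≤ C) (hb : ∀ v, v ∉ R → |b v| ≤ C) (P : ℕ) :
    ((primeSum R b P : ℝ) : ℂ) = ∑ p : PY P, cR R b (p.1, 0) / ((p.1 : ℕ) : ℂ) := by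
  classical
  set g : ℕ → ℂ := fun n => if n.Prime ∧ n ≤ P then (n : ℂ)⁻¹ else 0 with hg
  set i : PY P → PP := fun p => (p.1, 0) with hi
  have hii : Function.Injective i := fun a c h => Subtype.ext (congrArg Prod.fst h)
  have hgz : ∀ y : PP, y ∉ Set.range i → g (Qc y) = 0 := by
    intro y hy
    simp only [hg]
    rw [if_neg]
    rintro ⟨h1, h2⟩
    apply hy
    have h3 : y.2 = 0 := by
      unfold Qc at h1
      by_contra h
      exact Nat.Prime.not_prime_pow (by omega : 2 ≤ y.2 + 1) h1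
    have h4 : (y.1 : ℕ) ≤ P := by
      unfold Qc at h2
      rw [h3, zero_add, pow_one] at h2
      exact h2
    exact ⟨⟨y.1, h4⟩, Prod.ext rfl h3.symm⟩
  have hfin : (Function.support fun y : PP => g (Qc y)).Finite := by
    refine (Set.finite_range i).subset fun y hy => ?_
    by_contra h
    exact hy (hgz y h)
  have hsum : Summable fun x : Nat.Primes × ℕ => ‖g (Qc x)‖ := by
    refine summable_of_hasFiniteSupport (hfin.subset fun y hy => ?_)
    rw [Function.mem_support] at hy ⊢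
    exact fun h => hy (by rw [h, norm_zero])
  have h1 := (hasSum_v hC hb hsum).tsum_eq
  have h2 : ∑' x, cR R b x * g (Qc x) = ∑ p : PY P, cR R b (p.1, 0) / ((p.1 : ℕ) : ℂ) := by
    rw [← hii.tsum_eq (f := fun x => cR R b x * g (Qc x)) (fun y hy => by
      by_contra h
      exact hy (by simp only [hgz y h, mul_zero])), tsum_fintype]
    refine Finset.sum_congr rfl fun p _ => ?_
    simp only [hi, hg, Qc, zero_add, pow_one]
    rw [if_pos ⟨p.1.2, p.2⟩, div_eq_mul_inv]
  rw [← h2, h1]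
  have hfs : (Function.support fun v : HeightOneSpectrum (𝓞 F) =>
      if v ∈ R then (0 : ℂ) else ((b v : ℝ) : ℂ) * g (Ideal.absNorm v.asIdeal)).Finite := by
    have h3 : {v : HeightOneSpectrum (𝓞 F) | g (Qc (kv v)) ≠ 0}.Finite := by
      have h4 : {v : HeightOneSpectrum (𝓞 F) | g (Qc (kv v)) ≠ 0} =
          ⋃ c ∈ Function.support (fun y : PP => g (Qc y)), {v | kv v = c} := by
        ext z
        simp
      rw [h4]
      exact hfin.biUnion fun c _ => (Finset.finite_toSet _).subset (fib_sub c)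
    refine h3.subset fun v hv => ?_
    intro h
    apply hv
    rw [Qc_kv] at h
    simp only [h, mul_zero, ite_self]
  rw [tsum_eq_finsum hfs]
  unfold primeSum
  have h6 : ∀ f : HeightOneSpectrum (𝓞 F) → ℝ, (Function.support f).Finite →
      (((∑ᶠ v, f v : ℝ)) : ℂ) = ∑ᶠ v, ((f v : ℝ) : ℂ) := by
    intro f hf
    exact (Complex.ofRealHom : ℝ →+* ℂ).toAddMonoidHom.map_finsum hf
  rw [finsum_mem_def, h6]
  · refine finsum_congr fun v => ?_
    by_cases h7 : v ∈ R
    · rw [if_pos h7, Set.indicator_of_notMem (fun h => h.1 h7), Complex.ofReal_zero]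
    · rw [if_neg h7]
      by_cases h8 : (Ideal.absNorm v.asIdeal).Prime ∧ Ideal.absNorm v.asIdeal ≤ P
      · have hmem : v ∈ {v : HeightOneSpectrum (𝓞 F) | v ∉ R ∧ (Ideal.absNorm v.asIdeal).Prime ∧
            Ideal.absNorm v.asIdeal ≤ P} := ⟨h7, h8⟩
        rw [Set.indicator_of_mem hmem]
        simp only [hg]
        rw [if_pos h8]
        push_cast
        rw [div_eq_mul_inv]
      · rw [Set.indicator_of_notMem (fun h => h8 h.2)]
        simp only [hg]
        rw [if_neg h8, mul_zero, Complex.ofReal_zero]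
  · refine hfs.subset fun v hv => ?_
    rw [Function.mem_support] at hv ⊢
    intro h
    apply hv
    by_cases h7 : v ∈ R
    · rw [Set.indicator_of_notMem (fun h => h.1 h7)]
    · rw [if_neg h7] at h
      by_cases h8 : (Ideal.absNorm v.asIdeal).Prime ∧ Ideal.absNorm v.asIdeal ≤ P
      · have hmem : v ∈ {v : HeightOneSpectrum (𝓞 F) | v ∉ R ∧ (Ideal.absNorm v.asIdeal).Prime ∧
            Ideal.absNorm v.asIdeal ≤ P} := ⟨h7, h8⟩
        rw [Set.indicator_of_mem hmem]
        simp only [hg] at h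
        rw [if_pos h8] at h
        rcases mul_eq_zero.1 h with h9 | h9
        · rw [Complex.ofReal_eq_zero.1 h9, zero_div]
        · rw [inv_eq_zero] at h9
          have h10 : (Ideal.absNorm v.asIdeal) = 0 := by exact_mod_cast h9
          rw [h10]
          simp
      · rw [Set.indicator_of_notMem (fun h => h8 h.2)]

lemma cR_nonneg (hb : ∀ v, v ∉ R → 0 ≤ b v) (x : PP) : ∃ r : ℝ, 0 ≤ r ∧ cR R b x = (r : ℂ) := by
  classical
  refine ⟨∑ v ∈ (Sp x.1 : Finset (HeightOneSpectrum (𝓞 F))),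
    if kv v = x ∧ v ∉ R then b v else 0, Finset.sum_nonneg fun v _ => ?_, ?_⟩
  · split_ifs with h
    · exact hb v h.2
    · exact le_rfl
  · unfold cR
    push_cast
    refine Finset.sum_congr rfl fun v _ => ?_
    split_ifs <;> simp

lemma AS_cR (hC : 0 ≤ C) (hb : ∀ v, v ∉ R → |b v| ≤ C) (hb0 : ∀ v, v ∉ R → 0 ≤ b v) (P : ℕ) :
    AS (cR R b) P = primeSum R b P := by
  have h1 := primeSum_eq hC hb P
  choose r hr0 hr using fun x => cR_nonneg (R := R) hb0 x
  have h2 : ∑ p : PY P, cR R b (p.1, 0) / ((p.1 : ℕ) : ℂ) =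
      ((∑ p : PY P, r (p.1, 0) / (((p.1 : Nat.Primes) : ℕ) : ℝ) : ℝ) : ℂ) := by
    push_cast
    refine Finset.sum_congr rfl fun p _ => ?_
    rw [hr]
  rw [h2, Complex.ofReal_inj] at h1
  rw [h1]
  unfold AS
  refine Finset.sum_congr rfl fun p _ => ?_
  rw [hr, Complex.norm_real, Real.norm_of_nonneg (hr0 _)]

/-- **Nonnegative coefficients, the equivalences.** -/
theorem nonneg_iff (hC : 0 ≤ C) (hb : ∀ v, v ∉ R → |b v| ≤ C) (hb0 : ∀ v, v ∉ R → 0 ≤ b v)
    {κ : ℝ} (hκ : 0 < κ) :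
    (RareF κ (cosSeries R b) ↔
      ∃ C : ℝ, ∀ x : ℕ, 3 ≤ x → primeSum R b x ≤ κ * Real.log (Real.log x) + C) ∧
    (FreqF κ (cosSeries R b) ↔
      ∃ C : ℝ, ∀ x : ℕ, 3 ≤ x → κ * Real.log (Real.log x) - C ≤ primeSum R b x) := by
  have hae := re_bl hC hb
  have hset : ∀ V a T : ℝ, volume {t ∈ Set.Icc a (a + T) | V ≤ cosSeries R b t} =
      volume {t ∈ Set.Icc a (a + T) | V ≤ ((1 : ℂ) * bl (cR R b) t).re} := by
    intro V a T
    refine measure_congr ?_
    filter_upwards [hae] with t ht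
    refine propext (and_congr_right fun _ => ?_)
    show V ≤ cosSeries R b t ↔ _
    rw [ht, one_mul]
  have h1 := rare_iff (cR_bound hC hb) hκ (u := 1) (by simp)
  have h2 := freq_iff (cR_bound hC hb) hκ (u := 1) (by simp)
  constructor
  · rw [← (show RareF κ (fun t => ((1 : ℂ) * bl (cR R b) t).re) ↔ RareF κ (cosSeries R b) by
      unfold RareF
      simp only [hset]), h1]
    simp only [AS_cR hC hb hb0]
  · rw [← (show FreqF κ (fun t => ((1 : ℂ) * bl (cR R b) t).re) ↔ FreqF κ (cosSeries R b) by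
      unfold FreqF
      simp only [hset]), h2]
    simp only [AS_cR hC hb hb0]

end Pool.Agent.R385.TL
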