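import Pool.Agent.R385.TL.NF

/-!
# Sums over the primes of a number field: Mertens, linearity, signed coefficients
-/

set_option autoImplicit false

namespace Pool.Agent.R385.TL

open MeasureTheory Filter Topology NumberField IsDedekindDomain
open Pool.Agent.TH339.MP (pr dg Sp)
open Pool.Agent.R409.ED
open Pool.Agent.R385.FG
open Pool.Agent.H126R3 (Qc Qc_pos)

variable {F : Type} [Field F] [NumberField F]
variable {R : Finset (HeightOneSpectrum (𝓞 F))} {b : HeightOneSpectrum (𝓞 F) → ℝ} {C β : ℝ}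

/-- the primes -/
def PV (R : Finset (HeightOneSpectrum (𝓞 F))) (x : ℕ) : Set (HeightOneSpectrum (𝓞 F)) :=
  {v : HeightOneSpectrum (𝓞 F) | v ∉ R ∧ (Ideal.absNorm v.asIdeal).Prime ∧
    Ideal.absNorm v.asIdeal ≤ x}

lemma PV_finite (R : Finset (HeightOneSpectrum (𝓞 F))) (x : ℕ) : (PV R x).Finite := by
  have h3 : {v : HeightOneSpectrum (𝓞 F) | Qc (kv v) < x + 1}.Finite := by
    have h4 : {v : HeightOneSpectrum (𝓞 F) | Qc (kv v) < x + 1} =
        ⋃ c ∈ {c : Nat.Primes × ℕ | Qc c < x + 1}, {v | kv v = c} := by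
      ext z
      simp
    rw [h4]
    exact (finite_Qc (x + 1)).biUnion fun c _ => (Finset.finite_toSet _).subset (fib_sub c)
  refine h3.subset fun v hv => ?_
  have h5 := hv.2.2
  show Qc (kv v) < x + 1
  rw [Qc_kv]
  omega

lemma primeSum_fin (R : Finset (HeightOneSpectrum (𝓞 F))) (b : HeightOneSpectrum (𝓞 F) → ℝ) (x : ℕ) :
    primeSum R b x = ∑ v ∈ (PV_finite R x).toFinset, b v / Ideal.absNorm v.asIdeal :=
  finsum_mem_eq_finite_toFinset_sum _ _

lemma mem_PV {x : ℕ} {v : HeightOneSpectrum (𝓞 F)} : v ∈ (PV_finite R x).toFinset ↔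
    v ∉ R ∧ (Ideal.absNorm v.asIdeal).Prime ∧ Ideal.absNorm v.asIdeal ≤ x := by
  rw [Set.Finite.mem_toFinset]
  rfl

lemma primeSum_lin (x : ℕ) : primeSum R (fun v => β + b v) x =
    β * primeSum R (fun _ => 1) x + primeSum R b x := by
  rw [primeSum_fin, primeSum_fin, primeSum_fin, Finset.mul_sum, ← Finset.sum_add_distrib]
  refine Finset.sum_congr rfl fun v _ => ?_
  ring

lemma primeSum_nonneg (hb : ∀ v, v ∉ R → 0 ≤ b v) (x : ℕ) : 0 ≤ primeSum R b x := by
  rw [primeSum_fin]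
  exact Finset.sum_nonneg fun v hv => div_nonneg (hb v (mem_PV.1 hv).1) (by positivity)

lemma deg_one {p : Nat.Primes} (v : HeightOneSpectrum (𝓞 F)) (hv : Ideal.absNorm v.asIdeal = p) :
    Pool.Agent.H921R2.TatePole.deg v = 1 := by
  have h1 := (Pool.Agent.H921R2.TatePole.nm_eq v).1
  have h2 : Pool.Agent.H921R2.TatePole.nm v = (p : ℕ) := hv
  rw [h2] at h1
  have h3 : ((p : ℕ) : ℕ).Prime := p.2
  rw [h1] at h3
  exact Nat.Prime.eq_one_of_pow h3

lemma card_homs (p : Nat.Primes) : Nat.card (𝓞 F →+* ZMod (p : ℕ)) =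
    Nat.card {v : HeightOneSpectrum (𝓞 F) // Ideal.absNorm v.asIdeal = p} := by
  rw [Nat.card_congr (Equiv.ofBijective _ (Pool.Agent.H921R2.TatePole.kerPrime_bijective
    (K := F) p))]
  refine Nat.card_congr ⟨fun w => ⟨w.1.1, ?_⟩, fun v => ⟨⟨v.1, ?_⟩, ?_⟩, fun w => rfl, fun v => rfl⟩
  · have h1 := (Pool.Agent.H921R2.TatePole.nm_eq w.1.1).1
    rw [w.2, pow_one, w.1.2] at h1
    exact h1
  · have h1 := (Pool.Agent.H921R2.TatePole.nm_eq v.1).1
    have h2 : Pool.Agent.H921R2.TatePole.nm v.1 = (p : ℕ) := v.2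
    rw [h2] at h1
    rw [deg_one v.1 v.2, pow_one] at h1
    exact Subtype.ext h1.symm
  · exact deg_one v.1 v.2

lemma primeSum_homs (x : ℕ) : primeSum (∅ : Finset (HeightOneSpectrum (𝓞 F))) (fun _ => 1) x =
    ∑ p ∈ Pool.Agent.H474R2.PG.PR x, (Nat.card (𝓞 F →+* ZMod p) : ℝ) / (p : ℝ) := by
  classical
  rw [primeSum_fin]
  have h1 : ∀ v ∈ (PV_finite (∅ : Finset (HeightOneSpectrum (𝓞 F))) x).toFinset,
      Ideal.absNorm v.asIdeal ∈ Pool.Agent.H474R2.PG.PR x := by
    intro v hv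
    have h2 := (mem_PV.1 hv).2
    unfold Pool.Agent.H474R2.PG.PR
    rw [Finset.mem_filter, Finset.mem_Icc, Nat.floor_natCast]
    exact ⟨⟨h2.1.one_le, h2.2⟩, h2.1⟩
  rw [← Finset.sum_fiberwise_of_maps_to h1]
  refine Finset.sum_congr rfl fun p hp => ?_
  unfold Pool.Agent.H474R2.PG.PR at hp
  rw [Finset.mem_filter, Finset.mem_Icc, Nat.floor_natCast] at hp
  have h3 : ∑ v ∈ (PV_finite (∅ : Finset (HeightOneSpectrum (𝓞 F))) x).toFinset with
      Ideal.absNorm v.asIdeal = p, (1 : ℝ) / (Ideal.absNorm v.asIdeal : ℝ) =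
      ∑ v ∈ (PV_finite (∅ : Finset (HeightOneSpectrum (𝓞 F))) x).toFinset with
      Ideal.absNorm v.asIdeal = p, (1 : ℝ) / (p : ℝ) := by
    refine Finset.sum_congr rfl fun v hv => ?_
    rw [(Finset.mem_filter.1 hv).2]
  rw [h3, Finset.sum_const, nsmul_eq_mul, mul_one_div]
  congr 2
  have h4 := card_homs (F := F) ⟨p, hp.2⟩
  have h5 : Nat.card {v : HeightOneSpectrum (𝓞 F) // Ideal.absNorm v.asIdeal = p} =
      (Finset.filter (fun v : HeightOneSpectrum (𝓞 F) => Ideal.absNorm v.asIdeal = p)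
        (PV_finite (∅ : Finset (HeightOneSpectrum (𝓞 F))) x).toFinset).card := by
    refine Nat.subtype_card _ fun v => ?_
    rw [Finset.mem_filter, mem_PV]
    exact ⟨fun h => h.2, fun h => ⟨⟨Finset.notMem_empty _, by rw [h]; exact hp.2,
      by rw [h]; exact hp.1.2⟩, h⟩⟩
  rw [← h5]
  exact h4.symm

/-- **Mertens.** -/
theorem mertens (R : Finset (HeightOneSpectrum (𝓞 F))) : ∃ C : ℝ, 0 ≤ C ∧ ∀ x : ℕ, 3 ≤ x →
    |primeSum R (fun _ => 1) x - Real.log (Real.log x)| ≤ C := by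
  classical
  obtain ⟨C1, hC1⟩ := Pool.Agent.H474R2.PG.homs_lower F
  obtain ⟨C2, hC2⟩ := Pool.Agent.H474R2.GE.homs_upper F
  refine ⟨|C1| + |C2| + R.card, by positivity, fun x hx => ?_⟩
  have hx3 : (3 : ℝ) ≤ x := by exact_mod_cast hx
  have h1 := hC1 x hx3
  have h2 := hC2 x hx3
  rw [← primeSum_homs] at h1 h2
  have h3 : primeSum R (fun _ => 1) x ≤
      primeSum (∅ : Finset (HeightOneSpectrum (𝓞 F))) (fun _ => 1) x := by
    rw [primeSum_fin, primeSum_fin]
    refine Finset.sum_le_sum_of_subset_of_nonneg (fun v hv => ?_) fun v _ _ => by positivity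
    rw [mem_PV] at hv ⊢
    exact ⟨Finset.notMem_empty _, hv.2⟩
  have h4 : primeSum (∅ : Finset (HeightOneSpectrum (𝓞 F))) (fun _ => 1) x ≤
      primeSum R (fun _ => 1) x + R.card := by
    rw [primeSum_fin, primeSum_fin]
    have h5 : (PV_finite (∅ : Finset (HeightOneSpectrum (𝓞 F))) x).toFinset ⊆
        (PV_finite R x).toFinset ∪ R := by
      intro v hv
      rw [mem_PV] at hv
      rw [Finset.mem_union, mem_PV]
      by_cases h : v ∈ R
      · exact Or.inr h
      · exact Or.inl ⟨h, hv.2⟩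
    refine (Finset.sum_le_sum_of_subset_of_nonneg h5 fun v _ _ => by positivity).trans ?_
    rw [Finset.sum_union (Finset.disjoint_left.2 fun v hv hR => (mem_PV.1 hv).1 hR)]
    refine add_le_add le_rfl ?_
    refine (Finset.sum_le_card_nsmul _ _ 1 fun v _ => ?_).trans (by rw [nsmul_eq_mul, mul_one])
    rw [one_div]
    refine inv_le_one_of_one_le₀ ?_
    have h6 : 0 < Ideal.absNorm v.asIdeal := by
      rw [← Qc_kv]
      exact Qc_pos _
    exact_mod_cast h6
  have := le_abs_self C1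
  have := le_abs_self C2
  have := abs_nonneg C1
  have := abs_nonneg C2
  have : (0 : ℝ) ≤ R.card := by positivity
  rw [abs_le]
  constructor <;> linarith

end Pool.Agent.R385.TL
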