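import Pool.Agent.R385.TL.Sym

/-!
# The finite sums and the series near the edge, all distances
-/

set_option autoImplicit false

namespace Pool.Agent.R385.TL

open MeasureTheory Filter Topology
open Pool.Agent.TH339.MP
open Pool.Agent.R409.ED
open Pool.Agent.R385.JD
open Pool.Agent.R385.MC (cf)
open Pool.Agent.R385.TA (PS PS_sub_le)

/-- the sum up to `exp (1 / ε)` and the series at `1 + ε` -/
theorem FF_near_eps : ∃ C : ℝ, ∀ (b : PP → ℂ) (M : ℝ), (∀ x, ‖b x‖ ≤ M / (x.2 + 1 : ℕ)) →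
    ∀ ε : ℝ, 0 < ε → ε ≤ 1 → ‖FF b (1 + (ε : ℂ)) -
      ∑ p : PY ⌊Real.exp (1 / ε)⌋₊, b (p.1, 0) / ((p.1 : ℕ) : ℂ)‖ ≤ C * M + Kh M := by
  classical
  refine ⟨3 * (8 * Pool.Agent.W350.Edge.CC + 1), fun b M hb ε hε0 hε1 => ?_⟩
  have hM := M_nonneg hb
  set P : ℕ := ⌊Real.exp (1 / ε)⌋₊ with hP
  have hPe : (P : ℝ) ≤ Real.exp (1 / ε) := Nat.floor_le (Real.exp_pos _).le
  set e1 : ℝ := Real.exp (-1) with he1
  have he1l : 1 / 3 < e1 := by
    rw [he1, Real.exp_neg, one_div]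
    exact inv_strictAnti₀ (Real.exp_pos _) (by linarith [Real.exp_one_lt_d9])
  have he1u : e1 ≤ 1 / 2 := by
    rw [he1, Real.exp_neg, one_div]
    refine inv_anti₀ (by norm_num) ?_
    have := Real.add_one_le_exp (1 : ℝ)
    linarith
  set g2 : ℝ → ℝ := fun u => if e1 ≤ u then 1 else 0 with hg2
  have hg1b : ∀ u ∈ Set.Icc (0 : ℝ) 1, |(fun u : ℝ => u) u| ≤ 1 * u := fun u hu => by
    simp only [one_mul]
    rw [abs_of_nonneg hu.1]
  have hg2b : ∀ u ∈ Set.Icc (0 : ℝ) 1, |g2 u| ≤ 3 * u := fun u hu => by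
    simp only [hg2]
    split_ifs with h
    · rw [abs_one]
      linarith
    · rw [abs_zero]
      linarith [hu.1]
  have hd : ∀ u ∈ Set.Icc (0 : ℝ) 1, |(fun u : ℝ => u) u - g2 u| ≤ 3 * (u * (1 - u)) := by
    intro u hu
    simp only [hg2]
    split_ifs with h
    · rw [abs_of_nonpos (by linarith [hu.2])]
      nlinarith [hu.2]
    · rw [sub_zero, abs_of_nonneg hu.1]
      push Not at h
      nlinarith [hu.1]
  have h1 := PS_sub_le hM (norm_ap hb) hg1b hg2b hd hε0 hε1 (by norm_num)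
  have h2 : PS (ap b) g2 ε = ∑ p : PY P, b (p.1, 0) / ((p.1 : ℕ) : ℂ) := by
    unfold Pool.Agent.R385.TA.PS
    set F : ℕ → ℂ := fun n => cf (ap b) n * ((g2 (Real.exp (-ε * Real.log n)) : ℝ) : ℂ) with hF
    set g : PY P → ℕ := fun p => ((p.1 : Nat.Primes) : ℕ) with hg
    have hgi : Function.Injective g := fun a c h => Subtype.ext (Subtype.ext h)
    have hsup : Function.support F ⊆ Set.range g := by
      intro n hn
      have h3 : n.Prime := by
        by_contra h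
        refine hn ?_
        simp only [hF, cf, if_neg h, zero_mul]
      have hn0 : (0 : ℝ) < n := by exact_mod_cast h3.pos
      have h4 : n ≤ P := by
        by_contra h
        push Not at h
        refine hn ?_
        have h5 : ¬ e1 ≤ Real.exp (-ε * Real.log n) := by
          rw [he1, Real.exp_le_exp]
          push Not
          have h6 : Real.exp (1 / ε) < n := (Nat.floor_lt (Real.exp_pos _).le).1 h
          have h7 : 1 / ε < Real.log n := by
            rw [Real.lt_log_iff_exp_lt hn0]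
            exact h6
          rw [div_lt_iff₀ hε0] at h7
          linarith
        simp only [hF, hg2, if_neg h5, Complex.ofReal_zero, mul_zero]
      exact ⟨⟨⟨n, h3⟩, h4⟩, rfl⟩
    rw [← hgi.tsum_eq hsup, tsum_fintype]
    refine Finset.sum_congr rfl fun p _ => ?_
    simp only [hF, hg]
    unfold cf ap
    rw [if_pos p.1.2, dif_pos p.1.2]
    have h5 : g2 (Real.exp (-ε * Real.log ((p.1 : Nat.Primes) : ℕ))) = 1 := by
      simp only [hg2]
      rw [if_pos]
      rw [he1, Real.exp_le_exp]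
      have hp0 : (0 : ℝ) < (((p.1 : Nat.Primes) : ℕ) : ℝ) := by exact_mod_cast p.1.2.pos
      have h6 : Real.log (((p.1 : Nat.Primes) : ℕ) : ℝ) ≤ 1 / ε := by
        rw [Real.log_le_iff_le_exp hp0]
        refine le_trans ?_ hPe
        exact_mod_cast p.2
      rw [le_div_iff₀ hε0] at h6
      linarith
    rw [h5, Complex.ofReal_one, mul_one]
    rfl
  have hs : 1 < (1 + (ε : ℂ)).re := by
    simp [hε0]
  rw [FF_split hb hs, first_PS]
  have h3 : ‖hpart b (1 + (ε : ℂ))‖ ≤ Kh M :=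
    tsum_of_norm_bounded (wt_sh_summable.mul_left M).hasSum fun p => norm_tm_sh hb hs.le p
  rw [h2] at h1
  have h6 : M * 3 * (8 * Pool.Agent.W350.Edge.CC + 1) =
    3 * (8 * Pool.Agent.W350.Edge.CC + 1) * M := by ring
  have e : PS (ap b) (fun u => u) ε + hpart b (1 + (ε : ℂ)) -
      ∑ p : PY P, b (p.1, 0) / ((p.1 : ℕ) : ℂ) =
      (PS (ap b) (fun u => u) ε - ∑ p : PY P, b (p.1, 0) / ((p.1 : ℕ) : ℂ)) +
        hpart b (1 + (ε : ℂ)) := by ring
  rw [e]
  exact (norm_add_le _ _).trans (by linarith)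

/-- `log log ⌊exp (1 / ε)⌋` -/
lemma loglog_floor {ε : ℝ} (hε : 0 < ε) (hε1 : ε ≤ 1 / 2) :
    3 ≤ ⌊Real.exp (1 / ε)⌋₊ ∧
      |Real.log (Real.log ⌊Real.exp (1 / ε)⌋₊) - Real.log (1 / ε)| ≤ Real.log 2 := by
  have h1 : 2 ≤ 1 / ε := by
    rw [le_div_iff₀ hε]
    linarith
  have he2 : (6 : ℝ) ≤ Real.exp 2 := by
    have h2 : Real.exp 2 = Real.exp 1 * Real.exp 1 := by rw [← Real.exp_add]; norm_num
    rw [h2]
    have h3 : (2.7 : ℝ) < Real.exp 1 := lt_trans (by norm_num) Real.exp_one_gt_d9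
    nlinarith
  have h3 : (6 : ℝ) ≤ Real.exp (1 / ε) := he2.trans (Real.exp_le_exp.2 h1)
  set X : ℝ := Real.exp (1 / ε) with hX
  have hN : 3 ≤ ⌊X⌋₊ := Nat.le_floor (by push_cast; linarith)
  refine ⟨hN, ?_⟩
  have hNX : (⌊X⌋₊ : ℝ) ≤ X := Nat.floor_le (by linarith)
  have hN3 : (3 : ℝ) ≤ ⌊X⌋₊ := by exact_mod_cast hN
  have hlow : X / 2 ≤ (⌊X⌋₊ : ℝ) := by
    have := Nat.lt_floor_add_one X
    linarith
  have hlX : Real.log X = 1 / ε := Real.log_exp _
  have h4 : Real.log X - Real.log 2 ≤ Real.log ⌊X⌋₊ := by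
    rw [← Real.log_div (by linarith) (by norm_num)]
    exact Real.log_le_log (by linarith) hlow
  have h5 : Real.log ⌊X⌋₊ ≤ Real.log X := Real.log_le_log (by linarith) hNX
  have hl2 : Real.log 2 < 0.6931471808 := Real.log_two_lt_d9
  have h6 : Real.log X / 2 ≤ Real.log ⌊X⌋₊ := by
    rw [hlX] at h4 ⊢
    linarith
  have h7 : 0 < Real.log X := by rw [hlX]; positivity
  have h8 : 0 < Real.log ⌊X⌋₊ := by linarith
  rw [← hlX, abs_le]
  constructor
  · have h9 : Real.log (Real.log X / 2) ≤ Real.log (Real.log ⌊X⌋₊) :=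
      Real.log_le_log (by linarith) h6
    rw [Real.log_div h7.ne' (by norm_num)] at h9
    linarith
  · have h9 : Real.log (Real.log ⌊X⌋₊) ≤ Real.log (Real.log X) := Real.log_le_log h8 h5
    have h10 : 0 ≤ Real.log 2 := Real.log_nonneg (by norm_num)
    linarith

end Pool.Agent.R385.TL
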