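import Pool.Agent.R385.TL.Near2

/-!
# The radial order at a point of the edge and the frequency of large values
-/

set_option autoImplicit false

namespace Pool.Agent.R385.TL

open MeasureTheory Filter Topology
open Pool.Agent.TH339.MP
open Pool.Agent.R409.ED
open Pool.Agent.R385.JD

variable {c : PP → ℂ} {M : ℝ} {l : ℝ → ℝ}

/-- In all long intervals the set where `Λ ≥ y` has a proportion at most `exp (-exp (c y^{1/κ}))`, for
some `c > 0` and all large `y`. -/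
def RareM (κ : ℝ) (Λ : ℝ → ℝ) : Prop :=
  ∃ c : ℝ, 0 < c ∧ ∃ y₀ : ℝ, 0 < y₀ ∧ ∀ y : ℝ, y₀ ≤ y → ∃ T₀ : ℝ, ∀ a T : ℝ, T₀ ≤ T →
    volume {t ∈ Set.Icc a (a + T) | y ≤ Λ t} ≤
      ENNReal.ofReal (Real.exp (-Real.exp (c * y ^ (1 / κ))) * T)

/-- In all long intervals the set where `Λ ≥ y` has a proportion at least `exp (-exp (c y^{1/κ}))`, for
some `c > 0` and all large `y`. -/
def FreqM (κ : ℝ) (Λ : ℝ → ℝ) : Prop :=
  ∃ c : ℝ, 0 < c ∧ ∃ y₀ : ℝ, 0 < y₀ ∧ ∀ y : ℝ, y₀ ≤ y → ∃ T₀ : ℝ, ∀ a T : ℝ, T₀ ≤ T →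
    ENNReal.ofReal (Real.exp (-Real.exp (c * y ^ (1 / κ))) * T) ≤
      volume {t ∈ Set.Icc a (a + T) | y ≤ Λ t}

lemma set_exp {f Λ : ℝ → ℝ} (h : ∀ᵐ t : ℝ, Λ t = Real.exp (f t)) (V a T : ℝ) :
    volume {t ∈ Set.Icc a (a + T) | Real.exp V ≤ Λ t} = volume {t ∈ Set.Icc a (a + T) | V ≤ f t} := by
  refine measure_congr ?_
  filter_upwards [h] with t ht
  refine propext (and_congr_right fun _ => ?_)
  show Real.exp V ≤ Λ t ↔ _
  rw [ht, Real.exp_le_exp]

lemma exp_pow (V κ : ℝ) : Real.exp V ^ (1 / κ) = Real.exp (V / κ) := by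
  rw [← Real.exp_mul]
  congr 1
  ring

lemma rareM_iff {f Λ : ℝ → ℝ} {κ : ℝ} (h : ∀ᵐ t : ℝ, Λ t = Real.exp (f t)) :
    RareM κ Λ ↔ RareF κ f := by
  constructor
  · rintro ⟨c, hc, y₀, hy₀, h1⟩
    refine ⟨c, hc, Real.log y₀, fun V hV => ?_⟩
    have h2 := h1 (Real.exp V) (by rwa [← Real.log_le_iff_le_exp hy₀])
    simpa only [set_exp h, exp_pow] using h2
  · rintro ⟨c, hc, V0, h1⟩
    refine ⟨c, hc, Real.exp V0, Real.exp_pos _, fun y hy => ?_⟩
    have hy0 : 0 < y := lt_of_lt_of_le (Real.exp_pos _) hy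
    have h2 := h1 (Real.log y) (by rwa [Real.le_log_iff_exp_le hy0])
    rw [← Real.exp_log hy0]
    simpa only [set_exp h, exp_pow, Real.log_exp] using h2

lemma freqM_iff {f Λ : ℝ → ℝ} {κ : ℝ} (h : ∀ᵐ t : ℝ, Λ t = Real.exp (f t)) :
    FreqM κ Λ ↔ FreqF κ f := by
  constructor
  · rintro ⟨c, hc, y₀, hy₀, h1⟩
    refine ⟨c, hc, Real.log y₀, fun V hV => ?_⟩
    have h2 := h1 (Real.exp V) (by rwa [← Real.log_le_iff_le_exp hy₀])
    simpa only [set_exp h, exp_pow] using h2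
  · rintro ⟨c, hc, V0, h1⟩
    refine ⟨c, hc, Real.exp V0, Real.exp_pos _, fun y hy => ?_⟩
    have hy0 : 0 < y := lt_of_lt_of_le (Real.exp_pos _) hy
    have h2 := h1 (Real.log y) (by rwa [Real.le_log_iff_exp_le hy0])
    rw [← Real.exp_log hy0]
    simpa only [set_exp h, exp_pow, Real.log_exp] using h2

/-- `l(t)` is the limit of `exp Re FF c (1 + ε + it)` for `ε → 0+`, for almost all `t` -/
def IsMod (c : PP → ℂ) (l : ℝ → ℝ) : Prop :=
  ∀ᵐ t : ℝ, Tendsto (fun ε : ℝ => Real.exp (FF c (((1 + ε : ℝ) : ℂ) + t * Complex.I)).re)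
    (𝓝[>] 0) (𝓝 (l t))

/-- `Λ(t) = |ζ(1 + it)|^{2M} l(t₀ + t) l(t₀ - t)` -/
noncomputable def Lam (M t₀ : ℝ) (l : ℝ → ℝ) (t : ℝ) : ℝ :=
  ‖riemannZeta (1 + t * Complex.I)‖ ^ (2 * M) * l (t₀ + t) * l (t₀ - t)

lemma isMod_exists (hc : ∀ x, ‖c x‖ ≤ M / (x.2 + 1 : ℕ)) :
    IsMod c fun t => Real.exp (bl c t).re := by
  unfold IsMod
  filter_upwards [ae_notMem hc] with t ht
  have h1 := rad hc ht
  have h2 : Tendsto (fun z : ℂ => Real.exp z.re) (𝓝 (bl c t)) (𝓝 (Real.exp (bl c t).re)) :=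
    (Real.continuous_exp.comp Complex.continuous_re).tendsto _
  refine (h2.comp h1).congr fun ε => ?_
  simp only [Function.comp_apply]
  congr 3
  push_cast
  ring

lemma ae_add {p : ℝ → Prop} (h : ∀ᵐ t : ℝ, p t) (t₀ : ℝ) : ∀ᵐ t : ℝ, p (t₀ + t) :=
  (measurePreserving_add_left volume t₀).quasiMeasurePreserving.ae h

lemma ae_sub {p : ℝ → Prop} (h : ∀ᵐ t : ℝ, p t) (t₀ : ℝ) : ∀ᵐ t : ℝ, p (t₀ - t) :=
  (Measure.measurePreserving_sub_left volume t₀).quasiMeasurePreserving.ae h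

lemma lam_eq (hc : ∀ x, ‖c x‖ ≤ M / (x.2 + 1 : ℕ)) (hl : IsMod c l) (t₀ : ℝ) :
    ∀ᵐ t : ℝ, Lam M t₀ l t = Real.exp (bl (sy c M t₀) t).re := by
  have hM := M_nonneg hc
  have h0 : ∀ᵐ t : ℝ, t ≠ 0 := by
    rw [ae_iff]
    simp
  filter_upwards [ae_notMem (sy_bound hc t₀), ae_add hl t₀, ae_sub hl t₀, h0] with t h1 h2 h3 h4
  have h5 := rad (sy_bound hc t₀) h1
  have h6 : Tendsto (fun z : ℂ => Real.exp z.re) (𝓝 (bl (sy c M t₀) t))
      (𝓝 (Real.exp (bl (sy c M t₀) t).re)) :=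
    (Real.continuous_exp.comp Complex.continuous_re).tendsto _
  have h7 := h6.comp h5
  refine tendsto_nhds_unique ?_ h7
  -- the zeta factor
  have hne : (1 : ℂ) + t * Complex.I ≠ 1 := by
    intro h
    have h8 : ((t : ℂ) * Complex.I) = 0 := by linear_combination h
    rcases mul_eq_zero.1 h8 with h9 | h9
    · exact h4 (by exact_mod_cast h9)
    · exact Complex.I_ne_zero h9
  have h8 : Tendsto (fun ε : ℝ => (1 : ℂ) + t * Complex.I + (ε : ℂ)) (𝓝[>] 0)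
      (𝓝 (1 + t * Complex.I)) := by
    have h9 : Tendsto (fun ε : ℝ => (1 : ℂ) + t * Complex.I + (ε : ℂ)) (𝓝 0)
        (𝓝 (1 + t * Complex.I + ((0 : ℝ) : ℂ))) :=
      (continuous_const.add Complex.continuous_ofReal).tendsto _
    rw [Complex.ofReal_zero, add_zero] at h9
    exact h9.mono_left nhdsWithin_le_nhds
  have h9 : Tendsto (fun ε : ℝ => ‖riemannZeta ((1 : ℂ) + t * Complex.I + (ε : ℂ))‖ ^ (2 * M))
      (𝓝[>] 0) (𝓝 (‖riemannZeta (1 + t * Complex.I)‖ ^ (2 * M))) := by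
    have h10 := ((differentiableAt_riemannZeta hne).continuousAt.tendsto.comp h8).norm
    exact h10.rpow_const (Or.inr (by positivity))
  refine ((h9.mul h2).mul h3).congr' ?_
  filter_upwards [self_mem_nhdsWithin] with ε hε
  have hε0 : (0 : ℝ) < ε := hε
  have hs : 1 < ((1 : ℂ) + t * Complex.I + (ε : ℂ)).re := by simp [hε0]
  simp only [Function.comp_apply]
  rw [FF_sy hc t₀ hs, Real.exp_add, Real.exp_add]
  congr 1
  · congr 1
    · rw [← exp_zc hs, Complex.norm_exp, ← Real.exp_mul]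
      congr 1
      ring
    · congr 3
      push_cast
      ring
  · congr 3
    simp only [map_add, map_one, map_mul, Complex.conj_ofReal, Complex.conj_I]
    push_cast
    ring

/-- the comparison of the sums and the series at all distances -/
lemma compare_eps (hc : ∀ x, ‖c x‖ ≤ M / (x.2 + 1 : ℕ)) (t₀ : ℝ) : ∃ K : ℝ, ∀ ε : ℝ, 0 < ε →
    ε ≤ 1 / 2 → |AS (sy c M t₀) ⌊Real.exp (1 / ε)⌋₊ - (2 * M * Real.log (1 / ε) +
      2 * (FF c (((1 + ε : ℝ) : ℂ) + t₀ * Complex.I)).re)| ≤ K := by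
  have hM := M_nonneg hc
  obtain ⟨C1, hC1⟩ := FF_near_eps
  obtain ⟨C2, hC2⟩ := Erdos456.Mert.mertens_inv
  have ht : ∀ x, ‖tw c t₀ x‖ ≤ M / (x.2 + 1 : ℕ) := fun x => (norm_tw t₀ x).le.trans (hc x)
  refine ⟨2 * M * (C2 + Real.log 2) + 2 * (C1 * M + Kh M), fun ε hε hε1 => ?_⟩
  obtain ⟨hP, hll⟩ := loglog_floor hε hε1
  set P : ℕ := ⌊Real.exp (1 / ε)⌋₊ with hPdef
  have h1 := hC1 (tw c t₀) M ht ε hε (by linarith)
  rw [FF_tw] at h1
  have h2 := (Complex.abs_re_le_norm _).trans h1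
  rw [Complex.sub_re] at h2
  have h3 : (1 : ℂ) + (ε : ℂ) + t₀ * Complex.I = ((1 + ε : ℝ) : ℂ) + t₀ * Complex.I := by
    push_cast
    ring
  rw [h3] at h2
  have h4 := hC2 P hP
  rw [AS_sy hc]
  set S1 : ℝ := ∑ p ∈ (Finset.Icc 1 P).filter Nat.Prime, (1 : ℝ) / p with hS1
  set G : ℝ := (FF c (((1 + ε : ℝ) : ℂ) + t₀ * Complex.I)).re with hG
  set Z : ℝ := (∑ p : PY P, tw c t₀ (p.1, 0) / ((p.1 : ℕ) : ℂ)).re with hZ
  have e : 2 * M * S1 + 2 * Z - (2 * M * Real.log (1 / ε) + 2 * G) =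
      2 * M * ((S1 - Real.log (Real.log P)) + (Real.log (Real.log P) - Real.log (1 / ε))) +
        -(2 * (G - Z)) := by ring
  rw [e]
  refine (abs_add_le _ _).trans (add_le_add ?_ ?_)
  · rw [abs_mul, abs_of_nonneg (a := 2 * M) (by positivity)]
    refine mul_le_mul_of_nonneg_left ?_ (by positivity)
    exact (abs_add_le _ _).trans (add_le_add h4 hll)
  · rw [abs_neg, abs_mul, abs_two]
    exact mul_le_mul_of_nonneg_left h2 (by norm_num)

lemma tendsto_inv_log : Tendsto (fun P : ℕ => 1 / Real.log P) atTop (𝓝[>] 0) := by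
  rw [tendsto_nhdsWithin_iff]
  constructor
  · have h2 : Tendsto (fun x : ℕ => Real.log x) atTop atTop :=
      Real.tendsto_log_atTop.comp tendsto_natCast_atTop_atTop
    refine h2.inv_tendsto_atTop.congr fun x => ?_
    rw [Pi.inv_apply, one_div]
  · filter_upwards [eventually_ge_atTop 3] with x hx
    have := one_lt_loglog hx
    exact Set.mem_Ioi.2 (by positivity)

lemma floor_eq {P : ℕ} (hP : 3 ≤ P) : ⌊Real.exp (1 / (1 / Real.log P))⌋₊ = P := by
  have hP0 : (0 : ℝ) < P := by exact_mod_cast (by omega : 0 < P)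
  rw [one_div_one_div, Real.exp_log hP0, Nat.floor_natCast]

lemma ev_half : ∀ᶠ ε : ℝ in 𝓝[>] 0, 0 < ε ∧ ε ≤ 1 / 2 := by
  have h1 : ∀ᶠ ε : ℝ in 𝓝 0, ε < 1 / 2 := eventually_lt_nhds (by norm_num)
  filter_upwards [self_mem_nhdsWithin, eventually_nhdsWithin_of_eventually_nhds h1] with ε h2 h3
  exact ⟨h2, h3.le⟩

lemma ev_bound' {f : ℕ → ℝ} (h : ∀ᶠ x in atTop, f x ≤ 0) : ∃ C : ℝ, ∀ x, f x ≤ C := by
  obtain ⟨N, hN⟩ := eventually_atTop.1 h
  refine ⟨∑ x ∈ Finset.range N, |f x|, fun x => ?_⟩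
  rcases lt_or_ge x N with h1 | h1
  · exact (le_abs_self _).trans (Finset.single_le_sum (f := fun x => |f x|)
      (fun _ _ => abs_nonneg _) (Finset.mem_range.2 h1))
  · exact (hN x h1).trans (Finset.sum_nonneg fun _ _ => abs_nonneg _)

/-- **The radial order and the frequency of large values.** -/
theorem order_iff (hc : ∀ x, ‖c x‖ ≤ M / (x.2 + 1 : ℕ)) (hl : IsMod c l) (t₀ : ℝ) {r : ℝ}
    (hr : 0 < M + r) :
    (RareM (2 * (M + r)) (Lam M t₀ l) ↔ ∃ C : ℝ, ∀ᶠ ε : ℝ in 𝓝[>] 0,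
      (FF c (((1 + ε : ℝ) : ℂ) + t₀ * Complex.I)).re ≤ r * Real.log (1 / ε) + C) ∧
    (FreqM (2 * (M + r)) (Lam M t₀ l) ↔ ∃ C : ℝ, ∀ᶠ ε : ℝ in 𝓝[>] 0,
      r * Real.log (1 / ε) - C ≤ (FF c (((1 + ε : ℝ) : ℂ) + t₀ * Complex.I)).re) := by
  obtain ⟨K, hK⟩ := compare_eps hc t₀
  have hκ : 0 < 2 * (M + r) := by positivity
  have hae := lam_eq hc hl t₀
  have hae' : ∀ᵐ t : ℝ, Lam M t₀ l t = Real.exp (((1 : ℂ) * bl (sy c M t₀) t).re) := by
    filter_upwards [hae] with t ht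
    rw [ht, one_mul]
  have h1 := rare_iff (sy_bound hc t₀) hκ (u := 1) (by simp)
  have h2 := freq_iff (sy_bound hc t₀) hκ (u := 1) (by simp)
  rw [rareM_iff hae', freqM_iff hae', h1, h2]
  constructor
  · constructor
    · rintro ⟨C, hC⟩
      refine ⟨(C + K + 2 * (M + r) * Real.log 2) / 2, ?_⟩
      filter_upwards [ev_half] with ε hε
      obtain ⟨hP, hll⟩ := loglog_floor hε.1 hε.2
      have h3 := hC _ hP
      have h4 := (abs_le.1 (hK ε hε.1 hε.2)).1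
      have h5 := (abs_le.1 hll).2
      have h6 : 2 * (M + r) * Real.log (Real.log ⌊Real.exp (1 / ε)⌋₊) ≤
          2 * (M + r) * (Real.log (1 / ε) + Real.log 2) :=
        mul_le_mul_of_nonneg_left (by linarith) hκ.le
      linarith
    · rintro ⟨C, hC⟩
      obtain ⟨C', hC'⟩ := ev_bound' (f := fun P : ℕ => AS (sy c M t₀) P -
        2 * (M + r) * Real.log (Real.log P) - (2 * C + K)) (by
        filter_upwards [tendsto_inv_log.eventually hC, tendsto_inv_log.eventually ev_half,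
          eventually_ge_atTop 3] with P h3 h4 h5
        have h6 := (abs_le.1 (hK _ h4.1 h4.2)).2
        rw [floor_eq h5] at h6
        have h7 : Real.log (1 / (1 / Real.log P)) = Real.log (Real.log P) := by
          rw [one_div_one_div]
        rw [h7] at h3 h6
        linarith)
      exact ⟨C' + (2 * C + K), fun P _ => by linarith [hC' P]⟩
  · constructor
    · rintro ⟨C, hC⟩
      refine ⟨(C + K + 2 * (M + r) * Real.log 2) / 2, ?_⟩
      filter_upwards [ev_half] with ε hε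
      obtain ⟨hP, hll⟩ := loglog_floor hε.1 hε.2
      have h3 := hC _ hP
      have h4 := (abs_le.1 (hK ε hε.1 hε.2)).2
      have h5 := (abs_le.1 hll).1
      have h6 : 2 * (M + r) * (Real.log (1 / ε) - Real.log 2) ≤
          2 * (M + r) * Real.log (Real.log ⌊Real.exp (1 / ε)⌋₊) :=
        mul_le_mul_of_nonneg_left (by linarith) hκ.le
      linarith
    · rintro ⟨C, hC⟩
      obtain ⟨C', hC'⟩ := ev_bound' (f := fun P : ℕ =>
        2 * (M + r) * Real.log (Real.log P) - AS (sy c M t₀) P - (2 * C + K)) (by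
        filter_upwards [tendsto_inv_log.eventually hC, tendsto_inv_log.eventually ev_half,
          eventually_ge_atTop 3] with P h3 h4 h5
        have h6 := (abs_le.1 (hK _ h4.1 h4.2)).1
        rw [floor_eq h5] at h6
        have h7 : Real.log (1 / (1 / Real.log P)) = Real.log (Real.log P) := by
          rw [one_div_one_div]
        rw [h7] at h3 h6
        linarith)
      exact ⟨C' + (2 * C + K), fun P _ => by linarith [hC' P]⟩

end Pool.Agent.R385.TL
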