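import Pool.Agent.R385.TL.Ord

/-!
# The size along a radius, the order of a meromorphic continuation, and the frequency of large values
-/

set_option autoImplicit false

namespace Pool.Agent.R385.TL

open MeasureTheory Filter Topology
open Pool.Agent.TH339.MP
open Pool.Agent.R409.ED
open Pool.Agent.R385.JD

variable {c : PP → ℂ} {M : ℝ} {l : ℝ → ℝ}

/-- `|L(s₀ + ε)| ≤ C ε^{-r}` for some `C` and all small `ε > 0`. -/
def RadUpper (L : ℂ → ℂ) (s₀ : ℂ) (r : ℝ) : Prop :=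
  ∃ C : ℝ, ∀ᶠ ε : ℝ in 𝓝[>] 0, ‖L (s₀ + (ε : ℂ))‖ ≤ C * ε ^ (-r)

/-- `|L(s₀ + ε)| ≥ c ε^{-r}` for some `c > 0` and all small `ε > 0`. -/
def RadLower (L : ℂ → ℂ) (s₀ : ℂ) (r : ℝ) : Prop :=
  ∃ c : ℝ, 0 < c ∧ ∀ᶠ ε : ℝ in 𝓝[>] 0, c * ε ^ (-r) ≤ ‖L (s₀ + (ε : ℂ))‖

/-- `L(s₀ + ε)` is the exponential of the series at `1 + ε + i t₀` -/
def IsExp (c : PP → ℂ) (t₀ : ℝ) (L : ℂ → ℂ) (s₀ : ℂ) : Prop :=
  ∀ ε : ℝ, 0 < ε → L (s₀ + (ε : ℂ)) = Complex.exp (FF c (((1 + ε : ℝ) : ℂ) + t₀ * Complex.I))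

lemma norm_isExp {t₀ : ℝ} {L : ℂ → ℂ} {s₀ : ℂ} (h : IsExp c t₀ L s₀) {ε : ℝ} (hε : 0 < ε) :
    ‖L (s₀ + (ε : ℂ))‖ = Real.exp (FF c (((1 + ε : ℝ) : ℂ) + t₀ * Complex.I)).re := by
  rw [h ε hε, Complex.norm_exp]

lemma rpow_exp {ε r : ℝ} (hε : 0 < ε) : ε ^ (-r) = Real.exp (r * Real.log (1 / ε)) := by
  rw [Real.rpow_def_of_pos hε, one_div, Real.log_inv]
  congr 1
  ring

lemma radUpper_iff {t₀ : ℝ} {L : ℂ → ℂ} {s₀ : ℂ} (h : IsExp c t₀ L s₀) (r : ℝ) :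
    RadUpper L s₀ r ↔ ∃ C : ℝ, ∀ᶠ ε : ℝ in 𝓝[>] 0,
      (FF c (((1 + ε : ℝ) : ℂ) + t₀ * Complex.I)).re ≤ r * Real.log (1 / ε) + C := by
  constructor
  · rintro ⟨C, hC⟩
    refine ⟨Real.log (max C 1), ?_⟩
    filter_upwards [hC, self_mem_nhdsWithin] with ε h1 hε
    have hε0 : (0 : ℝ) < ε := hε
    rw [norm_isExp h hε0, rpow_exp hε0] at h1
    have hC0 : (0 : ℝ) < max C 1 := lt_of_lt_of_le one_pos (le_max_right _ _)
    have h2 : Real.exp (FF c (((1 + ε : ℝ) : ℂ) + t₀ * Complex.I)).re ≤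
        Real.exp (r * Real.log (1 / ε) + Real.log (max C 1)) := by
      rw [Real.exp_add, Real.exp_log hC0]
      exact (h1.trans (mul_le_mul_of_nonneg_right (le_max_left C 1) (Real.exp_pos _).le)).trans_eq
        (mul_comm _ _)
    exact Real.exp_le_exp.1 h2
  · rintro ⟨C, hC⟩
    refine ⟨Real.exp C, ?_⟩
    filter_upwards [hC, self_mem_nhdsWithin] with ε h1 hε
    have hε0 : (0 : ℝ) < ε := hε
    rw [norm_isExp h hε0, rpow_exp hε0, ← Real.exp_add, Real.exp_le_exp]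
    linarith

lemma radLower_iff {t₀ : ℝ} {L : ℂ → ℂ} {s₀ : ℂ} (h : IsExp c t₀ L s₀) (r : ℝ) :
    RadLower L s₀ r ↔ ∃ C : ℝ, ∀ᶠ ε : ℝ in 𝓝[>] 0,
      r * Real.log (1 / ε) - C ≤ (FF c (((1 + ε : ℝ) : ℂ) + t₀ * Complex.I)).re := by
  constructor
  · rintro ⟨C, hC0, hC⟩
    refine ⟨-Real.log C, ?_⟩
    filter_upwards [hC, self_mem_nhdsWithin] with ε h1 hε
    have hε0 : (0 : ℝ) < ε := hε
    rw [norm_isExp h hε0, rpow_exp hε0, ← Real.exp_log hC0, ← Real.exp_add,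
      Real.exp_le_exp] at h1
    linarith
  · rintro ⟨C, hC⟩
    refine ⟨Real.exp (-C), Real.exp_pos _, ?_⟩
    filter_upwards [hC, self_mem_nhdsWithin] with ε h1 hε
    have hε0 : (0 : ℝ) < ε := hε
    rw [norm_isExp h hε0, rpow_exp hε0, ← Real.exp_add, Real.exp_le_exp]
    linarith

/-- **The size along the radius.** -/
theorem rad_iff (hc : ∀ x, ‖c x‖ ≤ M / (x.2 + 1 : ℕ)) (hl : IsMod c l) {t₀ : ℝ} {L : ℂ → ℂ}
    {s₀ : ℂ} (hL : IsExp c t₀ L s₀) {r : ℝ} (hr : 0 < M + r) :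
    (RadUpper L s₀ r ↔ RareM (2 * (M + r)) (Lam M t₀ l)) ∧
    (RadLower L s₀ r ↔ FreqM (2 * (M + r)) (Lam M t₀ l)) := by
  obtain ⟨h1, h2⟩ := order_iff hc hl t₀ hr
  exact ⟨(radUpper_iff hL r).trans h1.symm, (radLower_iff hL r).trans h2.symm⟩

/-- the logarithm along the radius -/
lemma order_asymp {F : ℂ → ℂ} {s₀ : ℂ} {m : ℤ} (hF : MeromorphicAt F s₀)
    (hm : meromorphicOrderAt F s₀ = m) : ∃ C : ℝ, ∀ᶠ ε : ℝ in 𝓝[>] 0,
      |Real.log ‖F (s₀ + (ε : ℂ))‖ - m * Real.log ε| ≤ C := by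
  obtain ⟨g, hg, hg0, hgF⟩ := (meromorphicOrderAt_eq_int_iff hF).1 hm
  have hgl : Tendsto (fun z : ℂ => Real.log ‖g z‖) (𝓝 s₀) (𝓝 (Real.log ‖g s₀‖)) :=
    (hg.continuousAt.norm).log (norm_ne_zero_iff.2 hg0)
  have hgb : ∀ᶠ z in 𝓝 s₀, |Real.log ‖g z‖| ≤ |Real.log ‖g s₀‖| + 1 := by
    have := hgl.abs.eventually (ge_mem_nhds (show |Real.log ‖g s₀‖| < |Real.log ‖g s₀‖| + 1 by
      linarith))
    exact this
  have hgne : ∀ᶠ z in 𝓝 s₀, g z ≠ 0 := hg.continuousAt.eventually_ne hg0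
  have hpath : Tendsto (fun ε : ℝ => s₀ + (ε : ℂ)) (𝓝[>] 0) (𝓝[≠] s₀) := by
    rw [tendsto_nhdsWithin_iff]
    constructor
    · have h3 : Tendsto (fun ε : ℝ => s₀ + (ε : ℂ)) (𝓝 0) (𝓝 (s₀ + ((0 : ℝ) : ℂ))) :=
        (continuous_const.add Complex.continuous_ofReal).tendsto _
      rw [Complex.ofReal_zero, add_zero] at h3
      exact h3.mono_left nhdsWithin_le_nhds
    · filter_upwards [self_mem_nhdsWithin] with ε hε
      have hε0 : (0 : ℝ) < ε := hε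
      simp only [Set.mem_compl_iff, Set.mem_singleton_iff, add_eq_left, Complex.ofReal_eq_zero]
      exact hε0.ne'
  refine ⟨|Real.log ‖g s₀‖| + 1, ?_⟩
  filter_upwards [hpath.eventually (hgF.and (eventually_nhdsWithin_of_eventually_nhds
    (hgb.and hgne))), self_mem_nhdsWithin] with ε h1 hε
  obtain ⟨h2, h3, h4⟩ := h1
  have hε0 : (0 : ℝ) < ε := hε
  rw [h2, add_sub_cancel_left, norm_smul, norm_zpow, Complex.norm_real,
    Real.norm_of_nonneg hε0.le, Real.log_mul (zpow_pos hε0 _).ne' (norm_ne_zero_iff.2 h4),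
    Real.log_zpow, add_sub_cancel_left]
  exact h3

lemma tendsto_log_inv : Tendsto (fun ε : ℝ => Real.log (1 / ε)) (𝓝[>] 0) atTop := by
  have h1 : Tendsto (fun ε : ℝ => 1 / ε) (𝓝[>] 0) atTop := by
    simpa only [one_div] using tendsto_inv_nhdsGT_zero (𝕜 := ℝ)
  exact Real.tendsto_log_atTop.comp h1

/-- **The order of a continuation.** -/
theorem mero_iff (hc : ∀ x, ‖c x‖ ≤ M / (x.2 + 1 : ℕ)) (hl : IsMod c l) {t₀ : ℝ} {L : ℂ → ℂ}
    {s₀ : ℂ} (hL : IsExp c t₀ L s₀) {F : ℂ → ℂ} (hF : MeromorphicAt F s₀)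
    (hFL : ∀ᶠ ε : ℝ in 𝓝[>] 0, F (s₀ + (ε : ℂ)) = L (s₀ + (ε : ℂ))) {k : ℤ}
    (hk : 0 < M + k) :
    meromorphicOrderAt F s₀ = ((-k : ℤ) : WithTop ℤ) ↔
      RareM (2 * (M + k)) (Lam M t₀ l) ∧ FreqM (2 * (M + k)) (Lam M t₀ l) := by
  obtain ⟨h1, h2⟩ := order_iff hc hl t₀ hk
  rw [h1, h2]
  constructor
  · intro hm
    obtain ⟨C, hC⟩ := order_asymp hF hm
    have key : ∀ᶠ ε : ℝ in 𝓝[>] 0, |(FF c (((1 + ε : ℝ) : ℂ) + t₀ * Complex.I)).re -
        k * Real.log (1 / ε)| ≤ C := by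
      filter_upwards [hC, hFL, self_mem_nhdsWithin] with ε h3 h4 hε
      have hε0 : (0 : ℝ) < ε := hε
      rw [h4, norm_isExp hL hε0, Real.log_exp] at h3
      rw [one_div, Real.log_inv]
      have h5 : (((-k : ℤ) : ℤ) : ℝ) * Real.log ε = (k : ℝ) * -Real.log ε := by
        push_cast
        ring
      rwa [h5] at h3
    constructor
    · refine ⟨C, ?_⟩
      filter_upwards [key] with ε h3
      linarith [(abs_le.1 h3).2]
    · refine ⟨C, ?_⟩
      filter_upwards [key] with ε h3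
      linarith [(abs_le.1 h3).1]
  · rintro ⟨⟨C1, hC1⟩, ⟨C2, hC2⟩⟩
    have hne : meromorphicOrderAt F s₀ ≠ ⊤ := by
      intro h
      rw [meromorphicOrderAt_eq_top_iff] at h
      have hpath : Tendsto (fun ε : ℝ => s₀ + (ε : ℂ)) (𝓝[>] 0) (𝓝[≠] s₀) := by
        rw [tendsto_nhdsWithin_iff]
        constructor
        · have h3 : Tendsto (fun ε : ℝ => s₀ + (ε : ℂ)) (𝓝 0) (𝓝 (s₀ + ((0 : ℝ) : ℂ))) :=
            (continuous_const.add Complex.continuous_ofReal).tendsto _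
          rw [Complex.ofReal_zero, add_zero] at h3
          exact h3.mono_left nhdsWithin_le_nhds
        · filter_upwards [self_mem_nhdsWithin] with ε hε
          have hε0 : (0 : ℝ) < ε := hε
          simp only [Set.mem_compl_iff, Set.mem_singleton_iff, add_eq_left,
            Complex.ofReal_eq_zero]
          exact hε0.ne'
      have h3 : ∀ᶠ ε : ℝ in 𝓝[>] 0, False := by
        filter_upwards [hpath.eventually h, hFL, self_mem_nhdsWithin] with ε h4 h5 hε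
        rw [h4, hL ε hε] at h5
        exact Complex.exp_ne_zero _ h5.symm
      exact h3.exists.elim fun _ h => h
    obtain ⟨m, hm⟩ := WithTop.ne_top_iff_exists.1 hne
    rw [← hm]
    obtain ⟨C, hC⟩ := order_asymp hF hm.symm
    have hb : ∀ᶠ ε : ℝ in 𝓝[>] 0,
        |((m : ℝ) + k)| * Real.log (1 / ε) ≤ C + |C1| + |C2| := by
      filter_upwards [hC, hFL, hC1, hC2, self_mem_nhdsWithin,
        tendsto_log_inv.eventually (eventually_ge_atTop 0)] with ε h3 h4 h5 h6 hε h7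
      have hε0 : (0 : ℝ) < ε := hε
      rw [h4, norm_isExp hL hε0, Real.log_exp] at h3
      have h8 : Real.log ε = -Real.log (1 / ε) := by rw [one_div, Real.log_inv, neg_neg]
      rw [h8] at h3
      have h9 := abs_le.1 h3
      have h10 : |((m : ℝ) + k)| * Real.log (1 / ε) = |((m : ℝ) + k) * Real.log (1 / ε)| := by
        rw [abs_mul, abs_of_nonneg h7]
      rw [h10, abs_le]
      have h11 := le_abs_self C1
      have h12 := le_abs_self C2
      have h13 := abs_nonneg C1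
      have h14 := abs_nonneg C2
      constructor <;> nlinarith
    have hz : |((m : ℝ) + k)| = 0 := by
      by_contra h
      have h3 : 0 < |((m : ℝ) + k)| := lt_of_le_of_ne (abs_nonneg _) (Ne.symm h)
      have h4 := (tendsto_log_inv.const_mul_atTop h3).eventually
        (eventually_gt_atTop (C + |C1| + |C2|))
      obtain ⟨ε, h5, h6⟩ := (hb.and h4).exists
      linarith
    have h3 : (m : ℝ) + k = 0 := abs_eq_zero.1 hz
    have h4 : m = -k := by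
      have h5 : ((m + k : ℤ) : ℝ) = 0 := by push_cast; exact h3
      have h6 : m + k = 0 := by exact_mod_cast h5
      omega
    rw [h4]

end Pool.Agent.R385.TL
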