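import Pool.Agent.R385.TL.Laws

/-!
# The rational primes
-/

set_option autoImplicit false

namespace Pool.Agent.R385.TL

open MeasureTheory Filter Topology
open Pool.Agent.TH339.MP
open Pool.Agent.R409.ED
open Pool.Agent.R385.JD
open Pool.Agent.R385.FG (Ub tend_sum lam Lf lam_radial finite_Qc)
open Pool.Agent.R385.MC (eg)
open Pool.Agent.H126R3 (Qc Qc_pos)

/-- The primes `p < x` with `p ∉ S`. -/
def primesBelow (S : Finset ℕ) (x : ℕ) : Finset ℕ :=
  (Finset.range x).filter fun p => p.Prime ∧ p ∉ S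

/-- The sum of `a_p cos(t log p) / p` over the primes `p < x`, `p ∉ S`. -/
noncomputable def cosSumQ (S : Finset ℕ) (a : ℕ → ℝ) (x : ℕ) (t : ℝ) : ℝ :=
  ∑ p ∈ primesBelow S x, a p * Real.cos (t * Real.log p) / p

/-- The limit for `x → ∞`: the series `U(t) = ∑ a_p cos(t log p) / p` over the primes `p ∉ S`. -/
noncomputable def cosSeriesQ (S : Finset ℕ) (a : ℕ → ℝ) (t : ℝ) : ℝ :=
  limUnder atTop fun x : ℕ => cosSumQ S a x t

/-- The sum of `a_p / p` over the primes `p ≤ x`, `p ∉ S`. -/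
noncomputable def primeSumQ (S : Finset ℕ) (a : ℕ → ℝ) (x : ℕ) : ℝ :=
  ∑ p ∈ primesBelow S (x + 1), a p / p

/-- The mean value of `a_p` over the primes `p ≤ x`, `p ∉ S`. -/
noncomputable def averageQ (S : Finset ℕ) (a : ℕ → ℝ) (x : ℕ) : ℝ :=
  (∑ p ∈ primesBelow S (x + 1), a p) / (primesBelow S (x + 1)).card

variable {S : Finset ℕ} {a : ℕ → ℝ} {C β : ℝ}

lemma mem_pb {x p : ℕ} : p ∈ primesBelow S x ↔ p < x ∧ p.Prime ∧ p ∉ S := by
  unfold primesBelow
  rw [Finset.mem_filter, Finset.mem_range]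

open Classical in
/-- the coefficients -/
noncomputable def bQ (S : Finset ℕ) (a : ℕ → ℝ) (x : PP) : ℂ :=
  if x.2 = 0 ∧ (x.1 : ℕ) ∉ S then ((a x.1 : ℝ) : ℂ) else 0

/-- bounded at the primes -/
def BdQ (S : Finset ℕ) (a : ℕ → ℝ) (C : ℝ) : Prop := ∀ p : ℕ, p.Prime → p ∉ S → |a p| ≤ C

lemma bQ_le (hC : 0 ≤ C) (ha : BdQ S a C) (x : PP) : ‖bQ S a x‖ ≤ C / (x.2 + 1 : ℕ) := by
  unfold bQ
  split_ifs with h
  · rw [h.1, zero_add, Nat.cast_one, div_one, Complex.norm_real]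
    exact ha _ x.1.2 h.2
  · rw [norm_zero]
    positivity

lemma cosSumQ_eq (x : ℕ) (t : ℝ) :
    cosSumQ S a x t = (∑' y, if Qc y < x then
      bQ S a y * ((Qc y : ℕ) : ℂ) ^ (-(eg (2 * (0 : ℕ) : ℤ) t)) else 0).re := by
  classical
  set i : {p // p ∈ primesBelow S x} → PP := fun p => (⟨p.1, (mem_pb.1 p.2).2.1⟩, 0) with hi
  have hii : Function.Injective i := fun p q h =>
    Subtype.ext (congrArg (fun z : PP => (z.1 : ℕ)) h)
  have hsup : Function.support (fun y : PP => if Qc y < x then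
      bQ S a y * ((Qc y : ℕ) : ℂ) ^ (-(eg (2 * (0 : ℕ) : ℤ) t)) else 0) ⊆ Set.range i := by
    intro y hy
    rw [Function.mem_support] at hy
    by_cases h1 : Qc y < x
    · rw [if_pos h1] at hy
      have h2 : bQ S a y ≠ 0 := left_ne_zero_of_mul hy
      unfold bQ at h2
      by_cases h3 : y.2 = 0 ∧ (y.1 : ℕ) ∉ S
      · have h4 : (y.1 : ℕ) < x := by
          unfold Qc at h1
          rwa [h3.1, zero_add, pow_one] at h1
        exact ⟨⟨y.1, mem_pb.2 ⟨h4, y.1.2, h3.2⟩⟩, Prod.ext rfl h3.1.symm⟩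
      · rw [if_neg h3] at h2
        exact absurd rfl h2
    · rw [if_neg h1] at hy
      exact absurd rfl hy
  rw [← hii.tsum_eq hsup, tsum_fintype, Complex.re_sum]
  unfold cosSumQ
  rw [← Finset.sum_coe_sort]
  refine Finset.sum_congr rfl fun p _ => ?_
  have hp := mem_pb.1 p.2
  have hp0 : ((p : ℕ) : ℂ) ≠ 0 := by exact_mod_cast hp.2.1.ne_zero
  have hQ : Qc (i p) = (p : ℕ) := by
    simp only [hi, Qc, zero_add, pow_one]
  rw [hQ, if_pos hp.1]
  have hb : bQ S a (i p) = ((a p : ℝ) : ℂ) := by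
    unfold bQ
    rw [if_pos ⟨rfl, hp.2.2⟩]
  rw [hb]
  have h8 : -(eg (2 * (0 : ℕ) : ℤ) t) = -1 + -(((t : ℝ) : ℂ) * Complex.I) := by
    unfold eg
    push_cast
    ring
  rw [Complex.re_ofReal_mul, h8, Complex.cpow_add _ _ hp0, Complex.cpow_neg_one,
    Complex.cpow_def_of_ne_zero hp0, ← Complex.natCast_log]
  have h9 : ((Real.log ((p : ℕ) : ℝ) : ℝ) : ℂ) * -(((t : ℝ) : ℂ) * Complex.I) =
      ((-(t * Real.log ((p : ℕ) : ℝ)) : ℝ) : ℂ) * Complex.I := by
    push_cast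
    ring
  have h10 : (((p : ℕ) : ℕ) : ℂ)⁻¹ = (((((p : ℕ) : ℕ) : ℝ)⁻¹ : ℝ) : ℂ) := by push_cast; rfl
  rw [h9, h10, Complex.re_ofReal_mul, Complex.exp_ofReal_mul_I_re, Real.cos_neg]
  ring

theorem cosSeriesQ_ae (hC : 0 ≤ C) (ha : BdQ S a C) :
    ∀ᵐ t : ℝ, cosSeriesQ S a t = (bl (bQ S a) t).re ∧
      Tendsto (fun x : ℕ => cosSumQ S a x t) atTop (𝓝 (cosSeriesQ S a t)) := by
  have hc : ∀ x, ‖bQ S a x‖ ≤ C * (Qc x : ℝ) ^ 0 := fun x => by
    rw [pow_zero, mul_one]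
    refine (bQ_le hC ha x).trans (div_le_self hC ?_)
    exact_mod_cast Nat.succ_pos x.2
  filter_upwards [tend_sum hC hc, lam_radial hC hc, ae_notMem (bQ_le hC ha)] with t h1 h2 h3
  have h4 : Tendsto (fun x : ℕ => cosSumQ S a x t) atTop (𝓝 (Ub (bQ S a) 0 t)) := by
    refine ((Complex.continuous_re.tendsto _).comp h1).congr fun x => ?_
    rw [cosSumQ_eq]
    rfl
  have h5 : cosSeriesQ S a t = Ub (bQ S a) 0 t := h4.limUnder_eq
  refine ⟨?_, by rw [h5]; exact h4⟩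
  rw [h5]
  have h6 := rad (bQ_le hC ha) h3
  have h7 : Tendsto (fun ε : ℝ => Real.exp (FF (bQ S a) (1 + t * Complex.I + ε)).re) (𝓝[>] 0)
      (𝓝 (Real.exp (bl (bQ S a) t).re)) :=
    ((Real.continuous_exp.comp Complex.continuous_re).tendsto _).comp h6
  have h8 : Real.exp (bl (bQ S a) t).re = lam (bQ S a) 0 t := by
    refine tendsto_nhds_unique h7 (h2.congr fun ε => ?_)
    unfold Lf
    rw [Complex.norm_exp, FF_cR]
    push_cast
    rw [zero_add]
  have h9 : lam (bQ S a) 0 t = Real.exp (Ub (bQ S a) 0 t) := by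
    unfold lam Ub
    rw [Complex.norm_exp, ← Real.exp_add, Complex.add_re]
  rw [h9, Real.exp_eq_exp] at h8
  exact h8.symm

lemma AS_bQ (ha0 : ∀ p : ℕ, p.Prime → p ∉ S → 0 ≤ a p) (P : ℕ) :
    AS (bQ S a) P = primeSumQ S a P := by
  classical
  unfold AS primeSumQ
  have h1 : ∀ p : PY P, ‖bQ S a (p.1, 0)‖ / (((p.1 : Nat.Primes) : ℕ) : ℝ) =
      (fun n : ℕ => if n ∉ S then a n / n else 0) ((p.1 : Nat.Primes) : ℕ) := by
    intro p
    unfold bQ
    by_cases h : ((p.1 : Nat.Primes) : ℕ) ∈ S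
    · simp [h]
    · simp only [h, not_false_eq_true, and_self, if_true, Complex.norm_real]
      rw [Real.norm_of_nonneg (ha0 _ p.1.2 h)]
  refine ((Finset.sum_congr rfl fun p _ => h1 p).trans
    (sum_PY (fun n : ℕ => if n ∉ S then a n / n else 0) P)).trans ?_
  rw [← Finset.sum_filter]
  refine Finset.sum_congr ?_ fun _ _ => rfl
  ext n
  rw [Finset.mem_filter, Finset.mem_filter, Finset.mem_Icc, mem_pb]
  constructor
  · rintro ⟨⟨⟨_, h2⟩, h3⟩, h4⟩
    exact ⟨by omega, h3, h4⟩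
  · rintro ⟨h2, h3, h4⟩
    exact ⟨⟨⟨h3.one_lt.le, by omega⟩, h3⟩, h4⟩

/-- **Nonnegative coefficients.** -/
theorem nonneg_iffQ (hC : 0 ≤ C) (ha : BdQ S a C) (ha0 : ∀ p : ℕ, p.Prime → p ∉ S → 0 ≤ a p)
    {κ : ℝ} (hκ : 0 < κ) :
    (RareF κ (cosSeriesQ S a) ↔
      ∃ C : ℝ, ∀ x : ℕ, 3 ≤ x → primeSumQ S a x ≤ κ * Real.log (Real.log x) + C) ∧
    (FreqF κ (cosSeriesQ S a) ↔
      ∃ C : ℝ, ∀ x : ℕ, 3 ≤ x → κ * Real.log (Real.log x) - C ≤ primeSumQ S a x) := by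
  have hae := cosSeriesQ_ae hC ha
  have hset : ∀ V a' T : ℝ, volume {t ∈ Set.Icc a' (a' + T) | V ≤ cosSeriesQ S a t} =
      volume {t ∈ Set.Icc a' (a' + T) | V ≤ ((1 : ℂ) * bl (bQ S a) t).re} := by
    intro V a' T
    refine measure_congr ?_
    filter_upwards [hae] with t ht
    refine propext (and_congr_right fun _ => ?_)
    show V ≤ cosSeriesQ S a t ↔ _
    rw [ht.1, one_mul]
  have h1 := rare_iff (bQ_le hC ha) hκ (u := 1) (by simp)
  have h2 := freq_iff (bQ_le hC ha) hκ (u := 1) (by simp)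
  constructor
  · rw [← (show RareF κ (fun t => ((1 : ℂ) * bl (bQ S a) t).re) ↔ RareF κ (cosSeriesQ S a) by
      unfold RareF
      simp only [hset]), h1]
    simp only [AS_bQ ha0]
  · rw [← (show FreqF κ (fun t => ((1 : ℂ) * bl (bQ S a) t).re) ↔ FreqF κ (cosSeriesQ S a) by
      unfold FreqF
      simp only [hset]), h2]
    simp only [AS_bQ ha0]

lemma primeSumQ_lin (x : ℕ) : primeSumQ S (fun p => β + a p) x =
    β * primeSumQ S (fun _ => 1) x + primeSumQ S a x := by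
  unfold primeSumQ
  rw [Finset.mul_sum, ← Finset.sum_add_distrib]
  refine Finset.sum_congr rfl fun v _ => ?_
  ring

lemma primeSumQ_nonneg (ha : ∀ p : ℕ, p.Prime → p ∉ S → 0 ≤ a p) (x : ℕ) :
    0 ≤ primeSumQ S a x :=
  Finset.sum_nonneg fun p hp => div_nonneg (ha p (mem_pb.1 hp).2.1 (mem_pb.1 hp).2.2) (by positivity)

/-- **Mertens.** -/
theorem mertensQ (S : Finset ℕ) : ∃ C : ℝ, 0 ≤ C ∧ ∀ x : ℕ, 3 ≤ x →
    |primeSumQ S (fun _ => 1) x - Real.log (Real.log x)| ≤ C := by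
  classical
  obtain ⟨C, hC⟩ := Erdos456.Mert.mertens_inv
  refine ⟨|C| + S.card, by positivity, fun x hx => ?_⟩
  have h1 := hC x hx
  have h2 : primeSumQ S (fun _ => 1) x ≤ ∑ p ∈ (Finset.Icc 1 x).filter Nat.Prime, (1 : ℝ) / p := by
    unfold primeSumQ
    refine Finset.sum_le_sum_of_subset_of_nonneg (fun p hp => ?_) fun p _ _ => by positivity
    rw [mem_pb] at hp
    rw [Finset.mem_filter, Finset.mem_Icc]
    exact ⟨⟨hp.2.1.one_lt.le, by omega⟩, hp.2.1⟩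
  have h3 : ∑ p ∈ (Finset.Icc 1 x).filter Nat.Prime, (1 : ℝ) / p ≤
      primeSumQ S (fun _ => 1) x + S.card := by
    have h4 : (Finset.Icc 1 x).filter Nat.Prime ⊆
        primesBelow S (x + 1) ∪ S.filter Nat.Prime := by
      intro p hp
      rw [Finset.mem_filter, Finset.mem_Icc] at hp
      rw [Finset.mem_union, mem_pb, Finset.mem_filter]
      by_cases h : p ∈ S
      · exact Or.inr ⟨h, hp.2⟩
      · exact Or.inl ⟨by omega, hp.2, h⟩
    refine (Finset.sum_le_sum_of_subset_of_nonneg h4 fun p _ _ => by positivity).trans ?_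
    rw [Finset.sum_union (Finset.disjoint_left.2 fun p hp hS =>
      (mem_pb.1 hp).2.2 (Finset.mem_filter.1 hS).1)]
    refine add_le_add le_rfl ?_
    have h5 : ∑ p ∈ S.filter Nat.Prime, (1 : ℝ) / p ≤ (S.filter Nat.Prime).card := by
      refine (Finset.sum_le_card_nsmul _ _ 1 fun p hp => ?_).trans (by rw [nsmul_eq_mul, mul_one])
      rw [one_div]
      refine inv_le_one_of_one_le₀ ?_
      exact_mod_cast (Finset.mem_filter.1 hp).2.one_lt.le
    refine h5.trans ?_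
    exact_mod_cast Finset.card_filter_le _ _
  have h4 := le_abs_self C
  have h5 := abs_nonneg C
  have h6 : (0 : ℝ) ≤ S.card := by positivity
  have h7 := abs_le.1 h1
  rw [abs_le]
  constructor <;> linarith

/-- **Signed coefficients, the equivalences.** -/
theorem signed_iffQ (ha : BdQ S a β) (hβ : 0 ≤ β) {r : ℝ} (hr : 0 < β + r) :
    (RareF (β + r) (cosSeriesQ S fun p => β + a p) ↔
      ∃ C : ℝ, ∀ x : ℕ, 3 ≤ x → primeSumQ S a x ≤ r * Real.log (Real.log x) + C) ∧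
    (FreqF (β + r) (cosSeriesQ S fun p => β + a p) ↔
      ∃ C : ℝ, ∀ x : ℕ, 3 ≤ x → r * Real.log (Real.log x) - C ≤ primeSumQ S a x) := by
  obtain ⟨K, hK0, hK⟩ := mertensQ S
  have h1 : BdQ S (fun p => β + a p) (2 * β) := fun p hp hS => by
    have h2 := abs_le.1 (ha p hp hS)
    rw [abs_le]
    constructor <;> linarith
  have h2 : ∀ p : ℕ, p.Prime → p ∉ S → 0 ≤ β + a p := fun p hp hS => by
    have h2 := abs_le.1 (ha p hp hS)
    linarith
  have h3 := nonneg_iffQ (S := S) (a := fun p => β + a p) (C := 2 * β) (by linarith) h1 h2 hr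
  have h4 : ∀ x : ℕ, 3 ≤ x → |primeSumQ S (fun p => β + a p) x -
      (β * Real.log (Real.log x) + primeSumQ S a x)| ≤ β * K := fun x hx => by
    rw [primeSumQ_lin]
    have e : β * primeSumQ S (fun _ => 1) x + primeSumQ S a x -
        (β * Real.log (Real.log x) + primeSumQ S a x) =
        β * (primeSumQ S (fun _ => 1) x - Real.log (Real.log x)) := by ring
    rw [e, abs_mul, abs_of_nonneg hβ]
    exact mul_le_mul_of_nonneg_left (hK x hx) hβ
  refine ⟨h3.1.trans ⟨?_, ?_⟩, h3.2.trans ⟨?_, ?_⟩⟩ <;>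
  · rintro ⟨C, hC⟩
    refine ⟨C + β * K, fun x hx => ?_⟩
    have h5 := hC x hx
    have h6 := abs_le.1 (h4 x hx)
    linarith

end Pool.Agent.R385.TL
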