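import Pool.Agent.R385.TL.SG
import Pool.Agent.W353.FB.Final

/-!
# Residues, natural averages and logarithmic means
-/

set_option autoImplicit false

namespace Pool.Agent.R385.TL

open MeasureTheory Filter Topology NumberField IsDedekindDomain
open Pool.Agent.TH339.MP (nm)
open Pool.Agent.R409.ED
open Pool.Agent.R385.FG
open Pool.Agent.H126R3 (Qc Qc_pos)
open Pool.Agent.W353.FB (residue)

variable {F : Type} [Field F] [NumberField F]
variable {R : Finset (HeightOneSpectrum (𝓞 F))} {b : HeightOneSpectrum (𝓞 F) → ℝ} {C β : ℝ}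

lemma residue_eq (s : ℝ) : residue R b s = (s - 1) * (logSeries R b s).re := by
  classical
  unfold residue logSeries
  congr 1
  have h1 : ∀ v : HeightOneSpectrum (𝓞 F), logTerm R b s v =
      (((if v ∈ R then 0 else b v * Real.log (Ideal.absNorm v.asIdeal : ℝ) *
        (Ideal.absNorm v.asIdeal : ℝ) ^ (-s) : ℝ)) : ℂ) := by
    intro v
    unfold logTerm
    split_ifs
    · simp
    · push_cast
      rw [Complex.ofReal_cpow (Nat.cast_nonneg _)]
      push_cast
      rfl
  rw [tsum_congr h1, ← Complex.ofReal_tsum, Complex.ofReal_re]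

lemma hasDeriv_g (hC : 0 ≤ C) (hb : ∀ v, v ∉ R → |b v| ≤ C) {s : ℝ} (hs : 1 < s) :
    HasDerivAt (fun x : ℝ => (lc (cR R b) x).re) (-(logSeries R b s).re) s := by
  have hc : ∀ x, ‖cR R b x‖ ≤ Module.finrank ℚ F * C * (Qc x : ℝ) ^ 0 := fun x => by
    rw [pow_zero, mul_one]
    exact norm_cR hC hb x
  have h1 := hasDeriv_lc hc (s := (s : ℂ)) (by simpa using hs)
  have h2 := h1.real_of_complex
  rw [logSeries_eq hC hb (by simpa using hs)]
  exact h2

lemma near_prime (hC : 0 ≤ C) (hb : ∀ v, v ∉ R → |b v| ≤ C) : ∃ K : ℝ, ∀ P : ℕ, 3 ≤ P →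
    |(lc (cR R b) ((1 + 1 / Real.log P : ℝ) : ℂ)).re - primeSum R b P| ≤ K := by
  obtain ⟨K, hK⟩ := FF_near
  refine ⟨K * MF F C + Kh (MF F C), fun P hP => ?_⟩
  have h1 := hK (cR R b) (MF F C) (cR_bound hC hb) P hP
  rw [← primeSum_eq hC hb, FF_cR] at h1
  have h2 : lc (cR R b) ((1 + 1 / Real.log P : ℝ) : ℂ) =
      ∑' x, cR R b x * ((Qc x : ℕ) : ℂ) ^ (-(1 + ((1 / Real.log P : ℝ) : ℂ))) := by
    unfold lc
    push_cast
    rfl
  rw [← h2] at h1
  have h3 := (Complex.abs_re_le_norm _).trans h1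
  rwa [Complex.sub_re, Complex.ofReal_re] at h3

/-- an upper bound for the logarithmic derivative near `1` gives an upper bound for the sums -/
theorem upper_of (hC : 0 ≤ C) (hb : ∀ v, v ∉ R → |b v| ≤ C) {A B δ : ℝ} (hδ : 0 < δ)
    (h : ∀ s : ℝ, 1 < s → s < 1 + δ → (logSeries R b s).re ≤ A / (s - 1) + B) :
    ∃ K : ℝ, ∀ x : ℕ, 3 ≤ x → primeSum R b x ≤ A * Real.log (Real.log x) + K := by
  obtain ⟨K, hK⟩ := near_prime hC hb
  set g : ℝ → ℝ := fun x => (lc (cR R b) x).re with hg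
  set H : ℝ → ℝ := fun s => g s + (A * Real.log (s - 1) + B * s) with hH
  have hd : ∀ s ∈ Set.Ioo 1 (1 + δ), HasDerivAt H (-(logSeries R b s).re +
      (A * (1 / (s - 1)) + B * 1)) s := by
    intro s hs
    have h1 := hasDeriv_g hC hb hs.1
    have h2 : HasDerivAt (fun s : ℝ => Real.log (s - 1)) (1 / (s - 1)) s :=
      ((hasDerivAt_id s).sub_const 1).log (by
        simp only [id]
        linarith [hs.1])
    exact h1.add ((h2.const_mul A).add ((hasDerivAt_id s).const_mul B))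
  have hmono : MonotoneOn H (Set.Ioo 1 (1 + δ)) := by
    refine monotoneOn_of_deriv_nonneg (convex_Ioo _ _)
      (fun s hs => (hd s hs).continuousAt.continuousWithinAt) ?_ ?_
    · rw [interior_Ioo]
      exact fun s hs => (hd s hs).differentiableAt.differentiableWithinAt
    · rw [interior_Ioo]
      intro s hs
      rw [(hd s hs).deriv]
      have h3 := h s hs.1 hs.2
      rw [mul_one_div, mul_one]
      linarith
  set t : ℝ := 1 + δ / 2 with ht
  have htm : t ∈ Set.Ioo 1 (1 + δ) := ⟨by rw [ht]; linarith, by rw [ht]; linarith⟩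
  have hev : ∀ᶠ x : ℕ in atTop, primeSum R b x - A * Real.log (Real.log x) -
      (H t + |B| * 2 + K) ≤ 0 := by
    have hlog : Tendsto (fun x : ℕ => Real.log x) atTop atTop :=
      Real.tendsto_log_atTop.comp tendsto_natCast_atTop_atTop
    filter_upwards [eventually_ge_atTop 3, hlog.eventually_gt_atTop 1,
      hlog.eventually_gt_atTop (2 / δ)] with x hx h1 h2
    have h0 : 0 < Real.log x := by linarith
    set ε : ℝ := 1 / Real.log x with hε
    have hε0 : 0 < ε := by positivity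
    have hε1 : ε < 1 := by
      rw [hε, div_lt_one h0]
      exact h1
    have hεδ : ε < δ / 2 := by
      rw [hε, div_lt_iff₀ h0]
      rw [div_lt_iff₀ hδ] at h2
      linarith
    have h3 : H (1 + ε) ≤ H t := hmono ⟨by linarith, by linarith⟩ htm (by rw [ht]; linarith)
    have h4 := (abs_le.1 (hK x hx)).1
    have h5 : Real.log (1 + ε - 1) = -Real.log (Real.log x) := by
      rw [add_sub_cancel_left, hε, one_div, Real.log_inv]
    have h6 : H (1 + ε) = g (1 + ε) + (A * (-Real.log (Real.log x)) + B * (1 + ε)) := by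
      simp only [hH]
      rw [h5]
    have h7 : g (1 + ε) = (lc (cR R b) ((1 + ε : ℝ) : ℂ)).re := rfl
    have h8 : -(|B| * 2) ≤ B * (1 + ε) := by
      have h9 : |B * (1 + ε)| ≤ |B| * 2 := by
        rw [abs_mul]
        refine mul_le_mul_of_nonneg_left ?_ (abs_nonneg _)
        rw [abs_of_pos (by linarith)]
        linarith
      exact (abs_le.1 h9).1
    rw [← h7] at h4
    rw [h6] at h3
    linarith
  obtain ⟨C', hC'⟩ := ev_bound hev
  exact ⟨C' + (H t + |B| * 2 + K), fun x _ => by linarith [hC' x]⟩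

lemma logSeries_neg (s : ℂ) : logSeries R (fun v => -b v) s = -logSeries R b s := by
  unfold logSeries
  rw [← tsum_neg]
  refine tsum_congr fun v => ?_
  unfold logTerm
  split_ifs
  · simp
  · push_cast
    ring

lemma primeSum_neg (x : ℕ) : primeSum R (fun v => -b v) x = -primeSum R b x := by
  rw [primeSum_fin, primeSum_fin, ← Finset.sum_neg_distrib]
  refine Finset.sum_congr rfl fun v _ => ?_
  ring

/-- and a lower bound gives a lower bound -/
theorem lower_of (hC : 0 ≤ C) (hb : ∀ v, v ∉ R → |b v| ≤ C) {A B δ : ℝ} (hδ : 0 < δ)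
    (h : ∀ s : ℝ, 1 < s → s < 1 + δ → A / (s - 1) - B ≤ (logSeries R b s).re) :
    ∃ K : ℝ, ∀ x : ℕ, 3 ≤ x → A * Real.log (Real.log x) - K ≤ primeSum R b x := by
  obtain ⟨K, hK⟩ := upper_of (R := R) (b := fun v => -b v) (A := -A) (B := B) hC
    (fun v hv => by rw [abs_neg]; exact hb v hv) hδ fun s h1 h2 => by
      rw [logSeries_neg, Complex.neg_re]
      have := h s h1 h2
      rw [neg_div]
      linarith
  refine ⟨K, fun x hx => ?_⟩
  have h1 := hK x hx
  rw [primeSum_neg] at h1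
  linarith

/-- **The residue and the logarithmic mean.** -/
theorem mean_of_residue (hC : 0 ≤ C) (hb : ∀ v, v ∉ R → |b v| ≤ C) {ρ : ℝ}
    (h : Tendsto (residue R b) (𝓝[>] 1) (𝓝 ρ)) :
    Tendsto (fun x : ℕ => primeSum R b x / Real.log (Real.log x)) atTop (𝓝 ρ) := by
  have hLL := tendsto_LL
  have key : ∀ η : ℝ, 0 < η → ∃ K : ℝ, ∀ x : ℕ, 3 ≤ x →
      (ρ - η) * Real.log (Real.log x) - K ≤ primeSum R b x ∧
      primeSum R b x ≤ (ρ + η) * Real.log (Real.log x) + K := by
    intro η hη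
    have h1 := (Metric.tendsto_nhds.1 h) η hη
    obtain ⟨u, hu1, hu⟩ := mem_nhdsGT_iff_exists_Ioo_subset.1 h1
    simp only [Set.mem_Ioi] at hu1
    have h2 : ∀ s : ℝ, 1 < s → s < 1 + (u - 1) →
        |(s - 1) * (logSeries R b s).re - ρ| < η := fun s hs1 hs2 => by
      have h3 := hu ⟨hs1, by linarith⟩
      rw [← residue_eq]
      exact h3
    obtain ⟨K1, hK1⟩ := upper_of hC hb (A := ρ + η) (B := 0) (δ := u - 1) (by linarith)
      fun s hs1 hs2 => by
        have h3 := (abs_lt.1 (h2 s hs1 hs2)).2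
        rw [add_zero, le_div_iff₀ (by linarith)]
        linarith
    obtain ⟨K2, hK2⟩ := lower_of hC hb (A := ρ - η) (B := 0) (δ := u - 1) (by linarith)
      fun s hs1 hs2 => by
        have h3 := (abs_lt.1 (h2 s hs1 hs2)).1
        rw [sub_zero, div_le_iff₀ (by linarith)]
        linarith
    refine ⟨max K1 K2, fun x hx => ⟨?_, ?_⟩⟩
    · have := hK2 x hx
      have := le_max_right K1 K2
      linarith
    · have := hK1 x hx
      have := le_max_left K1 K2
      linarith
  rw [Metric.tendsto_nhds]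
  intro η hη
  obtain ⟨K, hK⟩ := key (η / 2) (by positivity)
  filter_upwards [hLL.eventually_gt_atTop 0, hLL.eventually_gt_atTop (K / (η / 2)),
    eventually_ge_atTop 3] with x hx1 hx2 hx3
  obtain ⟨h1, h2⟩ := hK x hx3
  rw [div_lt_iff₀ (by positivity)] at hx2
  rw [Real.dist_eq, abs_lt]
  constructor
  · rw [lt_sub_iff_add_lt, lt_div_iff₀ hx1]
    nlinarith
  · rw [sub_lt_iff_lt_add, div_lt_iff₀ hx1]
    nlinarith

/-- **A pole and the sums, up to a bounded error.** -/
theorem bounded_of_hasResidue (hC : 0 ≤ C) (hb : ∀ v, v ∉ R → |b v| ≤ C) {ρ : ℝ}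
    (h : HasResidue (logSeries R b) 1 ρ) :
    ∃ K : ℝ, ∀ x : ℕ, 3 ≤ x → |primeSum R b x - ρ * Real.log (Real.log x)| ≤ K := by
  obtain ⟨G, hG, hGe⟩ := h
  have h1 : ∀ᶠ s in 𝓝 (1 : ℂ), ‖G s‖ < ‖G 1‖ + 1 :=
    hG.continuousAt.norm.eventually_lt_const (by linarith)
  obtain ⟨δ, hδ, h2⟩ := Metric.eventually_nhds_iff_ball.1 (hGe.and h1)
  have h3 : ∀ s : ℝ, 1 < s → s < 1 + δ →
      |(logSeries R b s).re - ρ / (s - 1)| ≤ ‖G 1‖ + 1 := by
    intro s hs1 hs2
    obtain ⟨h4, h5⟩ := h2 (s : ℂ) (by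
      rw [Metric.mem_ball, Complex.dist_eq, ← Complex.ofReal_one, ← Complex.ofReal_sub,
        Complex.norm_real, Real.norm_of_nonneg (by linarith)]
      linarith)
    rw [h4 (by simpa using hs1)]
    have e : ((ρ : ℂ) / ((s : ℂ) - 1) + G s).re - ρ / (s - 1) = (G s).re := by
      have : (ρ : ℂ) / ((s : ℂ) - 1) = ((ρ / (s - 1) : ℝ) : ℂ) := by push_cast; rfl
      rw [this, Complex.add_re, Complex.ofReal_re]
      ring
    rw [e]
    exact (Complex.abs_re_le_norm _).trans h5.le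
  obtain ⟨K1, hK1⟩ := upper_of hC hb (A := ρ) (B := ‖G 1‖ + 1) hδ
    fun s hs1 hs2 => by linarith [(abs_le.1 (h3 s hs1 hs2)).2]
  obtain ⟨K2, hK2⟩ := lower_of hC hb (A := ρ) (B := ‖G 1‖ + 1) hδ
    fun s hs1 hs2 => by linarith [(abs_le.1 (h3 s hs1 hs2)).1]
  refine ⟨max K1 K2, fun x hx => ?_⟩
  have := hK1 x hx
  have := hK2 x hx
  have := le_max_left K1 K2
  have := le_max_right K1 K2
  rw [abs_le]
  constructor <;> linarith

/-- **From natural averages to residues.** -/
theorem residue_of_average (hC : 0 ≤ C) (hb : ∀ v, v ∉ R → |b v| ≤ C) {ρ : ℝ}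
    (h : Tendsto (Pool.Agent.W353.FB.average R b) atTop (𝓝 ρ)) :
    Tendsto (residue R b) (𝓝[>] 1) (𝓝 ρ) := by
  refine (Pool.Agent.W353.FB.abel_lim ⟨C, hC, hb⟩
    (h.congr fun X => Pool.Agent.W353.FB.average_eq R b X)).congr fun s => ?_
  exact (Pool.Agent.W353.FB.residue_eq R b s).symm

end Pool.Agent.R385.TL
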