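import Pool.Agent.R385.TL.NS
import Pool.Agent.R385.TL.Near

/-!
# Tail exponents, logarithmic means and residues
-/

set_option autoImplicit false

namespace Pool.Agent.R385.TL

open MeasureTheory Filter Topology NumberField IsDedekindDomain
open Pool.Agent.R385.FG

variable {F : Type} [Field F] [NumberField F]
variable {R : Finset (HeightOneSpectrum (𝓞 F))} {b : HeightOneSpectrum (𝓞 F) → ℝ} {β : ℝ}

/-- The set where `f ≥ V` has, in all long intervals, a proportion at most `exp(-exp(c exp(V/κ')))` for
every `κ' > κ`, and at least `exp(-exp(c exp(V/κ')))` for every `κ' < κ`, for large `V`, where `c > 0`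
depends on `κ'`. -/
def TailExponent (κ : ℝ) (f : ℝ → ℝ) : Prop :=
  (∀ κ' : ℝ, κ < κ' → RareF κ' f) ∧ ∀ κ' : ℝ, 0 < κ' → κ' < κ → FreqF κ' f

/-- **Signed coefficients, the equivalences.** -/
theorem signed_iff (hb : ∀ v, v ∉ R → |b v| ≤ β) (hβ : 0 ≤ β) {r : ℝ} (hr : 0 < β + r) :
    (RareF (β + r) (cosSeries R fun v => β + b v) ↔
      ∃ C : ℝ, ∀ x : ℕ, 3 ≤ x → primeSum R b x ≤ r * Real.log (Real.log x) + C) ∧
    (FreqF (β + r) (cosSeries R fun v => β + b v) ↔
      ∃ C : ℝ, ∀ x : ℕ, 3 ≤ x → r * Real.log (Real.log x) - C ≤ primeSum R b x) := by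
  obtain ⟨K, hK0, hK⟩ := mertens R
  have h1 : ∀ v, v ∉ R → |β + b v| ≤ 2 * β := fun v hv => by
    have h2 := abs_le.1 (hb v hv)
    rw [abs_le]
    constructor <;> linarith
  have h2 : ∀ v, v ∉ R → 0 ≤ β + b v := fun v hv => by
    have h2 := abs_le.1 (hb v hv)
    linarith
  have h3 := nonneg_iff (R := R) (b := fun v => β + b v) (C := 2 * β) (by linarith) h1 h2 hr
  have h4 : ∀ x : ℕ, 3 ≤ x → |primeSum R (fun v => β + b v) x -
      (β * Real.log (Real.log x) + primeSum R b x)| ≤ β * K := fun x hx => by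
    rw [primeSum_lin]
    have e : β * primeSum R (fun _ => 1) x + primeSum R b x -
        (β * Real.log (Real.log x) + primeSum R b x) =
        β * (primeSum R (fun _ => 1) x - Real.log (Real.log x)) := by ring
    rw [e, abs_mul, abs_of_nonneg hβ]
    exact mul_le_mul_of_nonneg_left (hK x hx) hβ
  refine ⟨h3.1.trans ⟨?_, ?_⟩, h3.2.trans ⟨?_, ?_⟩⟩
  · rintro ⟨C, hC⟩
    refine ⟨C + β * K, fun x hx => ?_⟩
    have h5 := hC x hx
    have h6 := abs_le.1 (h4 x hx)
    linarith
  · rintro ⟨C, hC⟩
    refine ⟨C + β * K, fun x hx => ?_⟩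
    have h5 := hC x hx
    have h6 := abs_le.1 (h4 x hx)
    linarith
  · rintro ⟨C, hC⟩
    refine ⟨C + β * K, fun x hx => ?_⟩
    have h5 := hC x hx
    have h6 := abs_le.1 (h4 x hx)
    linarith
  · rintro ⟨C, hC⟩
    refine ⟨C + β * K, fun x hx => ?_⟩
    have h5 := hC x hx
    have h6 := abs_le.1 (h4 x hx)
    linarith

lemma ev_bound {f : ℕ → ℝ} (h : ∀ᶠ x in atTop, f x ≤ 0) : ∃ C : ℝ, ∀ x, f x ≤ C := by
  obtain ⟨N, hN⟩ := eventually_atTop.1 h
  refine ⟨∑ x ∈ Finset.range N, |f x|, fun x => ?_⟩
  rcases lt_or_ge x N with h1 | h1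
  · exact (le_abs_self _).trans (Finset.single_le_sum (f := fun x => |f x|)
      (fun _ _ => abs_nonneg _) (Finset.mem_range.2 h1))
  · exact (hN x h1).trans (Finset.sum_nonneg fun _ _ => abs_nonneg _)

lemma tendsto_LL : Tendsto (fun x : ℕ => Real.log (Real.log x)) atTop atTop :=
  Real.tendsto_log_atTop.comp (Real.tendsto_log_atTop.comp tendsto_natCast_atTop_atTop)

/-- **The tail exponent and the logarithmic mean.** -/
theorem tailExponent_iff (hb : ∀ v, v ∉ R → |b v| ≤ β) (hβ : 0 ≤ β) {r : ℝ} (hr : -β ≤ r) :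
    TailExponent (β + r) (cosSeries R fun v => β + b v) ↔
      Tendsto (fun x : ℕ => primeSum R b x / Real.log (Real.log x)) atTop (𝓝 r) := by
  have hLL := tendsto_LL
  constructor
  · rintro ⟨h1, h2⟩
    rw [tendsto_order]
    constructor
    · intro r' hr'
      set r2 : ℝ := (r' + r) / 2 with hr2
      have hr2l : r' < r2 := by rw [hr2]; linarith
      have hr2u : r2 < r := by rw [hr2]; linarith
      obtain ⟨C, hC⟩ : ∃ C : ℝ, ∀ x : ℕ, 3 ≤ x →
          r2 * Real.log (Real.log x) - C ≤ primeSum R b x := by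
        by_cases h3 : 0 < β + r2
        · exact (signed_iff hb hβ h3).2.1 (h2 (β + r2) h3 (by linarith))
        · obtain ⟨K, hK0, hK⟩ := mertens R
          refine ⟨β * K + |Real.log (Real.log 3)| * |r2 + β|, fun x hx => ?_⟩
          push Not at h3
          have h4 : 0 ≤ primeSum R (fun v => β + b v) x := primeSum_nonneg (fun v hv => by
            have h2 := abs_le.1 (hb v hv)
            linarith) x
          rw [primeSum_lin] at h4
          have h5 := (abs_le.1 (hK x hx)).2
          have h6 : β * primeSum R (fun _ => 1) x ≤ β * (Real.log (Real.log x) + K) :=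
            mul_le_mul_of_nonneg_left (by linarith) hβ
          have hx3 : (3 : ℝ) ≤ x := by exact_mod_cast hx
          have h7 : Real.log (Real.log 3) ≤ Real.log (Real.log x) :=
            Real.log_le_log (Real.log_pos (by norm_num)) (Real.log_le_log (by norm_num) hx3)
          have h8 : (r2 + β) * Real.log (Real.log x) ≤ |Real.log (Real.log 3)| * |r2 + β| := by
            have h9 : (r2 + β) * Real.log (Real.log x) ≤ (r2 + β) * Real.log (Real.log 3) :=
              mul_le_mul_of_nonpos_left h7 (by linarith)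
            refine h9.trans ((le_abs_self _).trans ?_)
            rw [abs_mul, mul_comm]
          nlinarith
      filter_upwards [hLL.eventually_gt_atTop 0, hLL.eventually_gt_atTop (C / (r2 - r')),
        eventually_ge_atTop 3] with x hx1 hx2 hx3
      rw [lt_div_iff₀ hx1]
      have h3 := hC x hx3
      rw [div_lt_iff₀ (by linarith)] at hx2
      nlinarith
    · intro r' hr'
      set r2 : ℝ := (r' + r) / 2 with hr2
      have hr2l : r2 < r' := by rw [hr2]; linarith
      have hr2u : r < r2 := by rw [hr2]; linarith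
      obtain ⟨C, hC⟩ := (signed_iff hb hβ (r := r2) (by linarith)).1.1
        (h1 (β + r2) (by linarith))
      filter_upwards [hLL.eventually_gt_atTop 0, hLL.eventually_gt_atTop (C / (r' - r2)),
        eventually_ge_atTop 3] with x hx1 hx2 hx3
      rw [div_lt_iff₀ hx1]
      have h3 := hC x hx3
      rw [div_lt_iff₀ (by linarith)] at hx2
      nlinarith
  · intro h
    constructor
    · intro κ' hκ'
      have h1 : κ' = β + (κ' - β) := by ring
      rw [h1]
      refine (signed_iff hb hβ (by linarith)).1.2 ?_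
      obtain ⟨C, hC⟩ := ev_bound (f := fun x : ℕ => primeSum R b x -
        (κ' - β) * Real.log (Real.log x)) (by
        filter_upwards [(tendsto_order.1 h).2 (κ' - β) (by linarith),
          hLL.eventually_gt_atTop 0] with x hx1 hx2
        rw [div_lt_iff₀ hx2] at hx1
        linarith)
      exact ⟨C, fun x _ => by linarith [hC x]⟩
    · intro κ' hκ0 hκ'
      have h1 : κ' = β + (κ' - β) := by ring
      rw [h1]
      refine (signed_iff hb hβ (by linarith)).2.2 ?_
      obtain ⟨C, hC⟩ := ev_bound (f := fun x : ℕ =>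
        (κ' - β) * Real.log (Real.log x) - primeSum R b x) (by
        filter_upwards [(tendsto_order.1 h).1 (κ' - β) (by linarith),
          hLL.eventually_gt_atTop 0] with x hx1 hx2
        rw [lt_div_iff₀ hx2] at hx1
        linarith)
      exact ⟨C, fun x _ => by linarith [hC x]⟩

end Pool.Agent.R385.TL
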