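import Pool.Agent.R385.TL.Sets

/-!
# Sets of primes given by conditions on the index
-/

set_option autoImplicit false

namespace Pool.Agent.R385.TL.Seq

open MeasureTheory Filter Topology Finset
open Pool.Agent.R385.TL Pool.Agent.R385.TL.Sets

open Classical in
/-- The number of the `k < K` with the property `Q`. -/
noncomputable def hits (Q : ℕ → Prop) (K : ℕ) : ℕ := ((range K).filter Q).card

/-- The primes `p_k` for which `k` has the property `Q`; the primes are numbered from `0`. -/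
def primesOf (Q : ℕ → Prop) : Set ℕ := {p | p.Prime ∧ Q (Nat.count Nat.Prime p)}

variable {Q : ℕ → Prop}

lemma sum_nth (F : ℕ → ℝ) (x : ℕ) : ∑ p ∈ (range x).filter Nat.Prime, F p =
    ∑ k ∈ range (Nat.count Nat.Prime x), F (Nat.nth Nat.Prime k) := by
  induction x with
  | zero => simp
  | succ x ih =>
    rw [range_add_one, filter_insert, Nat.count_succ]
    split_ifs with h
    · rw [sum_insert (by simp), sum_range_succ, ih, Nat.nth_count h, add_comm]
    · rw [ih, add_zero]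

lemma count_nth (k : ℕ) : Nat.count Nat.Prime (Nat.nth Nat.Prime k) = k :=
  Nat.count_nth_of_infinite Nat.infinite_setOf_prime k

lemma sum_primesOf (Q : ℕ → Prop) (w : ℕ → ℝ) (x : ℕ) :
    ∑ p ∈ (range x).filter Nat.Prime, ind (primesOf Q) p * w p =
      ∑ k ∈ range (Nat.count Nat.Prime x), ind {k | Q k} k * w (Nat.nth Nat.Prime k) := by
  classical
  rw [sum_nth (fun p => ind (primesOf Q) p * w p)]
  refine sum_congr rfl fun k _ => ?_
  congr 1
  unfold ind
  have hp : (Nat.nth Nat.Prime k).Prime := Nat.prime_nth_prime k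
  by_cases h : Q k
  · rw [if_pos (show Nat.nth Nat.Prime k ∈ primesOf Q from ⟨hp, by rwa [count_nth]⟩),
      if_pos (show k ∈ {k | Q k} from h)]
  · rw [if_neg (fun h' : Nat.nth Nat.Prime k ∈ primesOf Q => h (by
      have := h'.2
      rwa [count_nth] at this)), if_neg (fun h' : k ∈ {k | Q k} => h h')]

lemma hits_eq (Q : ℕ → Prop) (K : ℕ) : (hits Q K : ℝ) = ∑ k ∈ range K, ind {k | Q k} k := by
  classical
  unfold hits ind
  rw [card_filter]
  push_cast
  rfl

lemma pb_eq (x : ℕ) : primesBelow ∅ x = (range x).filter Nat.Prime := by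
  unfold primesBelow
  ext p
  simp

lemma prop_eq (Q : ℕ → Prop) (x : ℕ) : proportion (primesOf Q) x =
    (hits Q (Nat.primeCounting x) : ℝ) / (Nat.primeCounting x : ℕ) := by
  rw [proportion_eq fun p hp => hp.1]
  unfold averageQ
  rw [pb_eq]
  have h1 : ((range (x + 1)).filter Nat.Prime).card = Nat.primeCounting x := by
    unfold Nat.primeCounting Nat.primeCounting'
    rw [Nat.count_eq_card_filter_range]
  have h2 := sum_primesOf Q (fun _ => 1) (x + 1)
  simp only [mul_one] at h2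
  rw [h1, h2, hits_eq]
  rfl

lemma tendsto_iff (Q : ℕ → Prop) (δ : ℝ) : Tendsto (proportion (primesOf Q)) atTop (𝓝 δ) ↔
    Tendsto (fun K : ℕ => (hits Q K : ℝ) / K) atTop (𝓝 δ) := by
  constructor
  · intro h
    have h1 : Tendsto (fun K : ℕ => Nat.nth Nat.Prime K) atTop atTop :=
      (Nat.nth_strictMono Nat.infinite_setOf_prime).tendsto_atTop
    have h2 := h.comp h1
    have h3 : ∀ K : ℕ, proportion (primesOf Q) (Nat.nth Nat.Prime K) =
        (hits Q (K + 1) : ℝ) / (K + 1 : ℕ) := by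
      intro K
      have h4 : Nat.primeCounting (Nat.nth Nat.Prime K) = K + 1 := by
        unfold Nat.primeCounting Nat.primeCounting'
        rw [Nat.count_succ, count_nth, if_pos (Nat.prime_nth_prime K)]
      rw [prop_eq, h4]
    have h5 : Tendsto (fun K : ℕ => (hits Q (K + 1) : ℝ) / (K + 1 : ℕ)) atTop (𝓝 δ) :=
      h2.congr h3
    exact (tendsto_add_atTop_iff_nat 1).1 h5
  · intro h
    exact (h.comp Nat.tendsto_primeCounting).congr fun x => (prop_eq Q x).symm

/-- the summation by parts -/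
lemma parts_le {w : ℕ → ℝ} (hw0 : ∀ k, 0 ≤ w k) {η : ℝ} (hη : 0 ≤ η) (n : ℕ) :
    ∑ i ∈ range n, (w i - w (i + 1)) * ((i + 1 : ℕ) : ℝ) ^ (1 - η) ≤
      (∑ j ∈ range n, ((j + 1 : ℕ) : ℝ) ^ (-η) * w j) - w n * n * ((n + 1 : ℕ) : ℝ) ^ (-η) := by
  induction n with
  | zero => simp
  | succ n ih =>
    rw [sum_range_succ, sum_range_succ]
    have hn1 : (0 : ℝ) < ((n + 1 : ℕ) : ℝ) := by positivity
    have hn2 : (0 : ℝ) < ((n + 1 + 1 : ℕ) : ℝ) := by positivity
    have e1 : ((n + 1 : ℕ) : ℝ) ^ (1 - η) = ((n + 1 : ℕ) : ℝ) * ((n + 1 : ℕ) : ℝ) ^ (-η) := by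
      rw [sub_eq_add_neg, Real.rpow_add hn1, Real.rpow_one]
    have e2 : ((n + 1 + 1 : ℕ) : ℝ) ^ (-η) ≤ ((n + 1 : ℕ) : ℝ) ^ (-η) :=
      Real.rpow_le_rpow_of_nonpos hn1 (by push_cast; linarith) (by linarith)
    rw [e1]
    have e3 : w (n + 1) * ((n + 1 : ℕ) : ℝ) * ((n + 1 + 1 : ℕ) : ℝ) ^ (-η) ≤
        w (n + 1) * ((n + 1 : ℕ) : ℝ) * ((n + 1 : ℕ) : ℝ) ^ (-η) :=
      mul_le_mul_of_nonneg_left e2 (mul_nonneg (hw0 _) hn1.le)
    have e4 : ((n + 1 : ℕ) : ℝ) = (n : ℝ) + 1 := by push_cast; rfl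
    rw [e4] at e3 ih ⊢
    nlinarith [e3, ih]

lemma bounded_sum {g w : ℕ → ℝ} (hw0 : ∀ k, 0 ≤ w k) (hw : ∀ k, w (k + 1) ≤ w k)
    (hw1 : ∀ k, w k ≤ 1 / ((k + 1 : ℕ) : ℝ)) {η C : ℝ} (hη : 0 < η) (hC : 0 ≤ C)
    (hg : ∀ K : ℕ, 1 ≤ K → |∑ k ∈ range K, g k| ≤ C * (K : ℝ) ^ (1 - η)) :
    ∃ B : ℝ, ∀ K : ℕ, |∑ k ∈ range K, w k * g k| ≤ B := by
  have hs : Summable fun j : ℕ => ((j + 1 : ℕ) : ℝ) ^ (-η) * (1 / ((j + 1 : ℕ) : ℝ)) := by
    have h1 : Summable fun j : ℕ => ((j : ℕ) : ℝ) ^ (-(1 + η)) :=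
      Real.summable_nat_rpow.2 (by linarith)
    have h2 := (summable_nat_add_iff 1).2 h1
    refine h2.congr fun j => ?_
    have hj : (0 : ℝ) < ((j + 1 : ℕ) : ℝ) := by positivity
    rw [neg_add, Real.rpow_add hj, Real.rpow_neg_one, one_div, mul_comm]
  set S : ℝ := ∑' j : ℕ, ((j + 1 : ℕ) : ℝ) ^ (-η) * (1 / ((j + 1 : ℕ) : ℝ)) with hS
  refine ⟨C + C * S, fun K => ?_⟩
  have hS0 : 0 ≤ S := tsum_nonneg fun j => by positivity
  rcases Nat.eq_zero_or_pos K with rfl | hK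
  · simp only [range_zero, sum_empty, abs_zero]
    positivity
  have h1 := sum_range_by_parts w g K
  simp only [smul_eq_mul] at h1
  rw [h1]
  have hK0 : (0 : ℝ) < K := by exact_mod_cast hK
  have h2 : |w (K - 1) * ∑ i ∈ range K, g i| ≤ C := by
    rw [abs_mul, abs_of_nonneg (hw0 _)]
    have h3 := hw1 (K - 1)
    rw [Nat.sub_add_cancel hK] at h3
    calc w (K - 1) * |∑ i ∈ range K, g i| ≤ (1 / (K : ℝ)) * (C * (K : ℝ) ^ (1 - η)) :=
          mul_le_mul h3 (hg K hK) (abs_nonneg _) (by positivity)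
      _ = C * (K : ℝ) ^ (-η) := by
          rw [sub_eq_add_neg, Real.rpow_add hK0, Real.rpow_one]
          field_simp
      _ ≤ C * 1 := by
          refine mul_le_mul_of_nonneg_left ?_ hC
          exact Real.rpow_le_one_of_one_le_of_nonpos (by exact_mod_cast hK) (by linarith)
      _ = C := mul_one C
  have h3 : |∑ i ∈ range (K - 1), (w (i + 1) - w i) * ∑ i ∈ range (i + 1), g i| ≤ C * S := by
    calc |∑ i ∈ range (K - 1), (w (i + 1) - w i) * ∑ i ∈ range (i + 1), g i| ≤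
        ∑ i ∈ range (K - 1), |(w (i + 1) - w i) * ∑ i ∈ range (i + 1), g i| :=
          abs_sum_le_sum_abs _ _
      _ ≤ ∑ i ∈ range (K - 1), C * ((w i - w (i + 1)) * ((i + 1 : ℕ) : ℝ) ^ (1 - η)) := by
          refine sum_le_sum fun i _ => ?_
          rw [abs_mul, abs_of_nonpos (by linarith [hw i])]
          calc -(w (i + 1) - w i) * |∑ i ∈ range (i + 1), g i| ≤
              -(w (i + 1) - w i) * (C * ((i + 1 : ℕ) : ℝ) ^ (1 - η)) :=
                mul_le_mul_of_nonneg_left (hg (i + 1) (by omega)) (by linarith [hw i])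
            _ = C * ((w i - w (i + 1)) * ((i + 1 : ℕ) : ℝ) ^ (1 - η)) := by ring
      _ = C * ∑ i ∈ range (K - 1), (w i - w (i + 1)) * ((i + 1 : ℕ) : ℝ) ^ (1 - η) := by
          rw [mul_sum]
      _ ≤ C * S := by
          refine mul_le_mul_of_nonneg_left ?_ hC
          refine (parts_le hw0 hη.le (K - 1)).trans ?_
          have h4 : 0 ≤ w (K - 1) * ((K - 1 : ℕ) : ℝ) * ((K - 1 + 1 : ℕ) : ℝ) ^ (-η) := by
            have := hw0 (K - 1)
            positivity
          have h5 : ∑ j ∈ range (K - 1), ((j + 1 : ℕ) : ℝ) ^ (-η) * w j ≤ S := by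
            refine (sum_le_sum fun j _ => mul_le_mul_of_nonneg_left (hw1 j) (by positivity)).trans ?_
            exact hs.sum_le_tsum _ fun j _ => by positivity
          linarith
  calc _ ≤ |w (K - 1) * ∑ i ∈ range K, g i| +
      |∑ i ∈ range (K - 1), (w (i + 1) - w i) * ∑ i ∈ range (i + 1), g i| := abs_sub _ _
    _ ≤ C + C * S := add_le_add h2 h3

/-- **A power saving gives the sharp tails.** -/
theorem sharp {μ η : ℝ} (hμ : 0 < μ) (hη : 0 < η)
    (h : ∃ C : ℝ, ∀ K : ℕ, 1 ≤ K → |(hits Q K : ℝ) / K - μ| ≤ C * (K : ℝ) ^ (-η)) :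
    RareF μ (U (primesOf Q)) ∧ FreqF μ (U (primesOf Q)) := by
  obtain ⟨C, hC⟩ := h
  have hC0 : 0 ≤ C := by
    have h1 := hC 1 le_rfl
    rw [Nat.cast_one, Real.one_rpow, mul_one] at h1
    exact (abs_nonneg _).trans h1
  have hl := laws (A := primesOf Q) fun p hp => hp.1
  obtain ⟨h1, h2⟩ := hl.2.1 μ hμ
  rw [h1, h2]
  set w : ℕ → ℝ := fun k => 1 / ((Nat.nth Nat.Prime k : ℕ) : ℝ) with hwdef
  have hge : ∀ k, k + 1 ≤ Nat.nth Nat.Prime k := fun k => by
    have := Nat.add_two_le_nth_prime k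
    omega
  have hw0 : ∀ k, 0 ≤ w k := fun k => by positivity
  have hw1 : ∀ k, w k ≤ 1 / ((k + 1 : ℕ) : ℝ) := fun k =>
    one_div_le_one_div_of_le (by positivity) (by exact_mod_cast hge k)
  have hw : ∀ k, w (k + 1) ≤ w k := fun k => by
    have h3 : Nat.nth Nat.Prime k ≤ Nat.nth Nat.Prime (k + 1) :=
      (Nat.nth_strictMono Nat.infinite_setOf_prime).monotone (Nat.le_succ k)
    have h4 := hge k
    exact one_div_le_one_div_of_le (by exact_mod_cast (by omega : 0 < Nat.nth Nat.Prime k))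
      (by exact_mod_cast h3)
  obtain ⟨B, hB⟩ := bounded_sum (g := fun k => ind {k | Q k} k - μ) hw0 hw hw1 hη hC0 (by
    intro K hK
    have hK0 : (0 : ℝ) < K := by exact_mod_cast hK
    rw [sum_sub_distrib, ← hits_eq, sum_const, card_range, nsmul_eq_mul]
    have h3 := hC K hK
    have h4 : (hits Q K : ℝ) - K * μ = K * ((hits Q K : ℝ) / K - μ) := by
      field_simp
    have h5 : (K : ℝ) ^ (1 - η) = (K : ℝ) * (K : ℝ) ^ (-η) := by
      rw [sub_eq_add_neg, Real.rpow_add hK0, Real.rpow_one]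
    rw [h4, abs_mul, abs_of_pos hK0, h5]
    calc (K : ℝ) * |(hits Q K : ℝ) / K - μ| ≤ K * (C * (K : ℝ) ^ (-η)) :=
          mul_le_mul_of_nonneg_left h3 hK0.le
      _ = C * ((K : ℝ) * (K : ℝ) ^ (-η)) := by ring)
  obtain ⟨K0, hK0, hm⟩ := mertensQ (∅ : Finset ℕ)
  have key : ∀ x : ℕ, 3 ≤ x → |harmonicSum (primesOf Q) x - μ * Real.log (Real.log x)| ≤
      B + μ * K0 := by
    intro x hx
    have h3 := hm x hx
    have h4 : harmonicSum (primesOf Q) x - μ * primeSumQ ∅ (fun _ => 1) x =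
        ∑ k ∈ range (Nat.count Nat.Prime (x + 1)), w k * (ind {k | Q k} k - μ) := by
      rw [harmonicSum_eq fun p hp => hp.1]
      unfold primeSumQ
      rw [pb_eq]
      have h5 := sum_primesOf Q (fun p => 1 / (p : ℝ)) (x + 1)
      have h6 := sum_nth (fun p => 1 / (p : ℝ)) (x + 1)
      have h7 : ∑ p ∈ (range (x + 1)).filter Nat.Prime, ind (primesOf Q) p / (p : ℝ) =
          ∑ p ∈ (range (x + 1)).filter Nat.Prime, ind (primesOf Q) p * (1 / (p : ℝ)) :=
        sum_congr rfl fun p _ => by ring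
      rw [h7, h5, h6, mul_sum, ← sum_sub_distrib]
      refine sum_congr rfl fun k _ => ?_
      simp only [hwdef]
      ring
    have h5 := hB (Nat.count Nat.Prime (x + 1))
    rw [← h4] at h5
    have h6 : harmonicSum (primesOf Q) x - μ * Real.log (Real.log x) =
        (harmonicSum (primesOf Q) x - μ * primeSumQ ∅ (fun _ => 1) x) +
          μ * (primeSumQ ∅ (fun _ => 1) x - Real.log (Real.log x)) := by ring
    rw [h6]
    refine (abs_add_le _ _).trans (add_le_add h5 ?_)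
    rw [abs_mul, abs_of_pos hμ]
    exact mul_le_mul_of_nonneg_left h3 hμ.le
  exact ⟨⟨B + μ * K0, fun x hx => by linarith [(abs_le.1 (key x hx)).2]⟩,
    ⟨B + μ * K0, fun x hx => by linarith [(abs_le.1 (key x hx)).1]⟩⟩

end Pool.Agent.R385.TL.Seq
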