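import Pool.Agent.R385.TL.EQQ

/-!
# Sets of primes: densities and the frequency of large values
-/

set_option autoImplicit false

namespace Pool.Agent.R385.TL.Sets

open MeasureTheory Filter Topology
open Pool.Agent.R385.TL

/-- The proportion of the primes `p ≤ N` which are in `A`. -/
noncomputable def proportion (A : Set ℕ) (N : ℕ) : ℝ :=
  ((A ∩ Set.Iic N).ncard : ℝ) / (Nat.primeCounting N : ℝ)

open Classical in
/-- `∑ 1 / p` over the `p ≤ x` in `A`. -/
noncomputable def harmonicSum (A : Set ℕ) (x : ℕ) : ℝ :=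
  ∑ p ∈ (Finset.Icc 1 x).filter (· ∈ A), 1 / (p : ℝ)

open Classical in
/-- `∑ cos(t log p) / p` over the `p < x` in `A`. -/
noncomputable def partialSum (A : Set ℕ) (x : ℕ) (t : ℝ) : ℝ :=
  ∑ p ∈ (Finset.range x).filter (· ∈ A), Real.cos (t * Real.log p) / p

/-- `U(t) = ∑ cos(t log p) / p` over the `p` in `A`. -/
noncomputable def U (A : Set ℕ) (t : ℝ) : ℝ := limUnder atTop fun x : ℕ => partialSum A x t

section
variable {A : Set ℕ}

open Classical in
/-- the indicator function -/
noncomputable def ind (A : Set ℕ) (p : ℕ) : ℝ := if p ∈ A then 1 else 0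

lemma partialSum_eq (hA : ∀ p ∈ A, p.Prime) : partialSum A = cosSumQ ∅ (ind A) := by
  classical
  funext x t
  unfold partialSum cosSumQ primesBelow ind
  rw [Finset.sum_filter, Finset.sum_filter]
  refine Finset.sum_congr rfl fun p _ => ?_
  by_cases h : p ∈ A
  · simp [h, hA p h]
  · simp [h]

lemma harmonicSum_eq (hA : ∀ p ∈ A, p.Prime) : harmonicSum A = primeSumQ ∅ (ind A) := by
  classical
  funext x
  unfold harmonicSum primeSumQ primesBelow ind
  rw [Finset.sum_filter, Finset.sum_filter]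
  have h1 : ∑ p ∈ Finset.Icc 1 x, (if p ∈ A then 1 / (p : ℝ) else 0) =
      ∑ p ∈ Finset.range (x + 1), if p ∈ A then 1 / (p : ℝ) else 0 := by
    refine Finset.sum_subset (fun p hp => ?_) fun p _ hp => ?_
    · rw [Finset.mem_Icc] at hp
      rw [Finset.mem_range]
      omega
    · have hp0 : p = 0 := by
        rw [Finset.mem_Icc] at hp
        rename_i h
        rw [Finset.mem_range] at h
        omega
      subst hp0
      simp
  rw [h1]
  refine Finset.sum_congr rfl fun p _ => ?_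
  by_cases h : p ∈ A
  · simp [h, hA p h]
  · simp [h]

lemma proportion_eq (hA : ∀ p ∈ A, p.Prime) : proportion A = averageQ ∅ (ind A) := by
  classical
  funext x
  unfold proportion averageQ
  have h1 : A ∩ Set.Iic x = ((primesBelow ∅ (x + 1)).filter (· ∈ A) : Finset ℕ) := by
    ext p
    rw [Finset.coe_filter]
    constructor
    · rintro ⟨h2, h3⟩
      exact ⟨mem_pb.2 ⟨by have := Set.mem_Iic.1 h3; omega, hA p h2, Finset.notMem_empty _⟩, h2⟩
    · rintro ⟨h2, h3⟩
      exact ⟨h3, by have := (mem_pb.1 h2).1; exact Set.mem_Iic.2 (by omega)⟩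
  have h2 : (primesBelow ∅ (x + 1)).card = Nat.primeCounting x := by
    unfold primesBelow Nat.primeCounting Nat.primeCounting'
    rw [Nat.count_eq_card_filter_range]
    simp
  rw [h1, Set.ncard_coe_finset, h2, Finset.card_filter]
  congr 1
  push_cast
  rfl

end

/-- The statements about a set `A` of primes and `U(t) = ∑_{p ∈ A} cos(t log p) / p`: the series
converges almost everywhere; `∑ 1 / p ≤ κ log log x + O(1)` if and only if the values of `U` are large
with a frequency at most as in `RareF κ`, and with `≥` and `FreqF κ`; the quotient of the sum and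
`log log x` tends to `δ` (the Dirichlet density) if and only if `δ` is the tail exponent; the natural
density is `δ` if and only if it exists and `δ` is the tail exponent. -/
def Laws (A : Set ℕ) : Prop :=
  (∀ᵐ t : ℝ, Tendsto (fun x : ℕ => partialSum A x t) atTop (𝓝 (U A t))) ∧
  (∀ κ : ℝ, 0 < κ →
    (RareF κ (U A) ↔ ∃ B : ℝ, ∀ x : ℕ, 3 ≤ x → harmonicSum A x ≤ κ * Real.log (Real.log x) + B) ∧
    (FreqF κ (U A) ↔
      ∃ B : ℝ, ∀ x : ℕ, 3 ≤ x → κ * Real.log (Real.log x) - B ≤ harmonicSum A x)) ∧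
  (∀ δ : ℝ, 0 ≤ δ → (TailExponent δ (U A) ↔
    Tendsto (fun x : ℕ => harmonicSum A x / Real.log (Real.log x)) atTop (𝓝 δ))) ∧
  ∀ δ : ℝ, 0 ≤ δ → (Tendsto (proportion A) atTop (𝓝 δ) ↔
    (∃ ρ : ℝ, Tendsto (proportion A) atTop (𝓝 ρ)) ∧ TailExponent δ (U A))

theorem laws {A : Set ℕ} (hA : ∀ p ∈ A, p.Prime) : Laws A := by
  classical
  have hb : BdQ ∅ (ind A) 1 := fun p _ _ => by
    unfold ind
    split_ifs <;> simp
  have hb0 : ∀ p : ℕ, p.Prime → p ∉ (∅ : Finset ℕ) → 0 ≤ ind A p := fun p _ _ => by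
    unfold ind
    split_ifs <;> simp
  have hU : U A = cosSeriesQ ∅ (ind A) := by
    funext t
    unfold U cosSeriesQ
    rw [partialSum_eq hA]
  unfold Laws
  rw [hU, partialSum_eq hA, harmonicSum_eq hA, proportion_eq hA]
  have h1 := fun (δ : ℝ) (hδ : 0 ≤ δ) => tail_nonnegQ zero_le_one hb hb0 hδ
  refine ⟨?_, fun κ hκ => nonneg_iffQ zero_le_one hb hb0 hκ, h1, fun δ hδ => ⟨fun h =>
    ⟨⟨δ, h⟩, (h1 δ hδ).2 (log_of_mean hb h)⟩, ?_⟩⟩
  · filter_upwards [cosSeriesQ_ae zero_le_one hb] with t ht using ht.2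
  · rintro ⟨⟨ρ, hρ⟩, h⟩
    have h2 := tendsto_nhds_unique ((h1 δ hδ).1 h) (log_of_mean hb hρ)
    rw [h2]
    exact hρ

end Pool.Agent.R385.TL.Sets
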