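import Pool.Agent.R385.TL.Iff
import Pool.Agent.R385.TL.Near
import Pool.Agent.R629.SP.Base

/-!
# Symmetric products with powers of zeta
-/

set_option autoImplicit false

namespace Pool.Agent.R385.TL

open MeasureTheory Filter Topology
open Pool.Agent.TH339.MP
open Pool.Agent.R409.ED
open Pool.Agent.R385.JD

variable {c : PP → ℂ} {M : ℝ}

/-- the coefficients of `log ζ` -/
noncomputable def zc (x : PP) : ℂ := 1 / ((x.2 + 1 : ℕ) : ℂ)

lemma zc_eq : zc = Pool.Agent.R629.SP.bQ (fun (_ : Nat.Primes) (_ : Fin 1) => (1 : ℂ)) := by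
  funext x
  unfold zc Pool.Agent.R629.SP.bQ
  simp

lemma zc_bound (x : PP) : ‖zc x‖ ≤ 1 / (x.2 + 1 : ℕ) := by
  unfold zc
  rw [norm_div, norm_one, Complex.norm_natCast]

lemma exp_zc {s : ℂ} (hs : 1 < s.re) : Complex.exp (FF zc s) = riemannZeta s := by
  have h1 := Pool.Agent.R629.SP.hasProd_bQ
    (β := fun (_ : Nat.Primes) (_ : Fin 1) => (1 : ℂ)) (by simp) hs
  rw [← zc_eq] at h1
  have h2 := riemannZeta_eulerProduct_hasProd hs
  refine h1.unique ?_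
  simpa using h2

/-- the translated coefficients -/
noncomputable def tw (c : PP → ℂ) (t₀ : ℝ) (x : PP) : ℂ :=
  c x * (((x.1 : ℕ) : ℂ) ^ (-((t₀ : ℂ) * Complex.I))) ^ (x.2 + 1)

lemma norm_tw (t₀ : ℝ) (x : PP) : ‖tw c t₀ x‖ = ‖c x‖ := by
  unfold tw
  rw [norm_mul, norm_pow, Complex.norm_natCast_cpow_of_pos x.1.2.pos]
  have h : (-((t₀ : ℂ) * Complex.I)).re = 0 := by simp
  rw [h, Real.rpow_zero, one_pow, mul_one]

lemma FF_tw (t₀ : ℝ) (s : ℂ) : FF (tw c t₀) s = FF c (s + t₀ * Complex.I) := by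
  unfold FF
  refine tsum_congr fun x => ?_
  have hp : ((x.1 : ℕ) : ℂ) ≠ 0 := by exact_mod_cast x.1.2.ne_zero
  unfold tm tw
  rw [mul_assoc, ← mul_pow, ← Complex.cpow_add _ _ hp]
  congr 3
  ring

/-- the conjugate coefficients -/
noncomputable def cj (c : PP → ℂ) (x : PP) : ℂ := (starRingEnd ℂ) (c x)

lemma FF_cj (s : ℂ) : FF (cj c) s = (starRingEnd ℂ) (FF c ((starRingEnd ℂ) s)) := by
  unfold FF
  rw [Complex.conj_tsum]
  refine tsum_congr fun x => ?_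
  unfold tm cj
  rw [map_mul, map_pow]
  congr 2
  have h1 : ((x.1 : ℕ) : ℂ).arg ≠ Real.pi := by
    rw [Complex.natCast_arg]
    exact Real.pi_pos.ne
  have h2 := Complex.cpow_conj ((x.1 : ℕ) : ℂ) (-((starRingEnd ℂ) s)) h1
  rw [Complex.conj_natCast] at h2
  rw [← h2, map_neg, Complex.conj_conj]

/-- the coefficients of the logarithm of `ζ(s)^{2M} L(s + i t₀) \bar L(\bar s + i t₀)` -/
noncomputable def sy (c : PP → ℂ) (M t₀ : ℝ) (x : PP) : ℂ :=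
  (2 * M : ℝ) * zc x + tw c t₀ x + cj (tw c t₀) x

lemma sy_real (t₀ : ℝ) (x : PP) :
    sy c M t₀ x = ((2 * M / (x.2 + 1 : ℕ) + 2 * (tw c t₀ x).re : ℝ) : ℂ) := by
  unfold sy cj zc
  rw [add_assoc, Complex.add_conj]
  push_cast
  ring

lemma sy_nonneg (hc : ∀ x, ‖c x‖ ≤ M / (x.2 + 1 : ℕ)) (t₀ : ℝ) (x : PP) :
    0 ≤ 2 * M / (x.2 + 1 : ℕ) + 2 * (tw c t₀ x).re := by
  have h1 := (Complex.abs_re_le_norm (tw c t₀ x)).trans ((norm_tw t₀ x).le.trans (hc x))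
  have h2 := (abs_le.1 h1).1
  have h3 : 2 * M / ((x.2 + 1 : ℕ) : ℝ) = 2 * (M / (x.2 + 1 : ℕ)) := by ring
  rw [h3]
  linarith

lemma sy_bound (hc : ∀ x, ‖c x‖ ≤ M / (x.2 + 1 : ℕ)) (t₀ : ℝ) (x : PP) :
    ‖sy c M t₀ x‖ ≤ (4 * M) / (x.2 + 1 : ℕ) := by
  have h1 := (Complex.abs_re_le_norm (tw c t₀ x)).trans ((norm_tw t₀ x).le.trans (hc x))
  have h2 := (abs_le.1 h1).2
  have h3 := sy_nonneg hc t₀ x
  rw [sy_real, Complex.norm_real, Real.norm_of_nonneg h3]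
  have h4 : 2 * M / ((x.2 + 1 : ℕ) : ℝ) = 2 * (M / (x.2 + 1 : ℕ)) := by ring
  have h5 : 4 * M / ((x.2 + 1 : ℕ) : ℝ) = 4 * (M / (x.2 + 1 : ℕ)) := by ring
  rw [h4, h5]
  linarith

lemma FF_sy (hc : ∀ x, ‖c x‖ ≤ M / (x.2 + 1 : ℕ)) (t₀ : ℝ) {s : ℂ} (hs : 1 < s.re) :
    (FF (sy c M t₀) s).re = 2 * M * (FF zc s).re + (FF c (s + t₀ * Complex.I)).re +
      (FF c ((starRingEnd ℂ) s + t₀ * Complex.I)).re := by
  have hz := summable_tm zc_bound hs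
  have ht : ∀ x, ‖tw c t₀ x‖ ≤ M / (x.2 + 1 : ℕ) := fun x => (norm_tw t₀ x).le.trans (hc x)
  have h1 := summable_tm ht hs
  have ht' : ∀ x, ‖cj (tw c t₀) x‖ ≤ M / (x.2 + 1 : ℕ) := fun x => by
    unfold cj
    rw [Complex.norm_conj]
    exact ht x
  have h2 := summable_tm ht' hs
  have h3 : FF (sy c M t₀) s = (2 * M : ℝ) * FF zc s + FF (tw c t₀) s + FF (cj (tw c t₀)) s := by
    unfold FF
    rw [← tsum_mul_left, ← (hz.mul_left _).tsum_add h1, ← ((hz.mul_left _).add h1).tsum_add h2]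
    refine tsum_congr fun x => ?_
    unfold tm sy
    ring
  rw [h3, FF_tw, FF_cj, FF_tw, Complex.add_re, Complex.add_re, Complex.re_ofReal_mul,
    Complex.conj_re]

/-- the sums -/
lemma AS_sy (hc : ∀ x, ‖c x‖ ≤ M / (x.2 + 1 : ℕ)) (t₀ : ℝ) (P : ℕ) :
    AS (sy c M t₀) P = 2 * M * (∑ p ∈ (Finset.Icc 1 P).filter Nat.Prime, (1 : ℝ) / p) +
      2 * (∑ p : PY P, tw c t₀ (p.1, 0) / ((p.1 : ℕ) : ℂ)).re := by
  unfold AS
  rw [← sum_PY (fun n => (1 : ℝ) / n) P, Complex.re_sum, Finset.mul_sum, Finset.mul_sum,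
    ← Finset.sum_add_distrib]
  refine Finset.sum_congr rfl fun p _ => ?_
  rw [sy_real, Complex.norm_real, Real.norm_of_nonneg (sy_nonneg hc t₀ _)]
  have h1 : ((tw c t₀ (p.1, 0)) / (((p.1 : Nat.Primes) : ℕ) : ℂ)).re =
      (tw c t₀ (p.1, 0)).re / (((p.1 : Nat.Primes) : ℕ) : ℝ) := by
    rw [← Complex.ofReal_natCast, Complex.div_ofReal_re]
  rw [h1]
  simp only [zero_add, Nat.cast_one, div_one]
  ring

end Pool.Agent.R385.TL
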