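import Pool.Agent.R385.TL.Upper

/-!
# The upper bound, optimized
-/

set_option autoImplicit false

namespace Pool.Agent.R385.TL

open MeasureTheory Filter Topology
open Pool.Agent.TH339.MP
open Pool.Agent.R409.ED
open Pool.Agent.R385.JD
open scoped ENNReal

variable {b : PP → ℂ} {M : ℝ}

/-- **Large boundary values are doubly exponentially rare.** -/
theorem upper_tail (hb : ∀ x, ‖b x‖ ≤ M / (x.2 + 1 : ℕ)) {κ C1 : ℝ} (hκ : 0 < κ)
    (hA : ∀ P : ℕ, 3 ≤ P → AS b P ≤ κ * Real.log (Real.log P) + C1) :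
    ∃ c : ℝ, 0 < c ∧ ∃ V0 : ℝ, ∀ V : ℝ, V0 ≤ V → ∀ u : ℂ, ‖u‖ = 1 → ∃ T0 : ℝ, ∀ a T : ℝ, T0 ≤ T →
      volume {t ∈ Set.Icc a (a + T) | V ≤ (u * bl b t).re} ≤
        ENNReal.ofReal (Real.exp (-Real.exp (c * Real.exp (V / κ))) * T) := by
  have hM := M_nonneg hb
  have hS := S2_nonneg
  set L1 : ℝ := Real.log (2 * M + 4) with hL1
  have hL1p : 0 < L1 := Real.log_pos (by linarith)
  set C3 : ℝ := Real.log (1 + L1) with hC3
  set K : ℝ := κ * C3 + C1 + 2 * M * S2 + 2 * M + 3 with hK
  set c : ℝ := Real.exp (-(K / κ)) with hc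
  have hc0 : 0 < c := Real.exp_pos _
  refine ⟨c, hc0, K, fun V hV u hu => ?_⟩
  set x : ℝ := c * Real.exp (V / κ) with hx
  have hx' : x = Real.exp ((V - K) / κ) := by
    rw [hx, hc, ← Real.exp_add]
    congr 1
    ring
  have hx1 : 1 ≤ x := by
    rw [hx']
    exact Real.one_le_exp (div_nonneg (by linarith) hκ.le)
  have hx0 : 0 < x := by linarith
  have hlx : κ * Real.log x = V - K := by
    rw [hx', Real.log_exp]
    field_simp
  set q : ℝ := Real.exp x with hq
  have hq0 : 0 < q := Real.exp_pos _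
  have hq2 : 2 ≤ q := by
    have := Real.add_one_le_exp x
    linarith
  set P : ℕ := ⌈2 * M * q⌉₊ + 3 with hP
  have hP3 : 3 ≤ P := by omega
  have hP3' : (3 : ℝ) ≤ P := by exact_mod_cast hP3
  have hPl : 2 * M * q ≤ P := by
    have h1 := Nat.le_ceil (2 * M * q)
    rw [hP]
    push_cast
    linarith
  have hPu : (P : ℝ) ≤ (2 * M + 4) * q := by
    have h1 := (Nat.ceil_lt_add_one (show 0 ≤ 2 * M * q by positivity)).le
    rw [hP]
    push_cast
    nlinarith
  have hlP1 : 1 < Real.log P := by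
    have h3 : Real.exp 1 < P := lt_of_lt_of_le (by linarith [Real.exp_one_lt_d9]) hP3'
    have := Real.log_lt_log (Real.exp_pos 1) h3
    rwa [Real.log_exp] at this
  have hlP : Real.log P ≤ x * (1 + L1) := by
    have h1 : Real.log P ≤ Real.log ((2 * M + 4) * q) := Real.log_le_log (by linarith) hPu
    rw [Real.log_mul (by linarith) hq0.ne', hq, Real.log_exp] at h1
    nlinarith
  have hllP : Real.log (Real.log P) ≤ Real.log x + C3 := by
    have h1 : Real.log (Real.log P) ≤ Real.log (x * (1 + L1)) := Real.log_le_log (by linarith) hlP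
    rwa [Real.log_mul hx0.ne' (by linarith)] at h1
  have hAP := hA P hP3
  obtain ⟨T0, hT0⟩ := chernoff hb hu hq0.le (show 1 ≤ P by omega) hPl (V - 1)
  refine ⟨max T0 0, fun a T hT => ?_⟩
  have hT' : 0 ≤ T := (le_max_right _ _).trans hT
  have h1 := hT0 a T ((le_max_left _ _).trans hT)
  rw [sub_add_cancel] at h1
  refine h1.trans (ENNReal.ofReal_le_ofReal ?_)
  refine mul_le_mul_of_nonneg_right ?_ hT'
  have h2 : AS b P + 2 * M * S2 + 2 * M - (V - 1) ≤ -2 := by
    have h3 : κ * Real.log (Real.log P) ≤ κ * (Real.log x + C3) := by gcongr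
    rw [mul_add, hlx] at h3
    have hKe : K = κ * C3 + C1 + 2 * M * S2 + 2 * M + 3 := hK
    linarith
  have h4 : q * (AS b P + 2 * M * S2 + 2 * M - (V - 1)) ≤ -q - q := by nlinarith
  calc 3 * Real.exp (q * (AS b P + 2 * M * S2 + 2 * M - (V - 1)))
      ≤ Real.exp q * Real.exp (-q - q) := by
        have h5 : (3 : ℝ) ≤ Real.exp q := by
          have := Real.add_one_le_exp q
          linarith
        exact mul_le_mul h5 (Real.exp_le_exp.2 h4) (Real.exp_pos _).le (Real.exp_pos _).le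
    _ = Real.exp (-q) := by
        rw [← Real.exp_add]
        congr 1
        ring

end Pool.Agent.R385.TL
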