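import Pool.Agent.R385.TL.Loc
import Pool.Agent.R385.JD.Indep

/-!
# Upper bounds for the frequency of large boundary values
-/

set_option autoImplicit false

namespace Pool.Agent.R385.TL

open MeasureTheory Filter Topology
open Pool.Agent.TH339.MP
open Pool.Agent.R409.ED
open Pool.Agent.R385.JD
open HB (lin continuous_lin)
open scoped ENNReal

variable {b : PP → ℂ} {M : ℝ}

/-- the sum of `‖b (p, 0)‖ / p` over the primes `p ≤ P` -/
noncomputable def AS (b : PP → ℂ) (P : ℕ) : ℝ := ∑ p : PY P, ‖b (p.1, 0)‖ / ((p.1 : ℕ) : ℝ)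

/-- the sum of the `p ^ (-2)` -/
noncomputable def S2 : ℝ := ∑' p : Nat.Primes, (((p : ℕ) : ℝ) ^ (-2 : ℝ))

lemma S2_nonneg : 0 ≤ S2 := tsum_nonneg fun _ => by positivity

/-- sums over the primes at most `P` -/
lemma sum_small {f : Nat.Primes → ℝ} (hf : ∀ p, 0 ≤ f p) (P Y : ℕ) :
    ∑ p : PY Y, (if (p.1 : ℕ) ≤ P then f p.1 else 0) ≤ ∑ p : PY P, f p.1 := by
  classical
  rw [← Finset.sum_filter]
  have h1 : ∑ p ∈ (Finset.univ.filter fun p : PY Y => (p.1 : ℕ) ≤ P), f p.1 =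
      ∑ p ∈ (Finset.univ.filter fun p : PY Y => (p.1 : ℕ) ≤ P).image (fun p => p.1), f p := by
    rw [Finset.sum_image fun a _ c _ h => Subtype.ext h]
  have h2 : ∑ p : PY P, f p.1 = ∑ p ∈ (Finset.univ : Finset (PY P)).image (fun p => p.1), f p := by
    rw [Finset.sum_image fun a _ c _ h => Subtype.ext h]
  rw [h1, h2]
  refine Finset.sum_le_sum_of_subset_of_nonneg ?_ fun _ _ _ => hf _
  intro p hp
  obtain ⟨q, hq, rfl⟩ := Finset.mem_image.1 hp
  exact Finset.mem_image.2 ⟨⟨q.1, (Finset.mem_filter.1 hq).2⟩, Finset.mem_univ _, rfl⟩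

lemma sum_large {P : ℕ} (hP : 1 ≤ P) (Y : ℕ) {D : ℝ} (hD : 0 ≤ D) :
    ∑ p : PY Y, (if (p.1 : ℕ) ≤ P then 0 else D * ((((p.1 : ℕ) : ℝ)) ^ 2)⁻¹) ≤ D * (P : ℝ)⁻¹ := by
  classical
  have hP0 : (0 : ℝ) < P := by exact_mod_cast hP
  rcases le_total Y P with h | h
  · refine (Finset.sum_nonpos fun p _ => ?_).trans (by positivity)
    rw [if_pos (p.2.trans h)]
  · have h1 : ∑ p : PY Y, (if (p.1 : ℕ) ≤ P then 0 else D * ((((p.1 : ℕ) : ℝ)) ^ 2)⁻¹) =
        ∑ n ∈ (Finset.univ.filter fun p : PY Y => ¬ (p.1 : ℕ) ≤ P).image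
          (fun p : PY Y => ((p.1 : Nat.Primes) : ℕ)), D * (((n : ℝ)) ^ 2)⁻¹ := by
      have h0 := Finset.sum_image (s := Finset.univ.filter fun p : PY Y => ¬ (p.1 : ℕ) ≤ P)
        (f := fun n : ℕ => D * (((n : ℝ)) ^ 2)⁻¹) (g := fun p : PY Y => ((p.1 : Nat.Primes) : ℕ))
        (fun a _ c _ h => Subtype.ext (Subtype.ext h))
      refine Eq.trans ?_ h0.symm
      rw [Finset.sum_filter]
      refine Finset.sum_congr rfl fun p _ => ?_
      by_cases hp : (p.1 : ℕ) ≤ P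
      · rw [if_pos hp, if_neg (not_not.2 hp)]
      · rw [if_neg hp, if_pos hp]
    rw [h1]
    calc _ ≤ ∑ n ∈ Finset.Ioc P Y, D * (((n : ℝ)) ^ 2)⁻¹ := by
          refine Finset.sum_le_sum_of_subset_of_nonneg ?_ fun _ _ _ => by positivity
          intro n hn
          obtain ⟨q, hq, rfl⟩ := Finset.mem_image.1 hn
          have := (Finset.mem_filter.1 hq).2
          exact Finset.mem_Ioc.2 ⟨by omega, q.2⟩
      _ = D * ∑ n ∈ Finset.Ioc P Y, (((n : ℝ)) ^ 2)⁻¹ := by rw [Finset.mul_sum]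
      _ ≤ D * ((P : ℝ)⁻¹ - (Y : ℝ)⁻¹) := by
          gcongr
          exact sum_Ioc_inv_sq_le_sub (by omega) h
      _ ≤ _ := by
          gcongr
          simp

/-- the exponential moments -/
theorem prod_gm (hb : ∀ x, ‖b x‖ ≤ M / (x.2 + 1 : ℕ)) {u : ℂ} (hu : ‖u‖ = 1) {q : ℝ} (hq : 0 ≤ q)
    {P : ℕ} (hP : 1 ≤ P) (hP2 : 2 * M * q ≤ P) (Y : ℕ) :
    ∏ p : PY Y, gm b u q p.1 ≤ Real.exp (q * (AS b P + 2 * M * S2 + 2 * M)) := by
  classical
  have hM := M_nonneg hb
  have hP0 : (0 : ℝ) < P := by exact_mod_cast hP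
  set f : Nat.Primes → ℝ := fun p =>
    q * (‖b (p, 0)‖ / (p : ℕ) + 2 * M * ((p : ℕ) : ℝ) ^ (-2 : ℝ)) with hf
  have hf0 : ∀ p, 0 ≤ f p := fun p => by simp only [hf]; positivity
  have h1 : ∀ p : PY Y, gm b u q p.1 ≤ Real.exp ((if (p.1 : ℕ) ≤ P then f p.1 else 0) +
      (if (p.1 : ℕ) ≤ P then 0 else (2 * M * q) ^ 2 * ((((p.1 : ℕ) : ℝ)) ^ 2)⁻¹)) := by
    intro p
    by_cases h : (p.1 : ℕ) ≤ P
    · rw [if_pos h, if_pos h, add_zero]
      exact gm_small hb hu hq p.1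
    · rw [if_neg h, if_neg h, zero_add]
      have h2 : 2 * M * q ≤ (p.1 : ℕ) := hP2.trans (by exact_mod_cast (by omega : P ≤ (p.1 : ℕ)))
      refine (gm_large hb hu hq h2).trans (le_of_eq ?_)
      congr 1
      rw [div_pow, div_eq_mul_inv]
  calc ∏ p : PY Y, gm b u q p.1 ≤ ∏ p : PY Y, Real.exp ((if (p.1 : ℕ) ≤ P then f p.1 else 0) +
      (if (p.1 : ℕ) ≤ P then 0 else (2 * M * q) ^ 2 * ((((p.1 : ℕ) : ℝ)) ^ 2)⁻¹)) :=
        Finset.prod_le_prod (fun p _ => gm_nonneg _ _ _ _) fun p _ => h1 p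
    _ = Real.exp (∑ p : PY Y, (if (p.1 : ℕ) ≤ P then f p.1 else 0) +
        ∑ p : PY Y, (if (p.1 : ℕ) ≤ P then 0 else (2 * M * q) ^ 2 * ((((p.1 : ℕ) : ℝ)) ^ 2)⁻¹)) := by
        rw [← Real.exp_sum, Finset.sum_add_distrib]
    _ ≤ _ := by
        refine Real.exp_le_exp.2 ?_
        have h2 := sum_small hf0 P Y
        have h3 := sum_large hP Y (D := (2 * M * q) ^ 2) (by positivity)
        have h4 : ∑ p : PY P, f p.1 ≤ q * (AS b P + 2 * M * S2) := by
          simp only [hf]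
          rw [← Finset.mul_sum, Finset.sum_add_distrib, ← Finset.mul_sum]
          refine mul_le_mul_of_nonneg_left ?_ hq
          unfold AS
          refine add_le_add le_rfl ?_
          refine mul_le_mul_of_nonneg_left ?_ (by positivity)
          have h5 := Finset.sum_image (s := (Finset.univ : Finset (PY P)))
            (f := fun p : Nat.Primes => ((p : ℕ) : ℝ) ^ (-2 : ℝ)) (g := fun p : PY P => p.1)
            (fun a _ c _ h => Subtype.ext h)
          rw [← h5]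
          exact summable_sq.sum_le_tsum _ fun _ _ => by positivity
        have h6 : (2 * M * q) ^ 2 * (P : ℝ)⁻¹ ≤ q * (2 * M) := by
          rw [← div_eq_mul_inv, div_le_iff₀ hP0]
          have h7 : 0 ≤ 2 * M * q := by positivity
          nlinarith [mul_le_mul_of_nonneg_left hP2 h7]
        linarith

/-- **Chernoff bound for the boundary values.** -/
theorem chernoff (hb : ∀ x, ‖b x‖ ≤ M / (x.2 + 1 : ℕ)) {u : ℂ} (hu : ‖u‖ = 1) {q : ℝ} (hq : 0 ≤ q)
    {P : ℕ} (hP : 1 ≤ P) (hP2 : 2 * M * q ≤ P) (V : ℝ) :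
    ∃ T0 : ℝ, ∀ a T : ℝ, T0 ≤ T →
      volume {t ∈ Set.Icc a (a + T) | V + 1 ≤ (u * bl b t).re} ≤
        ENNReal.ofReal (3 * Real.exp (q * (AS b P + 2 * M * S2 + 2 * M - V)) * T) := by
  have hM := M_nonneg hb
  set E : ℝ := Real.exp (q * (AS b P + 2 * M * S2 + 2 * M)) with hE
  set η : ℝ := Real.exp (q * (AS b P + 2 * M * S2 + 2 * M - V)) with hη
  have hE0 : 0 < E := Real.exp_pos _
  have hη0 : 0 < η := Real.exp_pos _
  have hηE : η = E * Real.exp (-(q * V)) := by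
    rw [hη, hE, ← Real.exp_add]
    congr 1
    ring
  clear_value η E
  have hlog : Tendsto (fun Y : ℕ => Real.log Y) atTop atTop :=
    Real.tendsto_log_atTop.comp tendsto_natCast_atTop_atTop
  obtain ⟨Y0, hY0⟩ := eventually_atTop.1 (hlog.eventually_ge_atTop (2 * (64800 * M ^ 2) / η + 1))
  set Y : ℕ := max 2 Y0 with hY
  have hY2 : 2 ≤ Y := le_max_left _ _
  have hlY : 2 * (64800 * M ^ 2) / η + 1 ≤ Real.log Y := hY0 Y (le_max_right _ _)
  clear_value Y
  have hlY0 : 0 < Real.log Y := by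
    have : 0 ≤ 2 * (64800 * M ^ 2) / η := by positivity
    linarith
  have hsmall : 2 * (64800 * M ^ 2 / Real.log Y) ≤ η := by
    rw [← mul_div_assoc, div_le_iff₀ hlY0]
    have h1 : 2 * (64800 * M ^ 2) / η ≤ Real.log Y := by linarith
    rw [div_le_iff₀ hη0] at h1
    linarith
  set G : UnitAddTorus (PY Y) → ℝ := fun θ => Real.exp (q * (u * SY b Y θ).re) with hG
  have hGc : Continuous G := by
    have := continuous_SY hb Y
    fun_prop
  have h1 := kwR Y hGc
  have h2 : ∫ θ, G θ ≤ E := by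
    rw [hG, exp_prod b u q Y, hE]
    exact prod_gm hb hu hq hP hP2 Y
  obtain ⟨T1, hT1⟩ := of_ev (h1.eventually (gt_mem_nhds (show ∫ θ, G θ < 2 * E by linarith)))
  refine ⟨max T1 1, fun a T hT => ?_⟩
  have hT1' : 1 ≤ T := (le_max_right _ _).trans hT
  have hT0 : 0 < T := by linarith
  have h3 := hT1 a T ((le_max_left _ _).trans hT)
  unfold rav at h3
  simp only at h3
  rw [inv_mul_lt_iff₀ hT0, intervalIntegral.integral_of_le (by linarith),
    ← integral_Icc_eq_integral_Ioc] at h3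
  set W := Set.Icc a (a + T) with hW
  set g : ℝ → ℝ := fun t => G (lin (lY Y) t) with hg
  have hgc : Continuous g := hGc.comp (continuous_lin _)
  have hgeq : ∀ t, g t = Real.exp (q * (u * QY b Y t).re) := by
    intro t
    simp only [hg, hG]
    rw [SY_lin hb]
  -- the two parts
  have hsub : {t ∈ W | V + 1 ≤ (u * bl b t).re} ⊆
      {t ∈ W | Real.exp (q * V) ≤ g t} ∪ {t ∈ W | 1 ≤ ‖bl b t - QY b Y t‖ ^ 2} := by
    intro t ht
    by_cases h4 : V ≤ (u * QY b Y t).re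
    · left
      refine ⟨ht.1, ?_⟩
      rw [hgeq]
      exact Real.exp_le_exp.2 (mul_le_mul_of_nonneg_left h4 hq)
    · right
      refine ⟨ht.1, ?_⟩
      push Not at h4
      have h5 : 1 ≤ (u * (bl b t - QY b Y t)).re := by
        rw [mul_sub, Complex.sub_re]
        have := ht.2
        linarith
      have h6 : (u * (bl b t - QY b Y t)).re ≤ ‖bl b t - QY b Y t‖ := by
        refine (Complex.re_le_norm _).trans ?_
        rw [norm_mul, hu, one_mul]
      have h7 : 1 ≤ ‖bl b t - QY b Y t‖ := h5.trans h6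
      nlinarith
  have hint : ∫⁻ t in W, ENNReal.ofReal (g t) ≤ ENNReal.ofReal (2 * E * T) := by
    rw [← ofReal_integral_eq_lintegral_ofReal (hgc.integrableOn_Icc)
      (Eventually.of_forall fun t => (Real.exp_pos _).le)]
    exact ENNReal.ofReal_le_ofReal (by linarith)
  have hm1 : volume {t ∈ W | Real.exp (q * V) ≤ g t} ≤ ENNReal.ofReal (2 * η * T) := by
    have h8 : {t ∈ W | Real.exp (q * V) ≤ g t} ⊆
        {t | ENNReal.ofReal (Real.exp (q * V)) ≤ ENNReal.ofReal (g t)} ∩ W := fun t ht =>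
      ⟨ENNReal.ofReal_le_ofReal ht.2, ht.1⟩
    have h9 := mul_meas_ge_le_lintegral₀ (μ := volume.restrict W)
      (f := fun t => ENNReal.ofReal (g t)) hgc.measurable.ennreal_ofReal.aemeasurable
      (ENNReal.ofReal (Real.exp (q * V)))
    rw [Measure.restrict_apply' measurableSet_Icc] at h9
    have h10 := h9.trans hint
    have h11 : ENNReal.ofReal (Real.exp (q * V)) ≠ 0 := by
      simp [Real.exp_pos]
    rw [mul_comm, ← ENNReal.le_div_iff_mul_le (Or.inl h11) (Or.inl ENNReal.ofReal_ne_top),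
      ← ENNReal.ofReal_div_of_pos (Real.exp_pos _)] at h10
    refine (measure_mono h8).trans (h10.trans (le_of_eq ?_))
    congr 1
    rw [hηE, Real.exp_neg]
    field_simp
  have hm2 : volume {t ∈ W | 1 ≤ ‖bl b t - QY b Y t‖ ^ 2} ≤ ENNReal.ofReal (η * T) := by
    have h8 : {t ∈ W | 1 ≤ ‖bl b t - QY b Y t‖ ^ 2} ⊆
        {t | (1 : ℝ≥0∞) ≤ ENNReal.ofReal (‖bl b t - QY b Y t‖ ^ 2)} ∩ W := fun t ht =>
      ⟨by
        rw [← ENNReal.ofReal_one]
        exact ENNReal.ofReal_le_ofReal ht.2, ht.1⟩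
    have hmeas : AEMeasurable (fun u => ENNReal.ofReal (‖bl b u - QY b Y u‖ ^ 2))
        (volume.restrict W) :=
      ((((boundary hb).1.sub (continuous_QY hb Y).measurable.aemeasurable).norm.pow_const 2
        ).ennreal_ofReal).restrict
    have h9 := mul_meas_ge_le_lintegral₀ (μ := volume.restrict W) hmeas 1
    rw [Measure.restrict_apply' measurableSet_Icc, one_mul] at h9
    refine (measure_mono h8).trans (h9.trans ((dist_win hb hY2 hT1').trans ?_))
    refine ENNReal.ofReal_le_ofReal ?_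
    gcongr
  refine (measure_mono hsub).trans ((measure_union_le _ _).trans ((add_le_add hm1 hm2).trans
    (le_of_eq ?_)))
  rw [← ENNReal.ofReal_add (by positivity) (by positivity)]
  congr 1
  ring

end Pool.Agent.R385.TL
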